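import Pool.Agent.U398.NV.Glo

set_option autoImplicit false

/-! # From the weighted pair sum to the pair counts -/

namespace U398.NV

open MeasureTheory Filter Topology Set

noncomputable section

/-- indicator of `0 < u ≤ a` -/
def ind (u a : ℝ) : ℝ := if 0 < u ∧ u ≤ a then 1 else 0

lemma ind_nonneg (u a : ℝ) : 0 ≤ ind u a := by unfold ind; split_ifs <;> norm_num

lemma ind_mono (u : ℝ) : Monotone (ind u) := by
  intro a b h
  unfold ind
  split_ifs with h1 h2 h2
  · exact le_rfl
  · exact absurd ⟨h1.1, h1.2.trans h⟩ h2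
  · norm_num
  · exact le_rfl

lemma ind_int {A : ℝ} (hA : 0 ≤ A) (u : ℝ) :
    ∫ a in (0 : ℝ)..A, ind u a = if 0 < u then max 0 (A - u) else 0 := by
  split_ifs with hu
  · have e1 : ∀ a, ind u a = (Set.Ici u).indicator (fun _ => (1 : ℝ)) a := by
      intro a
      unfold ind
      by_cases h : u ≤ a
      · rw [if_pos ⟨hu, h⟩, Set.indicator_of_mem (Set.mem_Ici.2 h)]
      · rw [if_neg (fun hh => h hh.2), Set.indicator_of_notMem (fun hh => h (Set.mem_Ici.1 hh))]
    simp_rw [e1]
    rw [intervalIntegral.integral_of_le hA, setIntegral_indicator measurableSet_Ici,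
      setIntegral_const, smul_eq_mul, mul_one]
    have e2 : Set.Ioc 0 A ∩ Set.Ici u = Set.Icc u A := by
      ext x
      simp only [Set.mem_inter_iff, Set.mem_Ioc, Set.mem_Ici, Set.mem_Icc]
      constructor
      · rintro ⟨⟨_, h1⟩, h2⟩; exact ⟨h2, h1⟩
      · rintro ⟨h1, h2⟩; exact ⟨⟨by linarith, h2⟩, h1⟩
    rw [e2, measureReal_def, Real.volume_Icc, ENNReal.toReal_ofReal', max_comm]
  · have e1 : ∀ a, ind u a = 0 := by
      intro a
      unfold ind
      rw [if_neg (fun hh => hu hh.1)]
    simp_rw [e1]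
    simp

/-- pair count at distance `≤ a` at scale `L` -/
def NP (m : ℂ → ℝ) (S : Finset ℂ) (L a : ℝ) : ℝ :=
  ∑ s ∈ S, ∑ s' ∈ S, m s * m s' * ind ((s.im - s'.im) * L / (2 * Real.pi)) a

/-- coincidences -/
def NC (m : ℂ → ℝ) (S : Finset ℂ) : ℝ :=
  ∑ s ∈ S, ∑ s' ∈ S, m s * m s' * (if s.im = s'.im then 1 else 0)

section basic
variable {m : ℂ → ℝ} (hm : ∀ s, 0 ≤ m s)
include hm

lemma NP_nonneg (S : Finset ℂ) (L a : ℝ) : 0 ≤ NP m S L a :=
  Finset.sum_nonneg fun s _ => Finset.sum_nonneg fun s' _ =>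
    mul_nonneg (mul_nonneg (hm s) (hm s')) (ind_nonneg _ _)

lemma NC_nonneg (S : Finset ℂ) : 0 ≤ NC m S :=
  Finset.sum_nonneg fun s _ => Finset.sum_nonneg fun s' _ =>
    mul_nonneg (mul_nonneg (hm s) (hm s')) (by split_ifs <;> norm_num)

lemma NP_mono (S : Finset ℂ) (L : ℝ) : Monotone (NP m S L) := by
  intro a b h
  refine Finset.sum_le_sum fun s _ => Finset.sum_le_sum fun s' _ => ?_
  exact mul_le_mul_of_nonneg_left (ind_mono _ h) (mul_nonneg (hm s) (hm s'))

omit hm in
lemma NP_int (S : Finset ℂ) (L : ℝ) {A : ℝ} (hA : 0 ≤ A) :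
    ∫ a in (0 : ℝ)..A, NP m S L a = ∑ s ∈ S, ∑ s' ∈ S, m s * m s' *
      (if 0 < (s.im - s'.im) * L / (2 * Real.pi) then max 0 (A - (s.im - s'.im) * L / (2 * Real.pi)) else 0) := by
  unfold NP
  have hi : ∀ u c : ℝ, IntervalIntegrable (fun a => c * ind u a) volume 0 A := fun u c =>
    ((ind_mono u).intervalIntegrable).const_mul c
  have hi2 : ∀ s : ℂ, IntervalIntegrable (fun a => ∑ s' ∈ S, m s * m s' *
      ind ((s.im - s'.im) * L / (2 * Real.pi)) a) volume 0 A := by
    intro s
    have h1 := IntervalIntegrable.sum (μ := volume) (a := (0 : ℝ)) (b := A) S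
      (f := fun s' a => m s * m s' * ind ((s.im - s'.im) * L / (2 * Real.pi)) a) (fun s' _ => hi _ _)
    refine h1.congr ?_
    intro a _
    simp only [Finset.sum_apply]
  rw [intervalIntegral.integral_finsetSum fun s _ => hi2 s]
  refine Finset.sum_congr rfl fun s _ => ?_
  rw [intervalIntegral.integral_finsetSum fun s' _ => hi _ _]
  refine Finset.sum_congr rfl fun s' _ => ?_
  rw [intervalIntegral.integral_const_mul, ind_int hA]

omit hm in
lemma A_tri {A : ℝ} (hA : 0 < A) (u : ℝ) : A * tri A u = A * (if u = 0 then 1 else 0) +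
    (if 0 < u then max 0 (A - u) else 0) + (if 0 < -u then max 0 (A - -u) else 0) := by
  have e : A * tri A u = max 0 (A - |u|) := by
    unfold tri
    rw [mul_max_of_nonneg _ _ hA.le, mul_zero]
    congr 1
    field_simp
  rw [e]
  rcases lt_trichotomy u 0 with h | h | h
  · rw [if_neg h.ne, if_neg (not_lt.2 h.le), if_pos (by linarith), abs_of_neg h]; ring
  · rw [h]; simp [hA.le]
  · rw [if_neg h.ne', if_pos h, if_neg (by linarith), abs_of_pos h]; ring

omit hm in
lemma A_WS {A L : ℝ} (hA : 0 < A) (hL : 0 < L) (S : Finset ℂ) :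
    A * WS m A L S = A * NC m S + 2 * ∫ a in (0 : ℝ)..A, NP m S L a := by
  have hpi := Real.pi_pos
  rw [NP_int S L hA.le]
  set g : ℂ → ℂ → ℝ := fun s s' => m s * m s' *
    (if 0 < (s.im - s'.im) * L / (2 * Real.pi) then max 0 (A - (s.im - s'.im) * L / (2 * Real.pi)) else 0) with hg
  have e1 : A * WS m A L S = ∑ s ∈ S, ∑ s' ∈ S, (A * (m s * m s' * (if s.im = s'.im then 1 else 0)) +
      g s s' + g s' s) := by
    unfold WS
    rw [Finset.mul_sum]
    refine Finset.sum_congr rfl fun s _ => ?_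
    rw [Finset.mul_sum]
    refine Finset.sum_congr rfl fun s' _ => ?_
    have h1 := A_tri hA ((s.im - s'.im) * L / (2 * Real.pi))
    have e2 : -((s.im - s'.im) * L / (2 * Real.pi)) = (s'.im - s.im) * L / (2 * Real.pi) := by ring
    rw [e2] at h1
    have e3 : (if (s.im - s'.im) * L / (2 * Real.pi) = 0 then (1 : ℝ) else 0) =
        if s.im = s'.im then 1 else 0 := by
      congr 1
      rw [eq_iff_iff]
      constructor
      · intro h
        rw [div_eq_zero_iff] at h
        rcases h with h | h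
        · rcases mul_eq_zero.1 h with h | h
          · linarith
          · exact absurd h hL.ne'
        · exact absurd h (by positivity)
      · intro h
        rw [h]; simp
    rw [e3] at h1
    simp only [hg]
    calc A * (m s * m s' * tri A ((s.im - s'.im) * L / (2 * Real.pi))) =
        m s * m s' * (A * tri A ((s.im - s'.im) * L / (2 * Real.pi))) := by ring
      _ = _ := by rw [h1]; ring
  have e2 : ∑ s ∈ S, ∑ s' ∈ S, g s' s = ∑ s ∈ S, ∑ s' ∈ S, g s s' := Finset.sum_comm
  rw [e1]
  simp_rw [Finset.sum_add_distrib]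
  rw [e2]
  unfold NC
  simp_rw [← Finset.mul_sum]
  ring

lemma NC_le_WS {A : ℝ} (L : ℝ) (S : Finset ℂ) : NC m S ≤ WS m A L S := by
  refine Finset.sum_le_sum fun s _ => Finset.sum_le_sum fun s' _ => ?_
  apply mul_le_mul_of_nonneg_left _ (mul_nonneg (hm s) (hm s'))
  split_ifs with h
  · rw [h, sub_self, zero_mul, zero_div, tri_zero]
  · exact tri_nonneg _ _

end basic

section sys
variable {m : ℂ → ℝ} {Z : Set ℂ} {F : ℝ → Finset ℂ} {C : ℝ} (H : Sys m Z F C)
include H

lemma Sys.mean {A : ℝ} (hA : 1 ≤ A) : ∃ T0 : ℝ, 3 ≤ T0 ∧ ∀ T : ℝ, T0 ≤ T →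
    |(∫ a in (0 : ℝ)..A, NP m (F T) (Real.log T) a) -
      (A * EE A * (T * Real.log T / (2 * Real.pi)) - A * NC m (F T)) / 2| ≤
      (C + 1) / 2 * (T * Real.log T / (2 * Real.pi)) := by
  have hA0 : 0 < A := by linarith
  obtain ⟨T0, hT0, h⟩ := H.both hA
  refine ⟨T0, hT0, fun T hT => ?_⟩
  have hT3 : 3 ≤ T := hT0.trans hT
  have hL : 0 < Real.log T := Real.log_pos (by linarith)
  have h1 := h T hT
  have h2 := A_WS (m := m) hA0 hL (F T)
  set X := T * Real.log T / (2 * Real.pi)
  have e : (∫ a in (0 : ℝ)..A, NP m (F T) (Real.log T) a) - (A * EE A * X - A * NC m (F T)) / 2 =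
      A / 2 * (WS m A (Real.log T) (F T) - EE A * X) := by linarith
  rw [e, abs_mul, abs_of_pos (by positivity)]
  calc A / 2 * |WS m A (Real.log T) (F T) - EE A * X| ≤ A / 2 * ((C + 1) / A * X) := by gcongr
    _ = _ := by field_simp

/-- the two final statements -/
theorem Sys.final : ∃ C' : ℝ, 0 < C' ∧
    (∀ a : ℝ, 0 < a → ∃ T0 : ℝ, 3 ≤ T0 ∧ ∀ T : ℝ, T0 ≤ T →
      |NP m (F T) (Real.log T) a - a * (T * Real.log T / (2 * Real.pi))| ≤ C' * (T * Real.log T / (2 * Real.pi))) ∧
    (∀ A : ℝ, 1 ≤ A → ∃ T0 : ℝ, 3 ≤ T0 ∧ ∀ T : ℝ, T0 ≤ T →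
      |(∫ a in (0 : ℝ)..A, (NP m (F T) (Real.log T) a - a * (T * Real.log T / (2 * Real.pi)))) / A +
        NC m (F T) / 2 - Real.log A / (2 * Real.pi ^ 2 * A) * (T * Real.log T / (2 * Real.pi))| ≤
        C' / A * (T * Real.log T / (2 * Real.pi))) := by
  have hC := H.C_nonneg
  have hpi := Real.pi_pos
  have hpi3 := Real.pi_gt_three
  -- monotone interpolation
  have hmono : ∀ T a b : ℝ, a ≤ b → (b - a) * NP m (F T) (Real.log T) a ≤
      (∫ x in (0 : ℝ)..b, NP m (F T) (Real.log T) x) - (∫ x in (0 : ℝ)..a, NP m (F T) (Real.log T) x) ∧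
      (∫ x in (0 : ℝ)..b, NP m (F T) (Real.log T) x) - (∫ x in (0 : ℝ)..a, NP m (F T) (Real.log T) x) ≤
      (b - a) * NP m (F T) (Real.log T) b := by
    intro T a b hab
    have hmo := NP_mono H.hm (F T) (Real.log T)
    have hi : ∀ x y : ℝ, IntervalIntegrable (NP m (F T) (Real.log T)) volume x y := fun x y =>
      hmo.intervalIntegrable
    rw [intervalIntegral.integral_interval_sub_left (hi _ _) (hi _ _)]
    constructor
    · have h1 := intervalIntegral.integral_mono_on (μ := volume) (a := a) (b := b) hab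
        (f := fun _ => NP m (F T) (Real.log T) a) (g := NP m (F T) (Real.log T))
        intervalIntegrable_const (hi _ _) (fun x hx => hmo hx.1)
      rwa [intervalIntegral.integral_const, smul_eq_mul] at h1
    · have h1 := intervalIntegral.integral_mono_on (μ := volume) (a := a) (b := b) hab
        (g := fun _ => NP m (F T) (Real.log T) b) (f := NP m (F T) (Real.log T)) (hi _ _)
        intervalIntegrable_const (fun x hx => hmo hx.2)
      rwa [intervalIntegral.integral_const, smul_eq_mul] at h1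
  have hAE : ∀ A : ℝ, 1 ≤ A → A * EE A = A ^ 2 + Real.log A / Real.pi ^ 2 := by
    intro A hA
    unfold EE
    have : A ≠ 0 := by linarith
    field_simp
  -- the upper bound for the counts, `a ≥ 1`
  have hup : ∀ a : ℝ, 1 ≤ a → ∃ T0 : ℝ, 3 ≤ T0 ∧ ∀ T : ℝ, T0 ≤ T →
      NP m (F T) (Real.log T) a ≤ (a + C + 2) * (T * Real.log T / (2 * Real.pi)) := by
    intro a ha
    obtain ⟨T1, hT1, h1⟩ := H.mean ha
    obtain ⟨T2, hT2, h2⟩ := H.mean (A := a + 1) (by linarith)
    refine ⟨max T1 T2, hT1.trans (le_max_left _ _), fun T hT => ?_⟩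
    have g1 := (abs_le.1 (h1 T ((le_max_left _ _).trans hT))).1
    have g2 := (abs_le.1 (h2 T ((le_max_right _ _).trans hT))).2
    have g3 := (hmono T a (a + 1) (by linarith)).1
    have hT3 : 3 ≤ T := (hT1.trans (le_max_left _ _)).trans hT
    have hX : 0 ≤ T * Real.log T / (2 * Real.pi) := by
      have := Real.log_nonneg (by linarith : 1 ≤ T)
      positivity
    set X := T * Real.log T / (2 * Real.pi)
    rw [hAE a ha] at g1
    rw [hAE (a + 1) (by linarith)] at g2
    have hNC := NC_nonneg H.hm (F T)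
    have hlog : Real.log (a + 1) - Real.log a ≤ 1 := by
      rw [← Real.log_div (by linarith) (by linarith)]
      have h3 := Real.log_le_sub_one_of_pos (x := (a + 1) / a) (by positivity)
      have h4 : (a + 1) / a - 1 = 1 / a := by field_simp; ring
      rw [h4] at h3
      have h5 : 1 / a ≤ 1 := by rw [div_le_one (by linarith)]; exact ha
      linarith
    have h6 : (Real.log (a + 1) - Real.log a) / Real.pi ^ 2 ≤ 1 := by
      rw [div_le_one (by positivity)]; nlinarith
    have h7 : Real.log (a + 1) / Real.pi ^ 2 - Real.log a / Real.pi ^ 2 ≤ 1 := by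
      rw [← sub_div]; exact h6
    have h8 : (Real.log (a + 1) / Real.pi ^ 2 - Real.log a / Real.pi ^ 2) * X ≤ 1 * X :=
      mul_le_mul_of_nonneg_right h7 hX
    nlinarith
  -- the lower bound for the counts, `a ≥ 2`
  have hlo : ∀ a : ℝ, 2 ≤ a → ∃ T0 : ℝ, 3 ≤ T0 ∧ ∀ T : ℝ, T0 ≤ T →
      (a - 2 * C - 4) * (T * Real.log T / (2 * Real.pi)) ≤ NP m (F T) (Real.log T) a := by
    intro a ha
    obtain ⟨T1, hT1, h1⟩ := H.mean (A := a) (by linarith)
    obtain ⟨T2, hT2, h2⟩ := H.mean (A := a - 1) (by linarith)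
    obtain ⟨T3, hT3, h3⟩ := H.both (A := 1) le_rfl
    refine ⟨max (max T1 T2) T3, hT3.trans (le_max_right _ _), fun T hT => ?_⟩
    have g1 := (abs_le.1 (h1 T (((le_max_left _ _).trans (le_max_left _ _)).trans hT))).1
    have g2 := (abs_le.1 (h2 T (((le_max_right _ _).trans (le_max_left _ _)).trans hT))).2
    have g4 := (abs_le.1 (h3 T ((le_max_right _ _).trans hT))).2
    have g3 := (hmono T (a - 1) a (by linarith)).2
    have hT3 : 3 ≤ T := (hT3.trans (le_max_right _ _)).trans hT
    have hX : 0 ≤ T * Real.log T / (2 * Real.pi) := by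
      have := Real.log_nonneg (by linarith : 1 ≤ T)
      positivity
    set X := T * Real.log T / (2 * Real.pi)
    rw [hAE a (by linarith)] at g1
    rw [hAE (a - 1) (by linarith)] at g2
    have e1 : EE 1 = 1 := by unfold EE; simp
    rw [e1] at g4
    have g5 := NC_le_WS H.hm (A := 1) (Real.log T) (F T)
    have g6 : NC m (F T) ≤ (C + 2) * X := by linarith
    have hlog : 0 ≤ Real.log a - Real.log (a - 1) := by
      have := Real.log_le_log (by linarith : 0 < a - 1) (by linarith : a - 1 ≤ a)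
      linarith
    have h7 : 0 ≤ Real.log a / Real.pi ^ 2 - Real.log (a - 1) / Real.pi ^ 2 := by
      rw [← sub_div]; positivity
    have h8 : 0 ≤ (Real.log a / Real.pi ^ 2 - Real.log (a - 1) / Real.pi ^ 2) * X :=
      mul_nonneg h7 hX
    have hCX : 0 ≤ C * X := mul_nonneg hC hX
    nlinarith
  refine ⟨3 * C + 10, by positivity, ?_, ?_⟩
  · intro a ha
    rcases le_total 2 a with h2 | h2
    · obtain ⟨T1, hT1, h1⟩ := hup a (by linarith)
      obtain ⟨T2, hT2, h2'⟩ := hlo a h2
      refine ⟨max T1 T2, hT1.trans (le_max_left _ _), fun T hT => ?_⟩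
      have g1 := h1 T ((le_max_left _ _).trans hT)
      have g2 := h2' T ((le_max_right _ _).trans hT)
      have hT3 : 3 ≤ T := (hT1.trans (le_max_left _ _)).trans hT
      have hX : 0 ≤ T * Real.log T / (2 * Real.pi) := by
        have := Real.log_nonneg (by linarith : 1 ≤ T)
        positivity
      set X := T * Real.log T / (2 * Real.pi)
      have hCX : 0 ≤ C * X := mul_nonneg hC hX
      rw [abs_le]
      constructor <;> nlinarith
    · obtain ⟨T1, hT1, h1⟩ := hup 2 (by linarith)
      refine ⟨T1, hT1, fun T hT => ?_⟩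
      have g1 := h1 T hT
      have g2 := NP_nonneg H.hm (F T) (Real.log T) a
      have g3 := NP_mono H.hm (F T) (Real.log T) h2
      have hT3 : 3 ≤ T := hT1.trans hT
      have hX : 0 ≤ T * Real.log T / (2 * Real.pi) := by
        have := Real.log_nonneg (by linarith : 1 ≤ T)
        positivity
      set X := T * Real.log T / (2 * Real.pi)
      have hCX : 0 ≤ C * X := mul_nonneg hC hX
      have haX : a * X ≤ 2 * X := mul_le_mul_of_nonneg_right h2 hX
      have haX0 : 0 ≤ a * X := by positivity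
      rw [abs_le]
      constructor <;> linarith
  · intro A hA
    have hA0 : 0 < A := by linarith
    obtain ⟨T1, hT1, h1⟩ := H.mean hA
    refine ⟨T1, hT1, fun T hT => ?_⟩
    have g1 := h1 T hT
    have hT3 : 3 ≤ T := hT1.trans hT
    have hX : 0 ≤ T * Real.log T / (2 * Real.pi) := by
      have := Real.log_nonneg (by linarith : 1 ≤ T)
      positivity
    set X := T * Real.log T / (2 * Real.pi)
    have hi : IntervalIntegrable (NP m (F T) (Real.log T)) volume 0 A :=
      (NP_mono H.hm (F T) (Real.log T)).intervalIntegrable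
    have e1 : ∫ a in (0 : ℝ)..A, (NP m (F T) (Real.log T) a - a * X) =
        (∫ a in (0 : ℝ)..A, NP m (F T) (Real.log T) a) - A ^ 2 / 2 * X := by
      rw [intervalIntegral.integral_sub hi (Continuous.intervalIntegrable (by fun_prop) _ _),
        intervalIntegral.integral_mul_const, integral_id]
      ring
    have e2 : (∫ a in (0 : ℝ)..A, (NP m (F T) (Real.log T) a - a * X)) / A + NC m (F T) / 2 -
        Real.log A / (2 * Real.pi ^ 2 * A) * X =
        1 / A * ((∫ a in (0 : ℝ)..A, NP m (F T) (Real.log T) a) -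
          (A * EE A * X - A * NC m (F T)) / 2) := by
      rw [e1, hAE A hA]
      field_simp
      ring
    rw [e2, abs_mul, abs_of_pos (by positivity)]
    calc 1 / A * |(∫ a in (0 : ℝ)..A, NP m (F T) (Real.log T) a) -
          (A * EE A * X - A * NC m (F T)) / 2| ≤ 1 / A * ((C + 1) / 2 * X) := by gcongr
      _ = (C + 1) / 2 / A * X := by ring
      _ ≤ (3 * C + 10) / A * X := by
          gcongr
          linarith

end sys

end

end U398.NV
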