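import Pool.Agent.U398.NV.Ord2
import Pool.Agent.U398.NV.Cnt
import Pool.Agent.Y750.OM.Conv1
import Pool.Agent.Y750.OM.Main5

set_option autoImplicit false

/-! # The zeros of zeta form a system in the sense of `Glo` -/

namespace U398.NV

open MeasureTheory Filter Topology Set
open H370 (Zf mult mem_Zf good_zeta zset NN NN_eq zeta_zeros_finite)
open Pool.Agent.Y750.OM (PO NO rh)

noncomputable section

/-- multiplicity -/
def mz (s : ℂ) : ℝ := (mult riemannZeta s : ℝ)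

/-- the nontrivial zeros -/
def Zz : Set ℂ := {s : ℂ | riemannZeta s = 0 ∧ 0 < s.re ∧ s.re < 1}

/-- zeros with ordinate in `(0, T]` -/
def Fz (T : ℝ) : Finset ℂ := (zeta_zeros_finite T).toFinset

lemma mem_Fz (s : ℂ) (T : ℝ) : s ∈ Fz T ↔ s ∈ Zz ∧ 0 < s.im ∧ s.im ≤ T := by
  unfold Fz
  rw [Set.Finite.mem_toFinset]
  unfold Zz zset
  simp only [Set.mem_ofPred_eq]
  tauto

lemma Fz_sdiff [DecidableEq ℂ] {T : ℝ} (hT : 1 ≤ T) : Fz (2 * T) \ Fz T = Zf riemannZeta T (2 * T) := by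
  ext s
  rw [Finset.mem_sdiff, mem_Fz, mem_Fz, mem_Zf good_zeta hT]
  unfold Zz zset
  simp only [Set.mem_ofPred_eq]
  constructor
  · rintro ⟨⟨⟨h1, h2, h3⟩, h4, h5⟩, h6⟩
    refine ⟨h2, h3, ?_, h5, h1⟩
    by_contra hcon
    push Not at hcon
    exact h6 ⟨⟨h1, h2, h3⟩, h4, hcon⟩
  · rintro ⟨h2, h3, h4, h5, h1⟩
    exact ⟨⟨⟨h1, h2, h3⟩, by linarith, h5⟩, fun h => by linarith [h.2.2]⟩

lemma sum_Zf {T : ℝ} (hT : 1 ≤ T) : ∑ s ∈ Zf riemannZeta T (2 * T), mz s = NN riemannZeta T (2 * T) := by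
  rw [NN_eq good_zeta hT]
  push_cast
  rfl

/-- zeros in short intervals -/
lemma z_short : ∃ C : ℝ, 0 < C ∧ ∃ T0 : ℝ, ∀ T : ℝ, T0 ≤ T →
    ∑ s ∈ (Fz (2 * T)).filter (fun s => |s.im - T| ≤ 1), mz s ≤ C * Real.log T := by
  classical
  obtain ⟨C, hC, h⟩ := H370.A2.near_count good_zeta
  refine ⟨2 * C, by positivity, 20, fun T hT => ?_⟩
  have h1 := h (T / 2) (by linarith) (T / 2) (2 * T) le_rfl (by linarith) T
  have h2 := h (T / 2) (by linarith) (T / 2) (2 * T) le_rfl (by linarith) (T - 1)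
  have hm : ∀ s : ℂ, 0 ≤ mz s := fun s => Nat.cast_nonneg _
  have hlog : Real.log (T / 2) ≤ Real.log T := Real.log_le_log (by linarith) (by linarith)
  set G1 := (Zf riemannZeta (T / 2) (2 * T)).filter (fun s => T - 1 < s.im ∧ s.im ≤ T + 1)
  set G2 := (Zf riemannZeta (T / 2) (2 * T)).filter (fun s => T - 1 - 1 < s.im ∧ s.im ≤ T - 1 + 1)
  have h3 : ∑ s ∈ (Fz (2 * T)).filter (fun s => |s.im - T| ≤ 1), mz s ≤ ∑ s ∈ G1 ∪ G2, mz s := by
    apply Finset.sum_le_sum_of_subset_of_nonneg _ fun s _ _ => hm s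
    intro s hs
    rw [Finset.mem_filter, mem_Fz] at hs
    obtain ⟨⟨g1, g2, g3⟩, g4⟩ := hs
    obtain ⟨g5, g6⟩ := abs_le.1 g4
    have g7 : s ∈ Zf riemannZeta (T / 2) (2 * T) := by
      rw [mem_Zf good_zeta (by linarith)]
      exact ⟨g1.2.1, g1.2.2, by linarith, g3, g1.1⟩
    rw [Finset.mem_union, Finset.mem_filter, Finset.mem_filter]
    by_cases h4 : T - 1 < s.im
    · exact Or.inl ⟨g7, h4, by linarith⟩
    · exact Or.inr ⟨g7, by linarith, by linarith⟩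
  have h4 : ∑ s ∈ G1 ∪ G2, mz s ≤ ∑ s ∈ G1, mz s + ∑ s ∈ G2, mz s := by
    have h5 := Finset.sum_union_inter (s₁ := G1) (s₂ := G2) (f := mz)
    have h6 : 0 ≤ ∑ s ∈ G1 ∩ G2, mz s := Finset.sum_nonneg fun s _ => hm s
    linarith
  have h5 : ∑ s ∈ G1, mz s ≤ C * Real.log T := h1.trans (by gcongr)
  have h6 : ∑ s ∈ G2, mz s ≤ C * Real.log T := h2.trans (by gcongr)
  linarith

/-- the number of zeros in a block -/
lemma z_count {ε : ℝ} (hε : 0 < ε) : ∃ T0 : ℝ, 1 ≤ T0 ∧ ∀ T : ℝ, T0 ≤ T →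
    |(NN riemannZeta T (2 * T) : ℝ) - T * Real.log T / (2 * Real.pi)| ≤
      ε * (T * Real.log T / (2 * Real.pi)) := by
  have hpi := Real.pi_pos
  have hpi3 := Real.pi_gt_three
  obtain ⟨T1, hT1, h1⟩ := Pool.Agent.Y750.OM.psi_full (1 / 2) (ε / 2) (by norm_num) (by norm_num)
    (by positivity) (fun _ => 0) 0 (fun x y => by simp) (fun x _ => rfl)
  obtain ⟨C, hC, h2⟩ := Pool.Agent.Y750.OM.edge_count
  refine ⟨max T1 ((C + 1) * (2 * Real.pi) * 2 / ε), by linarith [le_max_left T1 ((C + 1) * (2 * Real.pi) * 2 / ε)],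
    fun T hT => ?_⟩
  have hTT1 : T1 ≤ T := (le_max_left _ _).trans hT
  have hTC : (C + 1) * (2 * Real.pi) * 2 / ε ≤ T := (le_max_right _ _).trans hT
  have hT10 : 10 ≤ T := hT1.trans hTT1
  obtain ⟨h3, -⟩ := h1 T hTT1
  have h4 := h2 T hT10
  set L := Real.log T with hL
  have hL0 : 0 < L := Real.log_pos (by linarith)
  have hSZ : Zf riemannZeta (T + 1) (2 * T - 1) ⊆ Zf riemannZeta T (2 * T) := by
    intro s hs
    rw [mem_Zf good_zeta (by linarith)] at hs ⊢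
    obtain ⟨g1, g2, g3, g4, g5⟩ := hs
    exact ⟨g1, g2, by linarith, by linarith, g5⟩
  have e1 : (NN riemannZeta T (2 * T) : ℝ) = ∑ s ∈ Zf riemannZeta T (2 * T), mz s :=
    (sum_Zf (by linarith)).symm
  have e2 : (NN riemannZeta (T + 1) (2 * T - 1) : ℝ) = ∑ s ∈ Zf riemannZeta (T + 1) (2 * T - 1), mz s := by
    rw [NN_eq good_zeta (by linarith)]; push_cast; rfl
  classical
  have e3 : (NN riemannZeta T (2 * T) : ℝ) = ∑ s ∈ Zf riemannZeta T (2 * T) \ Zf riemannZeta (T + 1) (2 * T - 1), mz s +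
      NN riemannZeta (T + 1) (2 * T - 1) := by
    rw [e1, e2, Finset.sum_sdiff hSZ]
  have h5 : 0 ≤ ∑ s ∈ Zf riemannZeta T (2 * T) \ Zf riemannZeta (T + 1) (2 * T - 1), mz s :=
    Finset.sum_nonneg fun s _ => Nat.cast_nonneg _
  have h6 : ∑ s ∈ Zf riemannZeta T (2 * T) \ Zf riemannZeta (T + 1) (2 * T - 1), mz s ≤ C * L := by
    convert h4 using 2
    rfl
  obtain ⟨h7, h8⟩ := abs_le.1 h3
  have h9 : (C + 1) * L ≤ ε / 2 * (T * L / (2 * Real.pi)) := by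
    rw [div_le_iff₀ hε] at hTC
    have e4 : ε / 2 * (T * L / (2 * Real.pi)) = (T * ε) * L / (2 * (2 * Real.pi)) := by ring
    rw [e4, le_div_iff₀ (by positivity)]
    calc (C + 1) * L * (2 * (2 * Real.pi)) = ((C + 1) * (2 * Real.pi) * 2) * L := by ring
      _ ≤ T * ε * L := by gcongr
  have h10 : (T - 2) * L / (2 * Real.pi) = T * L / (2 * Real.pi) - L / Real.pi := by
    field_simp
  rw [h10] at h7 h8
  have h11 : L / Real.pi ≤ L := by
    rw [div_le_iff₀ hpi]; nlinarith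
  have h12 : 0 ≤ L / Real.pi := by positivity
  rw [abs_le, e3]
  have h13 : 0 ≤ ε / 2 * (L / Real.pi) := by positivity
  constructor <;> nlinarith

/-- the pair sums of a block -/
lemma z_block : ∃ C : ℝ, 0 < C ∧ ∀ A : ℝ, 1 ≤ A → ∃ T0 : ℝ, 1 ≤ T0 ∧ ∀ T : ℝ, T0 ≤ T →
    |WS mz A (Real.log T) (Zf riemannZeta T (2 * T)) - EE A * NN riemannZeta T (2 * T)| ≤
      C / A * NN riemannZeta T (2 * T) := by
  obtain ⟨C0, hC0, hsw⟩ := sandwich
  obtain ⟨C1, θ, hC1, hθ, hpair⟩ := U398.NVP.pair_ord2 (κ0 := 1 / 2) (by norm_num) (by norm_num)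
  refine ⟨(1 + 24 * C0) + C1 * (5 + 2 * C0) + 1, by positivity, fun A hA => ?_⟩
  have hA0 : 0 < A := by linarith
  obtain ⟨J, hJ⟩ := pow_unbounded_of_one_lt A (by norm_num : (1 : ℝ) < 2)
  -- one application
  have happ : ∀ c : ℝ, |c| = C0 / A → ∃ T0 : ℝ, 10 ≤ T0 ∧ ∀ T : ℝ, T0 ≤ T →
      |PO (rh (rp A c)) T (2 * T) (Real.log T) - NN riemannZeta T (2 * T) * EE A| ≤
        ((1 + 24 * C0) + C1 * (5 + 2 * C0) + 1) / A * NN riemannZeta T (2 * T) := by
    intro c hc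
    obtain ⟨K, hK⟩ := rp_lip hA0 c
    obtain ⟨B, hB⟩ := rp_decay hA0 c
    obtain ⟨T0, hT0, h⟩ := hpair (rp A c) K hK (fun α hα => rp_supp A c hα.le)
      ((2 * Real.pi) ^ 2 * B) (Pool.Agent.Y750.OM.rh_of_bl hB) (J + 2) (Rj A c J) (dj J)
      (Rj_nonneg hA0 c J) (dj_pos J) (dj_le J) (rp_maj hA0 c J) (1 / A) (by positivity)
    refine ⟨T0, hT0, fun T hT => ?_⟩
    have h1 := h T hT
    have hN0 : (0 : ℝ) ≤ NN riemannZeta T (2 * T) := Nat.cast_nonneg _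
    set N : ℝ := (NN riemannZeta T (2 * T) : ℝ) with hN
    have hθ1 : (NO T (2 * T) / N) ^ θ ≤ 1 := by
      apply Real.rpow_le_one (div_nonneg (Pool.Agent.Y750.OM.NO_nonneg _ _) hN0) _ hθ.le
      apply div_le_one_of_le₀ _ hN0
      exact Pool.Agent.Y750.OM.NO_le (by linarith)
    have hθ0 : 0 ≤ (NO T (2 * T) / N) ^ θ :=
      Real.rpow_nonneg (div_nonneg (Pool.Agent.Y750.OM.NO_nonneg _ _) hN0) _
    have hS := sum_Rd hA0 c hJ.le
    have hS0 : 0 ≤ ∑ j ∈ Finset.range (J + 2), Rj A c J j * dj J j ^ 3 :=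
      Finset.sum_nonneg fun j _ => mul_nonneg (Rj_nonneg hA0 c J j) (pow_nonneg (dj_pos J j).le 3)
    have hM := main_rp hA c
    rw [hc] at hS hM
    have h2 : (C1 * (∑ j ∈ Finset.range (J + 2), Rj A c J j * dj J j ^ 3) * (NO T (2 * T) / N) ^ θ + 1 / A) ≤
        (C1 * (5 + 2 * C0) + 1) / A := by
      calc (C1 * (∑ j ∈ Finset.range (J + 2), Rj A c J j * dj J j ^ 3) * (NO T (2 * T) / N) ^ θ + 1 / A) ≤
          C1 * (5 / A + 2 * (C0 / A)) * 1 + 1 / A := by gcongr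
        _ = _ := by ring
    have h3 : |N * (rp A c 0 + ∫ α : ℝ, |α| * rp A c α) - N * EE A| ≤ (1 + 24 * C0) / A * N := by
      rw [← mul_sub, abs_mul, abs_of_nonneg hN0]
      unfold EE
      calc N * |(rp A c 0 + ∫ α : ℝ, |α| * rp A c α) - (A + Real.log A / (Real.pi ^ 2 * A))| ≤
          N * (1 / A + 24 * (C0 / A)) := by gcongr
        _ = _ := by ring
    have h4 : PO (rh (rp A c)) T (2 * T) (Real.log T) - N * EE A =
        (PO (rh (rp A c)) T (2 * T) (Real.log T) - N * (rp A c 0 + ∫ α : ℝ, |α| * rp A c α)) +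
          (N * (rp A c 0 + ∫ α : ℝ, |α| * rp A c α) - N * EE A) := by ring
    rw [h4]
    refine (abs_add_le _ _).trans ?_
    calc |PO (rh (rp A c)) T (2 * T) (Real.log T) - N * (rp A c 0 + ∫ α : ℝ, |α| * rp A c α)| +
        |N * (rp A c 0 + ∫ α : ℝ, |α| * rp A c α) - N * EE A| ≤
        (C1 * (5 + 2 * C0) + 1) / A * N + (1 + 24 * C0) / A * N := by
          refine add_le_add (h1.trans ?_) h3
          exact mul_le_mul_of_nonneg_right h2 hN0
      _ = _ := by ring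
  obtain ⟨Ta, hTa, ha⟩ := happ (C0 / A) (abs_of_pos (by positivity))
  obtain ⟨Tb, hTb, hb⟩ := happ (-(C0 / A)) (by rw [abs_neg]; exact abs_of_pos (by positivity))
  refine ⟨max Ta Tb, by linarith [le_max_left Ta Tb], fun T hT => ?_⟩
  have h1 := (abs_le.1 (ha T ((le_max_left _ _).trans hT))).2
  have h2 := (abs_le.1 (hb T ((le_max_right _ _).trans hT))).1
  have hm : ∀ s : ℂ, 0 ≤ mz s := fun s => Nat.cast_nonneg _
  have hblr : ∀ (r : ℝ → ℝ) (x : ℝ), rh r x = bl r (x / (2 * Real.pi)) := fun r x =>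
    (Pool.Agent.Y750.OM.bl_eq r x).symm
  have h3 : WS mz A (Real.log T) (Zf riemannZeta T (2 * T)) ≤ PO (rh (rp A (C0 / A))) T (2 * T) (Real.log T) := by
    refine Finset.sum_le_sum fun s _ => Finset.sum_le_sum fun s' _ => ?_
    rw [hblr]
    exact mul_le_mul_of_nonneg_left (hsw A hA0 _).2 (mul_nonneg (hm s) (hm s'))
  have h4 : PO (rh (rp A (-(C0 / A)))) T (2 * T) (Real.log T) ≤ WS mz A (Real.log T) (Zf riemannZeta T (2 * T)) := by
    refine Finset.sum_le_sum fun s _ => Finset.sum_le_sum fun s' _ => ?_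
    rw [hblr]
    exact mul_le_mul_of_nonneg_left (hsw A hA0 _).1 (mul_nonneg (hm s) (hm s'))
  rw [abs_le]
  constructor <;> linarith

/-- the zeros of zeta form a system -/
theorem z_sys : ∃ C : ℝ, Sys mz Zz Fz C := by
  classical
  obtain ⟨C1, hC1, T1, h1⟩ := z_short
  obtain ⟨C2, hC2, h2⟩ := z_block
  refine ⟨max C1 C2, fun s => Nat.cast_nonneg _, mem_Fz, ⟨max T1 1, fun T hT => ?_⟩, ?_, ?_⟩
  · refine (h1 T ((le_max_left _ _).trans hT)).trans ?_
    have : 0 ≤ Real.log T := Real.log_nonneg ((le_max_right _ _).trans hT)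
    gcongr
    exact le_max_left _ _
  · intro ε hε
    obtain ⟨T0, hT0, h⟩ := z_count hε
    refine ⟨T0, fun T hT => ?_⟩
    have e : ∑ s ∈ Fz (2 * T) \ Fz T, mz s = NN riemannZeta T (2 * T) := by
      rw [← sum_Zf (by linarith)]
      exact Finset.sum_congr (Fz_sdiff (by linarith)) fun _ _ => rfl
    rw [e]
    exact h T hT
  · intro A hA
    obtain ⟨T0, hT0, h⟩ := h2 A hA
    refine ⟨T0, fun T hT => ?_⟩
    have e : ∑ s ∈ Fz (2 * T) \ Fz T, mz s = NN riemannZeta T (2 * T) := by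
      rw [← sum_Zf (by linarith)]
      exact Finset.sum_congr (Fz_sdiff (by linarith)) fun _ _ => rfl
    have e2 : Fz (2 * T) \ Fz T = Zf riemannZeta T (2 * T) := Fz_sdiff (by linarith)
    rw [e, e2]
    refine (h T hT).trans ?_
    have : (0 : ℝ) ≤ NN riemannZeta T (2 * T) := Nat.cast_nonneg _
    gcongr
    exact le_max_right _ _

end

end U398.NV
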