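import Pool.Agent.U398.NV.Tri

set_option autoImplicit false

/-! # The smoothed triangle, majorants and minorants -/

namespace U398.NV

open MeasureTheory Filter Topology Set

/-- the transform of the triangle times the cutoff -/
noncomputable def r1 (A α : ℝ) : ℝ := bl (tri A) α * kh α

lemma bl_comm (A x α : ℝ) : Real.cos (2 * Real.pi * x * α) = Real.cos (2 * Real.pi * α * x) := by
  congr 1; ring

lemma bl_tri_lip {A : ℝ} (hA : 0 < A) (x y : ℝ) :
    |bl (tri A) x - bl (tri A) y| ≤ 2 * Real.pi * A ^ 2 * |x - y| := by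
  have hpi := Real.pi_pos
  have i1 := bl_integrable (tri_integrable hA) x
  have i2 := bl_integrable (tri_integrable hA) y
  unfold bl
  rw [← integral_sub i1 i2]
  refine (abs_integral_le_integral_abs).trans ?_
  have i3 : Integrable fun α : ℝ => tri A α * (2 * Real.pi * A * |x - y|) :=
    (tri_integrable hA).mul_const _
  refine (integral_mono (i1.sub i2).abs i3 fun α => ?_).trans (le_of_eq ?_)
  · simp only [Pi.sub_apply]
    rw [← mul_sub, abs_mul, abs_of_nonneg (tri_nonneg _ _)]
    rcases le_total A |α| with h | h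
    · rw [tri_supp hA h]; simp
    · apply mul_le_mul_of_nonneg_left _ (tri_nonneg _ _)
      have h1 : |Real.cos (2 * Real.pi * α * x) - Real.cos (2 * Real.pi * α * y)| ≤
          |2 * Real.pi * α * x - 2 * Real.pi * α * y| := by
        have := Real.lipschitzWith_cos.dist_le_mul (2 * Real.pi * α * x) (2 * Real.pi * α * y)
        simpa [Real.dist_eq] using this
      refine h1.trans ?_
      rw [← mul_sub, abs_mul, abs_mul, abs_of_pos (by positivity : 0 < 2 * Real.pi)]
      gcongr
  · rw [integral_mul_const, tri_mass hA]; ring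

lemma bl_tri_cont {A : ℝ} (hA : 0 < A) : Continuous (bl (tri A)) := by
  have : LipschitzWith (2 * Real.pi * A ^ 2).toNNReal (bl (tri A)) := by
    refine LipschitzWith.of_dist_le_mul fun x y => ?_
    rw [Real.dist_eq, Real.dist_eq, Real.coe_toNNReal _ (by positivity)]
    exact bl_tri_lip hA x y
  exact this.continuous

lemma r1_lip {A : ℝ} (hA : 0 < A) : ∃ K : ℝ, ∀ x y, |r1 A x - r1 A y| ≤ K * |x - y| := by
  obtain ⟨K, hK, h⟩ := kh_lip
  refine ⟨2 * Real.pi * A ^ 2 + A * K, fun x y => ?_⟩
  unfold r1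
  have e : bl (tri A) x * kh x - bl (tri A) y * kh y =
      (bl (tri A) x - bl (tri A) y) * kh x + bl (tri A) y * (kh x - kh y) := by ring
  rw [e]
  refine (abs_add_le _ _).trans ?_
  rw [abs_mul, abs_mul, abs_of_nonneg (kh_nonneg x), abs_of_nonneg (bl_tri_nonneg hA y)]
  calc |bl (tri A) x - bl (tri A) y| * kh x + bl (tri A) y * |kh x - kh y| ≤
      2 * Real.pi * A ^ 2 * |x - y| * 1 + A * (K * |x - y|) := by
        have h1 := bl_tri_lip hA x y
        have h2 := kh_le_one x
        have h3 := kh_nonneg x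
        have h4 := bl_tri_le hA y
        have h5 := h x y
        gcongr
    _ = _ := by ring

lemma r1_zero {A : ℝ} (hA : 0 < A) : r1 A 0 = A := by
  unfold r1
  rw [bl_tri_zero hA, kh_one (by norm_num), mul_one]

lemma r1_supp (A : ℝ) {α : ℝ} (h : 1 / 2 ≤ |α|) : r1 A α = 0 := by
  unfold r1
  rw [kh_zero h, mul_zero]

lemma r1_nonneg {A : ℝ} (hA : 0 < A) (α : ℝ) : 0 ≤ r1 A α :=
  mul_nonneg (bl_tri_nonneg hA α) (kh_nonneg α)

lemma r1_le {A : ℝ} (hA : 0 < A) (α : ℝ) : r1 A α ≤ A := by
  unfold r1
  calc bl (tri A) α * kh α ≤ A * 1 := by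
        have h1 := bl_tri_le hA α
        have h2 := kh_le_one α
        have h3 := kh_nonneg α
        gcongr
    _ = A := mul_one A

lemma r1_le2 {A : ℝ} (hA : 0 < A) (α : ℝ) : r1 A α * α ^ 2 ≤ 1 / A := by
  unfold r1
  have h1 := bl_tri_decay hA α
  calc bl (tri A) α * kh α * α ^ 2 ≤ bl (tri A) α * 1 * α ^ 2 := by
        have h2 := kh_le_one α
        have h3 := bl_tri_nonneg hA α
        gcongr
    _ ≤ 1 / A := by rw [mul_one]; exact h1

lemma kh_integrable : Integrable kh := kh_cont.integrable_of_hasCompactSupport kh_supp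

/-- the smoothed triangle is the convolution of the triangle and the kernel -/
lemma bl_r1 {A : ℝ} (hA : 0 < A) (u : ℝ) :
    bl (r1 A) u = ∫ y, Kf y * ((tri A (u + y) + tri A (u - y)) / 2) := by
  have hT := tri_integrable hA
  -- as a double integral
  have hprod : Integrable (Function.uncurry fun α x : ℝ => (kh α * tri A x) *
      (Real.cos (2 * Real.pi * x * α) * Real.cos (2 * Real.pi * α * u))) (volume.prod volume) := by
    have h1 : Integrable (fun p : ℝ × ℝ => kh p.1 * tri A p.2) (volume.prod volume) :=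
      kh_integrable.mul_prod hT
    refine h1.norm.mono' ?_ (Eventually.of_forall fun p => ?_)
    · apply Continuous.aestronglyMeasurable
      have h2 := kh_cont
      have h3 := tri_cont A
      have h4 : Continuous fun p : ℝ × ℝ => kh p.1 := h2.comp continuous_fst
      have h5 : Continuous fun p : ℝ × ℝ => tri A p.2 := h3.comp continuous_snd
      simp only [Function.uncurry_def]
      exact (h4.mul h5).mul (by fun_prop)
    · simp only [Function.uncurry]
      rw [norm_mul (kh p.1 * tri A p.2)]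
      apply mul_le_of_le_one_right (norm_nonneg _)
      rw [Real.norm_eq_abs, abs_mul]
      exact mul_le_one₀ (Real.abs_cos_le_one _) (abs_nonneg _) (Real.abs_cos_le_one _)
  have e1 : bl (r1 A) u = ∫ α, ∫ x, (kh α * tri A x) *
      (Real.cos (2 * Real.pi * x * α) * Real.cos (2 * Real.pi * α * u)) := by
    unfold bl r1
    congr 1
    funext α
    unfold bl
    rw [mul_assoc, ← integral_mul_const]
    congr 1
    funext x
    ring
  rw [e1, integral_integral_swap hprod]
  have e2 : ∀ x : ℝ, ∫ α, (kh α * tri A x) *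
      (Real.cos (2 * Real.pi * x * α) * Real.cos (2 * Real.pi * α * u)) =
      tri A x * ((Kf (u + x) + Kf (u - x)) / 2) := by
    intro x
    have i1 := bl_integrable kh_integrable (u + x)
    have i2 := bl_integrable kh_integrable (u - x)
    unfold Kf bl
    rw [← integral_add i1 i2, ← integral_div, ← integral_const_mul]
    congr 1
    funext α
    have f1 : 2 * Real.pi * α * (u + x) = 2 * Real.pi * α * u + 2 * Real.pi * x * α := by ring
    have f2 : 2 * Real.pi * α * (u - x) = 2 * Real.pi * α * u - 2 * Real.pi * x * α := by ring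
    rw [f1, f2, Real.cos_add, Real.cos_sub]
    ring
  simp_rw [e2]
  -- substitutions
  have hK : ∀ c : ℝ, Integrable fun x : ℝ => tri A x * Kf (u + c * x) := by
    intro c
    apply Continuous.integrable_of_hasCompactSupport
    · exact (tri_cont A).mul (Kf_cont.comp (by fun_prop))
    · exact (tri_compact hA).mul_right
  have j1 : Integrable fun x : ℝ => tri A x * Kf (u + x) := by simpa using hK 1
  have j2 : Integrable fun x : ℝ => tri A x * Kf (u - x) := by
    have := hK (-1)
    refine this.congr (Eventually.of_forall fun x => ?_)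
    show tri A x * Kf (u + -1 * x) = _
    congr 2; ring
  have e3 : ∫ x, tri A x * ((Kf (u + x) + Kf (u - x)) / 2) = ∫ x, tri A x * Kf (u + x) := by
    have h1 : ∫ x, tri A x * Kf (u - x) = ∫ x, tri A x * Kf (u + x) := by
      have := integral_neg_eq_self (fun x => tri A x * Kf (u + x)) volume
      rw [← this]
      congr 1
      funext x
      rw [tri_even, ← sub_eq_add_neg]
    have h2 : ∫ x, tri A x * ((Kf (u + x) + Kf (u - x)) / 2) =
        ((∫ x, tri A x * Kf (u + x)) + ∫ x, tri A x * Kf (u - x)) / 2 := by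
      rw [← integral_add j1 j2, ← integral_div]
      congr 1
      funext x
      ring
    rw [h2, h1]; ring
  rw [e3]
  have e4 : ∫ x, tri A x * Kf (u + x) = ∫ y, Kf y * tri A (u - y) := by
    have := integral_add_right_eq_self (fun y => Kf y * tri A (u - y)) (μ := volume) u
    rw [← this]
    congr 1
    funext x
    rw [show u - (x + u) = -x by ring, tri_even, add_comm x u]
    ring
  have i1 : Integrable fun y : ℝ => Kf y * tri A (u - y) := by
    refine Kf_integrable.norm.mono' (Kf_cont.mul ((tri_cont A).comp (by fun_prop))).aestronglyMeasurable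
      (Eventually.of_forall fun y => ?_)
    rw [norm_mul, Real.norm_eq_abs (tri A _), abs_of_nonneg (tri_nonneg _ _)]
    exact mul_le_of_le_one_right (norm_nonneg _) (tri_le_one hA _)
  have i2 : Integrable fun y : ℝ => Kf y * tri A (u + y) := by
    refine Kf_integrable.norm.mono' (Kf_cont.mul ((tri_cont A).comp (by fun_prop))).aestronglyMeasurable
      (Eventually.of_forall fun y => ?_)
    rw [norm_mul, Real.norm_eq_abs (tri A _), abs_of_nonneg (tri_nonneg _ _)]
    exact mul_le_of_le_one_right (norm_nonneg _) (tri_le_one hA _)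
  have e5 : ∫ y, Kf y * tri A (u + y) = ∫ y, Kf y * tri A (u - y) := by
    have := integral_neg_eq_self (fun y => Kf y * tri A (u - y)) volume
    rw [← this]
    congr 1
    funext x
    rw [Kf_even, sub_neg_eq_add]
  have e6 : ∫ y, Kf y * ((tri A (u + y) + tri A (u - y)) / 2) =
      ((∫ y, Kf y * tri A (u + y)) + ∫ y, Kf y * tri A (u - y)) / 2 := by
    rw [← integral_add i2 i1, ← integral_div]
    congr 1
    funext x
    ring
  rw [e6, e5, e4]; ring

/-- the error of the smoothing -/
lemma smooth_err : ∃ C : ℝ, 0 < C ∧ ∀ A : ℝ, 0 < A → ∀ u : ℝ, |bl (r1 A) u - tri A u| ≤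
    C / A * (1 / (1 + (u + A) ^ 2) + 1 / (1 + (u - A) ^ 2) + 2 * (1 / (1 + u ^ 2))) := by
  obtain ⟨C, hC, hK⟩ := Kf_decay
  refine ⟨C * Real.pi / 2, by positivity, fun A hA u => ?_⟩
  have hpi := Real.pi_pos
  have i0 : ∀ v : ℝ, Integrable fun y : ℝ => Kf y * PP v y := by
    intro v
    refine (integrable_inv_one_add_sq.const_mul (C / (1 + v ^ 2))).mono'
      (Kf_cont.mul (PP_cont v)).aestronglyMeasurable (Eventually.of_forall fun y => ?_)
    rw [norm_mul, Real.norm_eq_abs, Real.norm_eq_abs, abs_of_nonneg (PP_nonneg v y)]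
    exact PP_le v y (hK y)
  have b0 : ∀ v : ℝ, |∫ y, Kf y * PP v y| ≤ C * Real.pi / (1 + v ^ 2) := by
    intro v
    refine (abs_integral_le_integral_abs).trans ?_
    refine (integral_mono (i0 v).abs (integrable_inv_one_add_sq.const_mul (C / (1 + v ^ 2)))
      fun y => ?_).trans (le_of_eq ?_)
    · simp only
      rw [abs_mul, abs_of_nonneg (PP_nonneg v y)]
      exact PP_le v y (hK y)
    · rw [integral_const_mul, integral_univ_inv_one_add_sq]
      ring
  have e1 : bl (r1 A) u - tri A u = ((∫ y, Kf y * PP (u + A) y) + (∫ y, Kf y * PP (u - A) y) -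
      2 * ∫ y, Kf y * PP u y) / (2 * A) := by
    rw [bl_r1 hA]
    simp_rw [tri_sd hA]
    have h1 : ∀ y, Kf y * (tri A u + (PP (u + A) y + PP (u - A) y - 2 * PP u y) / (2 * A)) =
        Kf y * tri A u + (Kf y * PP (u + A) y + Kf y * PP (u - A) y - 2 * (Kf y * PP u y)) / (2 * A) := by
      intro y; ring
    simp_rw [h1]
    have i1 : Integrable fun y : ℝ => Kf y * PP (u + A) y + Kf y * PP (u - A) y := (i0 _).add (i0 _)
    have i2 : Integrable fun y : ℝ => 2 * (Kf y * PP u y) := (i0 _).const_mul 2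
    have i3 : Integrable fun y : ℝ => Kf y * PP (u + A) y + Kf y * PP (u - A) y - 2 * (Kf y * PP u y) :=
      i1.sub i2
    rw [integral_add (Kf_integrable.mul_const _) (i3.div_const _), integral_mul_const, Kf_int,
      integral_div, integral_sub i1 i2, integral_add (i0 _) (i0 _), integral_const_mul]
    ring
  rw [e1, abs_div, abs_of_pos (by positivity : 0 < 2 * A), div_le_iff₀ (by positivity)]
  have b1 := b0 (u + A)
  have b2 := b0 (u - A)
  have b3 := b0 u
  have h2 : |(∫ y, Kf y * PP (u + A) y) + (∫ y, Kf y * PP (u - A) y) - 2 * ∫ y, Kf y * PP u y| ≤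
      |∫ y, Kf y * PP (u + A) y| + |∫ y, Kf y * PP (u - A) y| + 2 * |∫ y, Kf y * PP u y| := by
    refine (abs_sub _ _).trans ?_
    rw [abs_mul, abs_of_pos (by norm_num : (0 : ℝ) < 2)]
    have := abs_add_le (∫ y, Kf y * PP (u + A) y) (∫ y, Kf y * PP (u - A) y)
    linarith
  refine h2.trans ?_
  have e2 : C * Real.pi / 2 / A * (1 / (1 + (u + A) ^ 2) + 1 / (1 + (u - A) ^ 2) + 2 * (1 / (1 + u ^ 2))) *
      (2 * A) = C * Real.pi / (1 + (u + A) ^ 2) + C * Real.pi / (1 + (u - A) ^ 2) +
      2 * (C * Real.pi / (1 + u ^ 2)) := by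
    field_simp
  rw [e2]
  linarith

/-! ### the correction -/

/-- the transform of the correction at the origin -/
noncomputable def r2 (α : ℝ) : ℝ := tri (1 / 2) α * (2 + 2 * Real.cos (2 * Real.pi * 1 * α))

/-- the transform of the correction -/
noncomputable def r3 (A α : ℝ) : ℝ := r2 α * (2 + 2 * Real.cos (2 * Real.pi * A * α))

lemma r2_cont : Continuous r2 := by
  unfold r2
  exact (tri_cont _).mul (by fun_prop)

lemma r2_integrable : Integrable r2 :=
  r2_cont.integrable_of_hasCompactSupport ((tri_compact (by norm_num)).mul_right)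

lemma bl_r2 (u : ℝ) : bl r2 u = 2 * bl (tri (1 / 2)) u + bl (tri (1 / 2)) (u + 1) +
    bl (tri (1 / 2)) (u - 1) := bl_shift (tri_integrable (by norm_num)) 1 u

lemma bl_r3 (A u : ℝ) : bl (r3 A) u = 2 * bl r2 u + bl r2 (u + A) + bl r2 (u - A) :=
  bl_shift r2_integrable A u

lemma s_lower (u : ℝ) : (1 - Real.cos (Real.pi * u)) / (Real.pi ^ 2 * (1 + u ^ 2)) ≤
    bl (tri (1 / 2)) u := by
  have hpi := Real.pi_pos
  rcases eq_or_ne u 0 with h | h
  · rw [h, bl_tri_zero (by norm_num)]; norm_num
  · rw [bl_tri (by norm_num) h]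
    have e : 2 * Real.pi * (1 / 2) * u = Real.pi * u := by ring
    rw [e]
    have h1 : 0 ≤ 1 - Real.cos (Real.pi * u) := by linarith [Real.cos_le_one (Real.pi * u)]
    apply div_le_div_of_nonneg_left h1 (by positivity)
    nlinarith [sq_nonneg Real.pi, sq_nonneg u]

lemma r2_lower (u : ℝ) : 1 / (1 + u ^ 2) ≤ Real.pi ^ 2 * bl r2 u := by
  have hpi := Real.pi_pos
  rw [bl_r2]
  have a0 := s_lower u
  have n1 := bl_tri_nonneg (κ := 1 / 2) (by norm_num) (u + 1)
  have n2 := bl_tri_nonneg (κ := 1 / 2) (by norm_num) (u - 1)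
  have c1 : 0 ≤ 1 - Real.cos (Real.pi * u) := by linarith [Real.cos_le_one (Real.pi * u)]
  have c2 : 0 ≤ 1 + Real.cos (Real.pi * u) := by linarith [Real.neg_one_le_cos (Real.pi * u)]
  have key : (1 + Real.cos (Real.pi * u)) / (Real.pi ^ 2 * (2 * (1 + u ^ 2))) ≤
      bl (tri (1 / 2)) (u + 1) + bl (tri (1 / 2)) (u - 1) := by
    rcases le_total 0 u with hu | hu
    · have h := s_lower (u - 1)
      have e : Real.cos (Real.pi * (u - 1)) = -Real.cos (Real.pi * u) := by
        rw [mul_sub, mul_one, Real.cos_sub_pi]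
      rw [e, sub_neg_eq_add] at h
      have h2 : (1 + Real.cos (Real.pi * u)) / (Real.pi ^ 2 * (2 * (1 + u ^ 2))) ≤
          (1 + Real.cos (Real.pi * u)) / (Real.pi ^ 2 * (1 + (u - 1) ^ 2)) := by
        apply div_le_div_of_nonneg_left c2 (by positivity)
        apply mul_le_mul_of_nonneg_left _ (by positivity)
        nlinarith
      linarith
    · have h := s_lower (u + 1)
      have e : Real.cos (Real.pi * (u + 1)) = -Real.cos (Real.pi * u) := by
        rw [mul_add, mul_one, Real.cos_add_pi]
      rw [e, sub_neg_eq_add] at h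
      have h2 : (1 + Real.cos (Real.pi * u)) / (Real.pi ^ 2 * (2 * (1 + u ^ 2))) ≤
          (1 + Real.cos (Real.pi * u)) / (Real.pi ^ 2 * (1 + (u + 1) ^ 2)) := by
        apply div_le_div_of_nonneg_left c2 (by positivity)
        apply mul_le_mul_of_nonneg_left _ (by positivity)
        nlinarith
      linarith
  have h3 : 1 / (1 + u ^ 2) ≤ Real.pi ^ 2 * (2 * ((1 - Real.cos (Real.pi * u)) /
      (Real.pi ^ 2 * (1 + u ^ 2))) + (1 + Real.cos (Real.pi * u)) / (Real.pi ^ 2 * (2 * (1 + u ^ 2)))) := by
    have e : Real.pi ^ 2 * (2 * ((1 - Real.cos (Real.pi * u)) /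
      (Real.pi ^ 2 * (1 + u ^ 2))) + (1 + Real.cos (Real.pi * u)) / (Real.pi ^ 2 * (2 * (1 + u ^ 2)))) =
      (2 * (1 - Real.cos (Real.pi * u)) + (1 + Real.cos (Real.pi * u)) / 2) / (1 + u ^ 2) := by
      field_simp
    rw [e]
    apply div_le_div_of_nonneg_right _ (by positivity)
    nlinarith
  refine h3.trans ?_
  apply mul_le_mul_of_nonneg_left _ (by positivity)
  linarith

end U398.NV
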