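import Pool.Agent.U398.NV.Tri
import Pool.Agent.U398.NV.Smo

set_option autoImplicit false

/-! # The mean of the conjectured pair correlation value -/

namespace U398.NV

open MeasureTheory Filter Topology Set

noncomputable section

/-- the value in Montgomery's conjecture -/
def VV (a : ℝ) : ℝ := ∫ u in (0 : ℝ)..a, (1 - (Real.sin (Real.pi * u) / (Real.pi * u)) ^ 2)

/-- the square of the cardinal sine -/
def q (u : ℝ) : ℝ := bl (tri 1) u

lemma q_cont : Continuous q := bl_tri_cont one_pos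

lemma q_nonneg (u : ℝ) : 0 ≤ q u := bl_tri_nonneg one_pos u

lemma q_le (u : ℝ) : q u ≤ 1 := bl_tri_le one_pos u

lemma q_even (u : ℝ) : q (-u) = q u := bl_tri_even u

lemma q_eq {u : ℝ} (hu : u ≠ 0) : q u = (1 - Real.cos (2 * Real.pi * u)) / (2 * Real.pi ^ 2 * u ^ 2) := by
  unfold q
  rw [bl_tri one_pos hu]
  ring_nf

lemma q_eq2 {u : ℝ} (hu : u ≠ 0) : q u = (Real.sin (Real.pi * u) / (Real.pi * u)) ^ 2 := by
  have hpi := Real.pi_pos
  rw [q_eq hu]
  have h1 : Real.cos (2 * Real.pi * u) = 1 - 2 * Real.sin (Real.pi * u) ^ 2 := by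
    have : 2 * Real.pi * u = 2 * (Real.pi * u) := by ring
    rw [this, Real.cos_two_mul]
    have := Real.sin_sq_add_cos_sq (Real.pi * u)
    linarith
  rw [h1]
  field_simp
  ring

lemma VV_eq {a : ℝ} (ha : 0 ≤ a) : VV a = a - ∫ u in (0 : ℝ)..a, q u := by
  have e1 : VV a = ∫ u in (0 : ℝ)..a, (1 - q u) := by
    unfold VV
    refine intervalIntegral.integral_congr_ae ?_
    refine Eventually.of_forall fun u hu => ?_
    rw [Set.uIoc_of_le ha] at hu
    rw [q_eq2 hu.1.ne']
  rw [e1, intervalIntegral.integral_sub intervalIntegrable_const (q_cont.intervalIntegrable _ _)]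
  simp

lemma q_decay (u : ℝ) : q u * u ^ 2 ≤ 1 := by
  have := bl_tri_decay one_pos u
  rw [div_one] at this
  exact this

lemma q_integrable : Integrable q := by
  refine (integrable_inv_one_add_sq.const_mul 2).mono' q_cont.aestronglyMeasurable
    (Filter.Eventually.of_forall fun x => ?_)
  have h1 := q_decay x
  have h2 := q_le x
  rw [Real.norm_eq_abs, abs_of_nonneg (q_nonneg x), ← div_eq_mul_inv, le_div_iff₀ (by positivity)]
  linarith

/-- double integral -/
lemma q_dbl {A : ℝ} : ∫ a in (0 : ℝ)..A, ∫ u in (0 : ℝ)..a, q u =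
    A * (∫ u in (0 : ℝ)..A, q u) - ∫ u in (0 : ℝ)..A, u * q u := by
  have hd1 : ∀ x : ℝ, HasDerivAt (fun a => ∫ u in (0 : ℝ)..a, q u) (q x) x := fun x =>
    intervalIntegral.integral_hasDerivAt_right (q_cont.intervalIntegrable _ _)
      (q_cont.stronglyMeasurableAtFilter _ _) q_cont.continuousAt
  have hc2 : Continuous fun u : ℝ => u * q u := continuous_id.mul q_cont
  have hd2 : ∀ x : ℝ, HasDerivAt (fun a => ∫ u in (0 : ℝ)..a, u * q u) (x * q x) x := fun x =>
    intervalIntegral.integral_hasDerivAt_right (hc2.intervalIntegrable _ _)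
      (hc2.stronglyMeasurableAtFilter _ _) hc2.continuousAt
  have hd : ∀ x ∈ Set.uIcc (0 : ℝ) A, HasDerivAt (fun a => a * (∫ u in (0 : ℝ)..a, q u) -
      ∫ u in (0 : ℝ)..a, u * q u) (∫ u in (0 : ℝ)..x, q u) x := by
    intro x _
    have h := ((hasDerivAt_id x).mul (hd1 x)).sub (hd2 x)
    refine h.congr_deriv ?_
    simp
  have hcont : Continuous fun a => ∫ u in (0 : ℝ)..a, q u :=
    continuous_iff_continuousAt.2 fun x => (hd1 x).continuousAt
  rw [intervalIntegral.integral_eq_sub_of_hasDerivAt hd (hcont.intervalIntegrable _ _)]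
  simp

lemma uq_bound {A : ℝ} (hA : 1 ≤ A) :
    |(∫ u in (0 : ℝ)..A, u * q u) - Real.log A / (2 * Real.pi ^ 2)| ≤ 2 := by
  have hpi := Real.pi_pos
  have hpi3 := Real.pi_gt_three
  have hc2 : Continuous fun u : ℝ => u * q u := continuous_id.mul q_cont
  have e1 : ∫ u in (0 : ℝ)..A, u * q u = (∫ u in (0 : ℝ)..1, u * q u) + ∫ u in (1 : ℝ)..A, u * q u :=
    (intervalIntegral.integral_add_adjacent_intervals (hc2.intervalIntegrable _ _)
      (hc2.intervalIntegrable _ _)).symm
  have p1 : |∫ u in (0 : ℝ)..1, u * q u| ≤ 1 := by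
    have h1 : ∀ u ∈ Set.uIoc (0 : ℝ) 1, ‖u * q u‖ ≤ 1 := by
      intro u hu
      rw [Set.uIoc_of_le (by norm_num)] at hu
      rw [Real.norm_eq_abs, abs_mul, abs_of_pos hu.1, abs_of_nonneg (q_nonneg u)]
      exact mul_le_one₀ hu.2 (q_nonneg u) (q_le u)
    have h2 := intervalIntegral.norm_integral_le_of_norm_le_const h1
    simpa using h2
  set c : ℝ := 2 * Real.pi with hc
  have hc0 : 0 < c := by rw [hc]; positivity
  have hx : ∀ x ∈ Set.uIcc (1 : ℝ) A, 0 < x := by
    intro x hx
    rw [Set.uIcc_of_le hA] at hx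
    linarith [hx.1]
  have e2 : ∫ u in (1 : ℝ)..A, u * q u = ∫ u in (1 : ℝ)..A, (1 / (2 * Real.pi ^ 2)) * (u⁻¹ - Real.cos (c * u) / u) := by
    refine intervalIntegral.integral_congr fun u hu => ?_
    have hu0 := hx u hu
    rw [q_eq hu0.ne', ← hc]
    field_simp
  have hco1 : ContinuousOn (fun u : ℝ => u⁻¹) (Set.uIcc 1 A) := by
    apply continuousOn_inv₀.mono
    intro x h
    exact (hx x h).ne'
  have hco2 : ContinuousOn (fun u : ℝ => Real.cos (c * u) / u) (Set.uIcc 1 A) := by
    simp only [div_eq_mul_inv]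
    exact (by fun_prop : Continuous fun u : ℝ => Real.cos (c * u)).continuousOn.mul hco1
  have hco3 : ContinuousOn (fun u : ℝ => Real.sin (c * u) / (c * u ^ 2)) (Set.uIcc 1 A) := by
    apply ContinuousOn.div (by fun_prop) (by fun_prop)
    intro x h
    have := hx x h
    positivity
  have hco4 : ContinuousOn (fun u : ℝ => 1 / (c * u ^ 2)) (Set.uIcc 1 A) := by
    apply ContinuousOn.div (by fun_prop) (by fun_prop)
    intro x h
    have := hx x h
    positivity
  have e3 : ∫ u in (1 : ℝ)..A, (u⁻¹ - Real.cos (c * u) / u) =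
      (∫ u in (1 : ℝ)..A, u⁻¹) - ∫ u in (1 : ℝ)..A, Real.cos (c * u) / u :=
    intervalIntegral.integral_sub hco1.intervalIntegrable hco2.intervalIntegrable
  have e4 : ∫ u in (1 : ℝ)..A, u⁻¹ = Real.log A := by
    rw [integral_inv_of_pos one_pos (by linarith)]
    simp
  have e5 : ∫ u in (1 : ℝ)..A, (Real.cos (c * u) / u - Real.sin (c * u) / (c * u ^ 2)) =
      Real.sin (c * A) / (c * A) - Real.sin (c * 1) / (c * 1) := by
    have hd : ∀ x ∈ Set.uIcc 1 A, HasDerivAt (fun u : ℝ => Real.sin (c * u) / (c * u))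
        (Real.cos (c * x) / x - Real.sin (c * x) / (c * x ^ 2)) x := by
      intro x h
      have hx0 := hx x h
      have h3 : HasDerivAt (fun β : ℝ => c * β) c x := by
        simpa using (hasDerivAt_id x).const_mul c
      have h4 := h3.sin.div h3 (by positivity)
      refine h4.congr_deriv ?_
      field_simp
    rw [intervalIntegral.integral_eq_sub_of_hasDerivAt hd
      (hco2.sub hco3).intervalIntegrable]
  rw [intervalIntegral.integral_sub hco2.intervalIntegrable hco3.intervalIntegrable] at e5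
  have hc3 : 6 ≤ c := by rw [hc]; linarith
  have b1 : |Real.sin (c * A) / (c * A)| ≤ 1 := by
    rw [abs_div, abs_of_pos (by positivity : 0 < c * A), div_le_one (by positivity)]
    have : |Real.sin (c * A)| ≤ 1 := Real.abs_sin_le_one _
    nlinarith
  have b2 : |Real.sin (c * 1) / (c * 1)| ≤ 1 := by
    rw [abs_div, abs_of_pos (by positivity : 0 < c * 1), div_le_one (by positivity)]
    have : |Real.sin (c * 1)| ≤ 1 := Real.abs_sin_le_one _
    nlinarith
  have b3 : |∫ u in (1 : ℝ)..A, Real.sin (c * u) / (c * u ^ 2)| ≤ 1 := by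
    have h1 : |∫ u in (1 : ℝ)..A, Real.sin (c * u) / (c * u ^ 2)| ≤ ∫ u in (1 : ℝ)..A, 1 / (c * u ^ 2) := by
      refine (intervalIntegral.abs_integral_le_integral_abs hA).trans ?_
      refine intervalIntegral.integral_mono_on hA hco3.abs.intervalIntegrable hco4.intervalIntegrable
        fun u hu => ?_
      have hu0 : 0 < u := lt_of_lt_of_le one_pos hu.1
      rw [abs_div, abs_of_pos (by positivity : 0 < c * u ^ 2)]
      exact div_le_div_of_nonneg_right (Real.abs_sin_le_one _) (by positivity)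
    refine h1.trans ?_
    have hd : ∀ x ∈ Set.uIcc 1 A, HasDerivAt (fun u : ℝ => -(1 / (c * u)))
        (1 / (c * x ^ 2)) x := by
      intro x h
      have hx0 := hx x h
      have h3 : HasDerivAt (fun β : ℝ => c * β) c x := by
        simpa using (hasDerivAt_id x).const_mul c
      have h4 := (h3.inv (by positivity)).neg
      have h5 : (fun u : ℝ => -(1 / (c * u))) = -(fun β : ℝ => c * β)⁻¹ := by
        funext u; simp
      rw [h5]
      refine h4.congr_deriv ?_
      field_simp
    rw [intervalIntegral.integral_eq_sub_of_hasDerivAt hd hco4.intervalIntegrable]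
    have h2 : 1 / (c * 1) ≤ 1 := by rw [div_le_one (by positivity)]; linarith
    have h3 : 0 ≤ 1 / (c * A) := by positivity
    linarith
  have b4 : |(∫ u in (1 : ℝ)..A, (u⁻¹ - Real.cos (c * u) / u)) - Real.log A| ≤ 3 := by
    rw [e3, e4]
    have e6 : ∫ u in (1 : ℝ)..A, Real.cos (c * u) / u = Real.sin (c * A) / (c * A) -
        Real.sin (c * 1) / (c * 1) + ∫ u in (1 : ℝ)..A, Real.sin (c * u) / (c * u ^ 2) := by linarith
    rw [e6]
    rw [abs_le] at b1 b2 b3 ⊢
    constructor <;> linarith [b1.1, b1.2, b2.1, b2.2, b3.1, b3.2]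
  rw [e1, e2, intervalIntegral.integral_const_mul]
  have e7 : (∫ u in (0 : ℝ)..1, u * q u) + 1 / (2 * Real.pi ^ 2) *
      (∫ u in (1 : ℝ)..A, (u⁻¹ - Real.cos (c * u) / u)) - Real.log A / (2 * Real.pi ^ 2) =
      (∫ u in (0 : ℝ)..1, u * q u) + 1 / (2 * Real.pi ^ 2) *
      ((∫ u in (1 : ℝ)..A, (u⁻¹ - Real.cos (c * u) / u)) - Real.log A) := by ring
  rw [e7]
  refine (abs_add_le _ _).trans ?_
  rw [abs_mul, abs_of_pos (by positivity : 0 < 1 / (2 * Real.pi ^ 2))]
  have h8 : 1 / (2 * Real.pi ^ 2) * |(∫ u in (1 : ℝ)..A, (u⁻¹ - Real.cos (c * u) / u)) - Real.log A| ≤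
      1 / (2 * Real.pi ^ 2) * 3 := mul_le_mul_of_nonneg_left b4 (by positivity)
  have h9 : 1 / (2 * Real.pi ^ 2) * 3 ≤ 1 := by
    rw [div_mul_eq_mul_div, one_mul, div_le_one (by positivity)]
    nlinarith
  linarith

/-- the mean of the conjectured value, given the total mass of the squared cardinal sine -/
lemma VV_mean (hmass : ∫ u, q u = 1) {A : ℝ} (hA : 1 ≤ A) :
    |(∫ a in (0 : ℝ)..A, (a - VV a)) - (A / 2 - Real.log A / (2 * Real.pi ^ 2))| ≤ 3 := by
  have hA0 : 0 < A := by linarith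
  have e1 : ∫ a in (0 : ℝ)..A, (a - VV a) = ∫ a in (0 : ℝ)..A, ∫ u in (0 : ℝ)..a, q u := by
    refine intervalIntegral.integral_congr fun a ha => ?_
    rw [Set.uIcc_of_le hA0.le] at ha
    rw [VV_eq ha.1]; ring
  rw [e1, q_dbl]
  have h1 := uq_bound hA
  have h2 : |A * (∫ u in (0 : ℝ)..A, q u) - A / 2| ≤ 1 := by
    have e2 : ∫ u in (-A)..A, q u = 2 * ∫ u in (0 : ℝ)..A, q u := int_even q_cont q_even A
    have e3 : ∫ u, q u = (∫ u in Set.Iic (-A), q u) + (∫ u in (-A)..A, q u) + ∫ u in Set.Ioi A, q u := by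
      have h3 := intervalIntegral.integral_Iic_add_Ioi (b := A) (μ := volume) (f := q)
        q_integrable.integrableOn q_integrable.integrableOn
      have h4 := intervalIntegral.integral_Iic_sub_Iic (a := -A) (b := A) (μ := volume) (f := q)
        q_integrable.integrableOn q_integrable.integrableOn
      linarith
    have e4 : ∫ u in Set.Iic (-A), q u = ∫ u in Set.Ioi A, q u := by
      have := integral_comp_neg_Ioi A q
      rw [← this]
      refine setIntegral_congr_fun measurableSet_Ioi fun u _ => ?_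
      exact q_even u
    have e5 : 0 ≤ ∫ u in Set.Ioi A, q u := setIntegral_nonneg measurableSet_Ioi fun u _ => q_nonneg u
    have e6 : ∫ u in Set.Ioi A, q u ≤ 1 / A := by
      have h3 : ∫ u in Set.Ioi A, u ^ (-2 : ℝ) = 1 / A := by
        rw [integral_Ioi_rpow_of_lt (by norm_num) hA0]
        norm_num
        rw [Real.rpow_neg_one]
      rw [← h3]
      refine setIntegral_mono_on q_integrable.integrableOn
        (integrableOn_Ioi_rpow_of_lt (by norm_num) hA0) measurableSet_Ioi fun u hu => ?_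
      have hu0 : 0 < u := lt_trans hA0 hu
      rw [Real.rpow_neg hu0.le, ← one_div, le_div_iff₀ (by positivity)]
      have := q_decay u
      rwa [show u ^ (2 : ℝ) = u ^ 2 by norm_cast]
    have e7 : (∫ u in (0 : ℝ)..A, q u) = 1 / 2 - ∫ u in Set.Ioi A, q u := by
      rw [hmass, e4, e2] at e3; linarith
    rw [e7]
    have e8 : A * (1 / 2 - ∫ u in Set.Ioi A, q u) - A / 2 = -(A * ∫ u in Set.Ioi A, q u) := by ring
    rw [e8, abs_neg, abs_of_nonneg (by positivity)]
    calc A * ∫ u in Set.Ioi A, q u ≤ A * (1 / A) := by gcongr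
      _ = 1 := by field_simp
  have e9 : A * (∫ u in (0 : ℝ)..A, q u) - (∫ u in (0 : ℝ)..A, u * q u) -
      (A / 2 - Real.log A / (2 * Real.pi ^ 2)) = (A * (∫ u in (0 : ℝ)..A, q u) - A / 2) -
      ((∫ u in (0 : ℝ)..A, u * q u) - Real.log A / (2 * Real.pi ^ 2)) := by ring
  rw [e9]
  refine (abs_sub _ _).trans ?_
  linarith

end

end U398.NV
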