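import Pool.Agent.U398.NV.Maj

set_option autoImplicit false

/-! # Dyadic majorant of the transform, value of the main term -/

namespace U398.NV

open MeasureTheory Filter Topology Set

/-- heights of the steps -/
noncomputable def Rj (A c : ℝ) (J j : ℕ) : ℝ :=
  if j < J then 4 ^ (j + 2) / A else if j = J then A else 16 * |c|

/-- widths of the steps -/
noncomputable def dj (J j : ℕ) : ℝ := if j < J + 1 then (1 / 2) ^ (j + 1) else 1 / 2

lemma Rj_nonneg {A : ℝ} (hA : 0 < A) (c : ℝ) (J j : ℕ) : 0 ≤ Rj A c J j := by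
  unfold Rj
  split_ifs <;> positivity

lemma dj_pos (J j : ℕ) : 0 < dj J j := by
  unfold dj
  split_ifs <;> positivity

lemma dj_le (J j : ℕ) : dj J j ≤ 1 / 2 := by
  unfold dj
  split_ifs
  · rw [pow_succ]
    have : ((1 : ℝ) / 2) ^ j ≤ 1 := pow_le_one₀ (by norm_num) (by norm_num)
    linarith
  · exact le_rfl

/-- the step function -/
noncomputable def stp (A c : ℝ) (J : ℕ) (α : ℝ) : ℝ :=
  ∑ j ∈ Finset.range (J + 2), Rj A c J j * (if |α| ≤ dj J j then 1 else 0)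

lemma term_nonneg {A : ℝ} (hA : 0 < A) (c : ℝ) (J j : ℕ) (α : ℝ) :
    0 ≤ Rj A c J j * (if |α| ≤ dj J j then (1 : ℝ) else 0) := by
  have := Rj_nonneg hA c J j
  split_ifs <;> simp [this]

lemma r1_maj {A : ℝ} (hA : 0 < A) (c : ℝ) {J : ℕ} (α : ℝ) (hα : |α| ≤ 1 / 2) :
    r1 A α ≤ ∑ j ∈ Finset.range (J + 1), Rj A c J j * (if |α| ≤ dj J j then 1 else 0) := by
  by_cases h : |α| ≤ (1 / 2) ^ (J + 1)
  · have h1 : Rj A c J J * (if |α| ≤ dj J J then (1 : ℝ) else 0) = A := by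
      have e : dj J J = (1 / 2) ^ (J + 1) := by unfold dj; rw [if_pos (by omega)]
      rw [e, if_pos h]
      unfold Rj
      rw [if_neg (by omega), if_pos rfl, mul_one]
    have h2 := Finset.single_le_sum (f := fun j => Rj A c J j * (if |α| ≤ dj J j then (1 : ℝ) else 0))
      (s := Finset.range (J + 1)) (fun j _ => term_nonneg hA c J j α)
      (Finset.mem_range.2 (Nat.lt_succ_self J))
    simp only [h1] at h2
    exact (r1_le hA α).trans h2
  · push Not at h
    have hα0 : 0 < |α| := lt_trans (by positivity) h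
    -- the largest j with |α| ≤ 2^-(j+1)
    have hex : ∃ j : ℕ, (1 / 2 : ℝ) ^ (j + 1) < |α| := ⟨J, h⟩
    classical
    set k := Nat.find hex with hk
    have hk1 : (1 / 2 : ℝ) ^ (k + 1) < |α| := Nat.find_spec hex
    have hkJ : k ≤ J := Nat.find_min' hex h
    have hk0 : k ≠ 0 := by
      intro h0
      rw [h0] at hk1
      norm_num at hk1 hα
      linarith
    obtain ⟨j, hj⟩ := Nat.exists_eq_succ_of_ne_zero hk0
    have hj1 : ¬ (1 / 2 : ℝ) ^ (j + 1) < |α| := by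
      have := Nat.find_min hex (m := j) (by rw [← hk]; omega)
      exact this
    push Not at hj1
    have hjJ : j < J := by omega
    have h1 : Rj A c J j * (if |α| ≤ dj J j then (1 : ℝ) else 0) = 4 ^ (j + 2) / A := by
      have e : dj J j = (1 / 2) ^ (j + 1) := by unfold dj; rw [if_pos (by omega)]
      rw [e, if_pos hj1]
      unfold Rj
      rw [if_pos hjJ, mul_one]
    have h2 := Finset.single_le_sum (f := fun j => Rj A c J j * (if |α| ≤ dj J j then (1 : ℝ) else 0))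
      (s := Finset.range (J + 1)) (fun j _ => term_nonneg hA c J j α)
      (Finset.mem_range.2 (show j < J + 1 by omega))
    simp only [h1] at h2
    refine le_trans ?_ h2
    have h3 := r1_le2 hA α
    have h4 : (1 / 4 : ℝ) ^ (j + 2) ≤ α ^ 2 := by
      rw [hj] at hk1
      have h5 : ((1 / 2 : ℝ) ^ (j + 2)) ^ 2 ≤ |α| ^ 2 := pow_le_pow_left₀ (by positivity) hk1.le 2
      rw [sq_abs] at h5
      have e : ((1 / 2 : ℝ) ^ (j + 2)) ^ 2 = (1 / 4) ^ (j + 2) := by
        rw [← pow_mul, mul_comm, pow_mul]; norm_num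
      rwa [e] at h5
    have h6 : r1 A α * (1 / 4 : ℝ) ^ (j + 2) ≤ 1 / A :=
      (mul_le_mul_of_nonneg_left h4 (r1_nonneg hA α)).trans h3
    have h7 : (1 / 4 : ℝ) ^ (j + 2) * 4 ^ (j + 2) = 1 := by
      rw [← mul_pow]; norm_num
    calc r1 A α = r1 A α * (1 / 4 : ℝ) ^ (j + 2) * 4 ^ (j + 2) := by rw [mul_assoc, h7, mul_one]
      _ ≤ 1 / A * 4 ^ (j + 2) := by gcongr
      _ = _ := by ring

lemma rp_maj {A : ℝ} (hA : 0 < A) (c : ℝ) (J : ℕ) (α : ℝ) : |rp A c α| ≤ stp A c J α := by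
  rcases lt_or_ge (1 / 2) |α| with h | h
  · rw [rp_supp A c h.le, abs_zero]
    exact Finset.sum_nonneg fun j _ => term_nonneg hA c J j α
  · unfold stp rp
    rw [Finset.sum_range_succ]
    have h1 := r1_maj hA c (J := J) α h
    have e : dj J (J + 1) = 1 / 2 := by unfold dj; rw [if_neg (by omega)]
    have e2 : Rj A c J (J + 1) = 16 * |c| := by
      unfold Rj; rw [if_neg (by omega), if_neg (by omega)]
    rw [e, if_pos h, e2, mul_one]
    refine (abs_add_le _ _).trans ?_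
    rw [abs_of_nonneg (r1_nonneg hA α), abs_mul, abs_of_nonneg (r3_nonneg A α)]
    have h2 := r3_le A α
    have h3 : |c| * r3 A α ≤ 16 * |c| := by
      have := abs_nonneg c
      nlinarith
    linarith

lemma sum_Rd {A : ℝ} (hA : 0 < A) (c : ℝ) {J : ℕ} (hJ : A ≤ 2 ^ J) :
    ∑ j ∈ Finset.range (J + 2), Rj A c J j * dj J j ^ 3 ≤ 5 / A + 2 * |c| := by
  rw [Finset.sum_range_succ, Finset.sum_range_succ]
  have e1 : Rj A c J (J + 1) * dj J (J + 1) ^ 3 = 2 * |c| := by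
    unfold Rj dj
    rw [if_neg (by omega), if_neg (by omega), if_neg (by omega)]
    norm_num
    ring
  have e2 : Rj A c J J * dj J J ^ 3 ≤ 1 / A := by
    unfold Rj dj
    rw [if_neg (by omega), if_pos rfl, if_pos (by omega)]
    rw [le_div_iff₀ hA]
    have h1 : A * (1 / 2) ^ J ≤ 1 := by
      rw [div_pow, one_pow, mul_one_div, div_le_one (by positivity)]
      exact hJ
    have h2 : 0 ≤ A * (1 / 2) ^ J := by positivity
    have e : A * ((1 / 2) ^ (J + 1)) ^ 3 * A = (A * (1 / 2) ^ J) ^ 2 * ((1 / 2) ^ J / 8) := by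
      rw [pow_succ]; ring
    rw [e]
    have h3 : ((1 : ℝ) / 2) ^ J ≤ 1 := pow_le_one₀ (by norm_num) (by norm_num)
    have h4 : (A * (1 / 2) ^ J) ^ 2 ≤ 1 := pow_le_one₀ h2 h1
    have h5 : (0 : ℝ) ≤ (1 / 2) ^ J := by positivity
    nlinarith
  have e3 : ∑ j ∈ Finset.range J, Rj A c J j * dj J j ^ 3 = 2 / A * ∑ j ∈ Finset.range J, (1 / 2 : ℝ) ^ j := by
    rw [Finset.mul_sum]
    refine Finset.sum_congr rfl fun j hj => ?_
    rw [Finset.mem_range] at hj
    unfold Rj dj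
    rw [if_pos hj, if_pos (by omega)]
    have e : ((4 : ℝ) ^ (j + 2)) * ((1 / 2) ^ (j + 1)) ^ 3 = 2 * (1 / 2) ^ j := by
      have h1 : ((1 / 2 : ℝ) ^ (j + 1)) ^ 3 = (1 / 8) ^ (j + 1) := by
        rw [← pow_mul, mul_comm, pow_mul]; norm_num
      rw [h1, pow_succ, pow_succ, pow_succ]
      have h2 : (4 : ℝ) ^ j * (1 / 8) ^ j = (1 / 2) ^ j := by
        rw [← mul_pow]; norm_num
      calc (4 : ℝ) ^ j * 4 * 4 * ((1 / 8) ^ j * (1 / 8)) = 2 * ((4 : ℝ) ^ j * (1 / 8) ^ j) := by ring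
        _ = _ := by rw [h2]
    calc (4 : ℝ) ^ (j + 2) / A * ((1 / 2) ^ (j + 1)) ^ 3 = (4 : ℝ) ^ (j + 2) * ((1 / 2) ^ (j + 1)) ^ 3 / A := by ring
      _ = _ := by rw [e]; ring
  have e4 : ∑ j ∈ Finset.range J, (1 / 2 : ℝ) ^ j ≤ 2 := by
    have h := geom_sum_eq (x := (1 / 2 : ℝ)) (by norm_num) J
    rw [h]
    have : (0 : ℝ) ≤ (1 / 2) ^ J := by positivity
    rw [div_le_iff_of_neg (by norm_num)]
    linarith
  have e5 : 2 / A * ∑ j ∈ Finset.range J, (1 / 2 : ℝ) ^ j ≤ 4 / A := by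
    calc 2 / A * ∑ j ∈ Finset.range J, (1 / 2 : ℝ) ^ j ≤ 2 / A * 2 := by gcongr
      _ = _ := by ring
  rw [e1, e3]
  have e6 : 5 / A = 4 / A + 1 / A := by ring
  linarith

lemma rp_zero {A : ℝ} (hA : 0 < A) (c : ℝ) : rp A c 0 = A + 16 * c := by
  unfold rp
  rw [r1_zero hA, r3_zero]; ring

lemma r3_mom (A : ℝ) : |∫ α : ℝ, |α| * r3 A α| ≤ 8 := by
  rw [whole_int (δ := 1 / 2) (by norm_num) (fun α hα => by rw [r3_supp A hα, mul_zero])]
  have h1 : ∀ α ∈ Set.uIoc (-(1 / 2 : ℝ)) (1 / 2), ‖|α| * r3 A α‖ ≤ 8 := by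
    intro α hα
    rw [Set.uIoc_of_le (by norm_num)] at hα
    have h2 : |α| ≤ 1 / 2 := abs_le.2 ⟨hα.1.le, hα.2⟩
    rw [Real.norm_eq_abs, abs_mul, abs_abs, abs_of_nonneg (r3_nonneg A α)]
    calc |α| * r3 A α ≤ 1 / 2 * 16 := by
          have := r3_le A α
          have := r3_nonneg A α
          gcongr
      _ = 8 := by norm_num
  have h2 := intervalIntegral.norm_integral_le_of_norm_le_const h1
  rw [Real.norm_eq_abs] at h2
  refine h2.trans ?_
  norm_num

lemma main_rp {A : ℝ} (hA : 1 ≤ A) (c : ℝ) :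
    |(rp A c 0 + ∫ α : ℝ, |α| * rp A c α) - (A + Real.log A / (Real.pi ^ 2 * A))| ≤
      1 / A + 24 * |c| := by
  have hA0 : 0 < A := by linarith
  have hpi := Real.pi_gt_three
  have i1 : Integrable fun α : ℝ => |α| * r1 A α :=
    (continuous_abs.mul (r1_cont hA0)).integrable_of_hasCompactSupport
      (((kh_supp.mul_left : HasCompactSupport (r1 A))).mul_left)
  have i3 : Integrable fun α : ℝ => |α| * r3 A α :=
    (continuous_abs.mul (r3_cont A)).integrable_of_hasCompactSupport ((r3_compact A).mul_left)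
  have e : ∫ α : ℝ, |α| * rp A c α = (∫ α : ℝ, |α| * r1 A α) + c * ∫ α : ℝ, |α| * r3 A α := by
    unfold rp
    rw [← integral_const_mul, ← integral_add i1 (i3.const_mul c)]
    congr 1
    funext α
    ring
  rw [e, rp_zero hA0]
  have h1 := main_r1 hA
  have h2 := r3_mom A
  have e2 : A + 16 * c + ((∫ α : ℝ, |α| * r1 A α) + c * ∫ α : ℝ, |α| * r3 A α) -
      (A + Real.log A / (Real.pi ^ 2 * A)) =
      ((∫ α : ℝ, |α| * r1 A α) - Real.log A / (Real.pi ^ 2 * A)) +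
        (16 * c + c * ∫ α : ℝ, |α| * r3 A α) := by ring
  rw [e2]
  refine (abs_add_le _ _).trans ?_
  have h3 : |16 * c + c * ∫ α : ℝ, |α| * r3 A α| ≤ 24 * |c| := by
    refine (abs_add_le _ _).trans ?_
    rw [abs_mul, abs_mul, abs_of_pos (by norm_num : (0 : ℝ) < 16)]
    have := mul_le_mul_of_nonneg_left h2 (abs_nonneg c)
    linarith
  have h4 : 6 / (Real.pi ^ 2 * A) ≤ 1 / A := by
    rw [div_le_div_iff₀ (by positivity) hA0]
    have h5 : 6 ≤ Real.pi ^ 2 := by nlinarith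
    nlinarith
  linarith

end U398.NV
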