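import Pool.Agent.U398.NV.Zet
import Pool.Agent.U398.NV.Avg
import Pool.Agent.H345R2.A2.Four

set_option autoImplicit false

/-! # The pair counts of the ordinates: final statements -/

namespace U398.NV

open MeasureTheory Filter Topology Set
open H370 (mult zset zeta_zeros_finite)

noncomputable section

/-- the squared cardinal sine has mass one -/
lemma q_mass : ∫ u, q u = 1 := by
  have hz : ∀ x, 1 ≤ |x| → tri 1 x = 0 := fun x hx => tri_supp one_pos hx
  have e1 : ∀ u, H370.A2.RR (tri 1) 1 u = q u := by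
    intro u
    unfold H370.A2.RR q bl
    exact (whole_int (δ := 1) (by norm_num) (fun α hα => by rw [hz α hα, zero_mul])).symm
  have hC : ∀ x, |H370.A2.RR (tri 1) 1 x| * x ^ 2 ≤ 1 := by
    intro x
    rw [e1, abs_of_nonneg (q_nonneg x)]
    exact q_decay x
  have h := H370.A2.RR_inv (tri_cont 1) hz hC 0
  simp only [mul_zero, Real.cos_zero, mul_one] at h
  simp_rw [e1] at h
  rw [h]
  unfold H370.A2.evp
  rw [neg_zero, tri_zero]
  norm_num

/-- no zeros with small positive ordinate -/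
lemma no_small : ∃ δ : ℝ, 0 < δ ∧ ∀ s ∈ Zz, 0 < s.im → δ < s.im := by
  classical
  have hfin : (Fz 1).Nonempty ∨ Fz 1 = ∅ := by
    rcases (Fz 1).eq_empty_or_nonempty with h | h
    · exact Or.inr h
    · exact Or.inl h
  rcases hfin with hne | hemp
  · obtain ⟨s0, hs0, hmin⟩ := Finset.exists_min_image (Fz 1) (fun s => s.im) hne
    rw [mem_Fz] at hs0
    refine ⟨s0.im / 2, by linarith [hs0.2.1], fun s hs him => ?_⟩
    by_cases h1 : s.im ≤ 1
    · have := hmin s ((mem_Fz s 1).2 ⟨hs, him, h1⟩)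
      linarith [hs0.2.1]
    · linarith [hs0.2.2, hs0.2.1]
  · refine ⟨1, one_pos, fun s hs him => ?_⟩
    by_contra hcon
    push Not at hcon
    have := (mem_Fz s 1).2 ⟨hs, him, hcon⟩
    rw [hemp] at this
    simp at this

/-- the pairs of the problem -/
def PSet (T a : ℝ) : Set (ℂ × ℂ) := {p : ℂ × ℂ | p.1 ∈ Zz ∧ p.2 ∈ Zz ∧ 0 < p.1.im ∧ p.1.im ≤ T ∧
  0 < p.1.im - p.2.im ∧ p.1.im - p.2.im ≤ 2 * Real.pi * a / Real.log T}

/-- the coincidences -/
def CSet (T : ℝ) : Set (ℂ × ℂ) := {p : ℂ × ℂ | p.1 ∈ Zz ∧ p.2 ∈ Zz ∧ 0 < p.1.im ∧ p.1.im ≤ T ∧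
  p.2.im = p.1.im}

lemma NP_finsum {T a δ : ℝ} (hT : 1 < T) (hδ : ∀ s ∈ Zz, 0 < s.im → δ < s.im)
    (ha : 2 * Real.pi * a / Real.log T ≤ δ) :
    ((∑ᶠ p ∈ PSet T a, analyticOrderNatAt riemannZeta p.1 * analyticOrderNatAt riemannZeta p.2 : ℕ) : ℝ) =
      NP mz (Fz T) (Real.log T) a := by
  classical
  have hpi := Real.pi_pos
  have hL : 0 < Real.log T := Real.log_pos hT
  have e : PSet T a = ↑((Fz T ×ˢ Fz T).filter (fun p => 0 < p.1.im - p.2.im ∧
      p.1.im - p.2.im ≤ 2 * Real.pi * a / Real.log T)) := by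
    ext p
    rw [Finset.mem_coe, Finset.mem_filter, Finset.mem_product, mem_Fz, mem_Fz]
    unfold PSet
    simp only [Set.mem_ofPred_eq]
    constructor
    · rintro ⟨h1, h2, h3, h4, h5, h6⟩
      have h7 := hδ p.1 h1 h3
      exact ⟨⟨⟨h1, h3, h4⟩, ⟨h2, by linarith, by linarith⟩⟩, h5, h6⟩
    · rintro ⟨⟨⟨h1, h3, h4⟩, ⟨h2, _, _⟩⟩, h5, h6⟩
      exact ⟨h1, h2, h3, h4, h5, h6⟩
  rw [e, finsum_mem_coe_finset, Finset.sum_filter]
  unfold NP
  rw [Finset.sum_product]
  push_cast
  refine Finset.sum_congr rfl fun s _ => Finset.sum_congr rfl fun s' _ => ?_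
  unfold ind mz mult
  have h1 : (0 < (s.im - s'.im) * Real.log T / (2 * Real.pi) ∧ (s.im - s'.im) * Real.log T / (2 * Real.pi) ≤ a) ↔
      (0 < s.im - s'.im ∧ s.im - s'.im ≤ 2 * Real.pi * a / Real.log T) := by
    constructor
    · rintro ⟨g1, g2⟩
      rw [div_le_iff₀ (by positivity)] at g2
      refine ⟨?_, ?_⟩
      · by_contra hcon
        push Not at hcon
        have : (s.im - s'.im) * Real.log T / (2 * Real.pi) ≤ 0 := by
          apply div_nonpos_of_nonpos_of_nonneg _ (by positivity)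
          exact mul_nonpos_of_nonpos_of_nonneg hcon hL.le
        linarith
      · rw [le_div_iff₀ hL]; linarith
    · rintro ⟨g1, g2⟩
      rw [le_div_iff₀ hL] at g2
      refine ⟨by positivity, ?_⟩
      rw [div_le_iff₀ (by positivity)]; linarith
  simp only [h1]
  split_ifs with h
  · ring
  · simp

lemma NC_finsum (T : ℝ) :
    ((∑ᶠ p ∈ CSet T, analyticOrderNatAt riemannZeta p.1 * analyticOrderNatAt riemannZeta p.2 : ℕ) : ℝ) =
      NC mz (Fz T) := by
  classical
  have e : CSet T = ↑((Fz T ×ˢ Fz T).filter (fun p => p.1.im = p.2.im)) := by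
    ext p
    rw [Finset.mem_coe, Finset.mem_filter, Finset.mem_product, mem_Fz, mem_Fz]
    unfold CSet
    simp only [Set.mem_ofPred_eq]
    constructor
    · rintro ⟨h1, h2, h3, h4, h5⟩
      exact ⟨⟨⟨h1, h3, h4⟩, ⟨h2, by linarith, by linarith⟩⟩, h5.symm⟩
    · rintro ⟨⟨⟨h1, h3, h4⟩, ⟨h2, _, _⟩⟩, h5⟩
      exact ⟨h1, h2, h3, h4, h5.symm⟩
  rw [e, finsum_mem_coe_finset, Finset.sum_filter]
  unfold NC
  rw [Finset.sum_product]
  push_cast
  refine Finset.sum_congr rfl fun s _ => Finset.sum_congr rfl fun s' _ => ?_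
  unfold mz mult
  split_ifs with h
  · ring
  · simp

lemma VV_near {a : ℝ} (ha : 0 ≤ a) : |a - VV a| ≤ 1 := by
  rw [VV_eq ha]
  have e : a - (a - ∫ u in (0 : ℝ)..a, q u) = ∫ u in (0 : ℝ)..a, q u := by ring
  rw [e]
  have h0 : 0 ≤ ∫ u in (0 : ℝ)..a, q u := intervalIntegral.integral_nonneg ha fun u _ => q_nonneg u
  rw [abs_of_nonneg h0, intervalIntegral.integral_of_le ha]
  have h1 : ∫ u in Set.Ioc 0 a, q u ≤ ∫ u, q u :=
    setIntegral_le_integral q_integrable (Eventually.of_forall fun u => q_nonneg u)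
  rw [q_mass] at h1
  exact h1

lemma VV_cont_on : ∀ A : ℝ, 0 ≤ A → IntervalIntegrable VV volume 0 A := by
  intro A hA
  have hc : Continuous fun a : ℝ => a - ∫ u in (0 : ℝ)..a, q u := by
    have h1 : Continuous fun a => ∫ u in (0 : ℝ)..a, q u :=
      continuous_iff_continuousAt.2 fun x => (intervalIntegral.integral_hasDerivAt_right
        (q_cont.intervalIntegrable _ _) (q_cont.stronglyMeasurableAtFilter _ _)
        q_cont.continuousAt).continuousAt
    exact continuous_id.sub h1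
  refine (hc.intervalIntegrable 0 A).congr ?_
  intro a ha
  rw [Set.uIoc_of_le hA] at ha
  simp only
  rw [VV_eq ha.1.le]

/-- the final theorem -/
theorem final : ∃ C : ℝ, 0 < C ∧
    (∀ a : ℝ, 0 < a → ∃ T0 : ℝ, ∀ T : ℝ, T0 ≤ T →
      |((∑ᶠ p ∈ PSet T a, analyticOrderNatAt riemannZeta p.1 * analyticOrderNatAt riemannZeta p.2 : ℕ) : ℝ) /
        (T * Real.log T / (2 * Real.pi)) - VV a| ≤ C) ∧
    (∀ A : ℝ, 1 ≤ A → ∃ T0 : ℝ, ∀ T : ℝ, T0 ≤ T →
      |1 / A * (∫ a in (0 : ℝ)..A,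
        (((∑ᶠ p ∈ PSet T a, analyticOrderNatAt riemannZeta p.1 * analyticOrderNatAt riemannZeta p.2 : ℕ) : ℝ) /
        (T * Real.log T / (2 * Real.pi)) - VV a)) -
        (1 - ((∑ᶠ p ∈ CSet T, analyticOrderNatAt riemannZeta p.1 * analyticOrderNatAt riemannZeta p.2 : ℕ) : ℝ) /
          (T * Real.log T / (2 * Real.pi))) / 2| ≤ C / A) := by
  obtain ⟨C0, hsys⟩ := z_sys
  obtain ⟨C, hC, h1, h2⟩ := hsys.final
  obtain ⟨δ, hδ, hsm⟩ := no_small
  have hpi := Real.pi_pos
  have hsmall : ∀ a : ℝ, 0 < a → ∃ T1 : ℝ, ∀ T : ℝ, T1 ≤ T → 2 * Real.pi * a / Real.log T ≤ δ := by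
    intro a ha
    obtain ⟨T1, hT1⟩ := eventually_atTop.1
      ((Real.tendsto_log_atTop.eventually_ge_atTop (2 * Real.pi * a / δ)).and
        (Real.tendsto_log_atTop.eventually_ge_atTop 1))
    refine ⟨T1, fun T hT => ?_⟩
    obtain ⟨g1, g2⟩ := hT1 T hT
    rw [div_le_iff₀ (by linarith)]
    rw [div_le_iff₀ hδ] at g1
    linarith
  refine ⟨C + 4, by positivity, fun a ha => ?_, fun A hA => ?_⟩
  · obtain ⟨T0, hT0, h⟩ := h1 a ha
    obtain ⟨T1, hT1⟩ := hsmall a ha
    refine ⟨max T0 T1, fun T hT => ?_⟩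
    have hT3 : 3 ≤ T := hT0.trans ((le_max_left _ _).trans hT)
    have g1 := h T ((le_max_left _ _).trans hT)
    rw [NP_finsum (by linarith) hsm (hT1 T ((le_max_right _ _).trans hT))]
    have hX : 0 < T * Real.log T / (2 * Real.pi) := by
      have := Real.log_pos (by linarith : 1 < T)
      positivity
    set X := T * Real.log T / (2 * Real.pi)
    have e1 : NP mz (Fz T) (Real.log T) a / X - VV a = (NP mz (Fz T) (Real.log T) a - a * X) / X + (a - VV a) := by
      field_simp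
      ring
    rw [e1]
    refine (abs_add_le _ _).trans ?_
    have h3 : |(NP mz (Fz T) (Real.log T) a - a * X) / X| ≤ C := by
      rw [abs_div, abs_of_pos hX, div_le_iff₀ hX]
      exact g1
    have h4 := VV_near ha.le
    linarith
  · have hA0 : 0 < A := by linarith
    obtain ⟨T0, hT0, h⟩ := h2 A hA
    obtain ⟨T1, hT1⟩ := hsmall A hA0
    refine ⟨max T0 T1, fun T hT => ?_⟩
    have hT3 : 3 ≤ T := hT0.trans ((le_max_left _ _).trans hT)
    have hL : 0 < Real.log T := Real.log_pos (by linarith)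
    have g1 := h T ((le_max_left _ _).trans hT)
    have g2 := hT1 T ((le_max_right _ _).trans hT)
    have hX : 0 < T * Real.log T / (2 * Real.pi) := by positivity
    rw [NC_finsum]
    set X := T * Real.log T / (2 * Real.pi) with hXdef
    have e1 : (∫ a in (0 : ℝ)..A,
        (((∑ᶠ p ∈ PSet T a, analyticOrderNatAt riemannZeta p.1 * analyticOrderNatAt riemannZeta p.2 : ℕ) : ℝ) /
        X - VV a)) = ∫ a in (0 : ℝ)..A, ((NP mz (Fz T) (Real.log T) a - a * X) / X + (a - VV a)) := by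
      refine intervalIntegral.integral_congr fun a ha => ?_
      rw [Set.uIcc_of_le hA0.le] at ha
      rw [NP_finsum (by linarith) hsm (le_trans (by gcongr; exact ha.2) g2)]
      field_simp
      ring
    have hi1 : IntervalIntegrable (fun a => (NP mz (Fz T) (Real.log T) a - a * X) / X) volume 0 A := by
      apply IntervalIntegrable.div_const
      exact ((NP_mono hsys.hm (Fz T) (Real.log T)).intervalIntegrable).sub
        (Continuous.intervalIntegrable (by fun_prop) _ _)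
    have hi2 : IntervalIntegrable (fun a => a - VV a) volume 0 A :=
      (continuous_id.intervalIntegrable _ _).sub (VV_cont_on A hA0.le)
    rw [e1, intervalIntegral.integral_add hi1 hi2, intervalIntegral.integral_div]
    have h3 := VV_mean q_mass hA
    set I1 := ∫ a in (0 : ℝ)..A, (NP mz (Fz T) (Real.log T) a - a * X)
    set I2 := ∫ a in (0 : ℝ)..A, (a - VV a)
    have e2 : 1 / A * (I1 / X + I2) - (1 - NC mz (Fz T) / X) / 2 =
        (I1 / A + NC mz (Fz T) / 2 - Real.log A / (2 * Real.pi ^ 2 * A) * X) / X +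
        (I2 - (A / 2 - Real.log A / (2 * Real.pi ^ 2))) / A := by
      field_simp
      ring
    rw [e2]
    refine (abs_add_le _ _).trans ?_
    have h4 : |(I1 / A + NC mz (Fz T) / 2 - Real.log A / (2 * Real.pi ^ 2 * A) * X) / X| ≤ C / A := by
      rw [abs_div, abs_of_pos hX, div_le_iff₀ hX]
      exact g1
    have h5 : |(I2 - (A / 2 - Real.log A / (2 * Real.pi ^ 2))) / A| ≤ 3 / A := by
      rw [abs_div, abs_of_pos hA0]
      gcongr
    have h6 : C / A + 3 / A ≤ (C + 4) / A := by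
      rw [← add_div]
      gcongr
      linarith
    linarith

end

end U398.NV
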