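import Pool.Agent.U398.NV.Dya

set_option autoImplicit false

/-! # From dyadic blocks to the whole range: abstract bookkeeping -/

namespace U398.NV

open MeasureTheory Filter Topology Set

noncomputable section

/-- the weighted pair sum -/
def WS (m : ℂ → ℝ) (A L : ℝ) (S : Finset ℂ) : ℝ :=
  ∑ s ∈ S, ∑ s' ∈ S, m s * m s' * tri A ((s.im - s'.im) * L / (2 * Real.pi))

/-- the prediction -/
def EE (A : ℝ) : ℝ := A + Real.log A / (Real.pi ^ 2 * A)

lemma EE_nonneg {A : ℝ} (hA : 1 ≤ A) : 0 ≤ EE A := by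
  unfold EE
  have := Real.log_nonneg hA
  have := Real.pi_pos
  positivity

lemma EE_le {A : ℝ} (hA : 1 ≤ A) : EE A ≤ 2 * A := by
  unfold EE
  have h1 := Real.log_le_sub_one_of_pos (by linarith : 0 < A)
  have h2 := Real.pi_gt_three
  have h3 : Real.log A / (Real.pi ^ 2 * A) ≤ A := by
    rw [div_le_iff₀ (by positivity)]
    have h4 : 1 ≤ Real.pi ^ 2 := by nlinarith
    have h5 : A ≤ A * A := by nlinarith
    have h6 : A * A ≤ A * (Real.pi ^ 2 * A) := by nlinarith
    linarith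
  linarith

lemma tri_mono_arg {A : ℝ} (hA : 0 < A) {x y : ℝ} (h : |x| ≤ |y|) : tri A y ≤ tri A x := by
  unfold tri
  apply max_le_max le_rfl
  have : |x| / A ≤ |y| / A := div_le_div_of_nonneg_right h hA.le
  linarith

lemma tri_scale {A : ℝ} (hA : 0 < A) {ρ : ℝ} (hρ : 1 ≤ ρ) (u : ℝ) :
    tri A u - 2 * (ρ - 1) * tri (2 * A) u ≤ tri A (u * ρ) := by
  rcases le_total A |u| with h | h
  · rw [tri_supp hA h]
    have h1 := tri_nonneg A (u * ρ)
    have h2 := tri_nonneg (2 * A) u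
    have h3 : 0 ≤ 2 * (ρ - 1) * tri (2 * A) u := by
      apply mul_nonneg _ h2; linarith
    linarith
  · have h1 : 1 / 2 ≤ tri (2 * A) u := by
      unfold tri
      apply le_max_of_le_right
      have : |u| / (2 * A) ≤ 1 / 2 := by
        rw [div_le_div_iff₀ (by positivity) (by norm_num)]; linarith
      linarith
    have h2 : tri A u = 1 - |u| / A := by
      unfold tri
      apply max_eq_right
      have : |u| / A ≤ 1 := by rw [div_le_one hA]; exact h
      linarith
    have h3 : 1 - |u * ρ| / A ≤ tri A (u * ρ) := le_max_right _ _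
    rw [abs_mul, abs_of_nonneg (by linarith : 0 ≤ ρ)] at h3
    have h4 : |u| / A ≤ 1 := by rw [div_le_one hA]; exact h
    have h5 : (ρ - 1) * (|u| / A) ≤ (ρ - 1) * 1 := mul_le_mul_of_nonneg_left h4 (by linarith)
    have h6 : 2 * (ρ - 1) * (1 / 2) ≤ 2 * (ρ - 1) * tri (2 * A) u :=
      mul_le_mul_of_nonneg_left h1 (by linarith)
    have h7 : |u| * ρ / A = |u| / A + (ρ - 1) * (|u| / A) := by ring
    rw [h7] at h3
    rw [h2]
    linarith

section basic
variable {m : ℂ → ℝ} (hm : ∀ s, 0 ≤ m s)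
include hm

lemma WS_nonneg (A L : ℝ) (S : Finset ℂ) : 0 ≤ WS m A L S :=
  Finset.sum_nonneg fun s _ => Finset.sum_nonneg fun s' _ =>
    mul_nonneg (mul_nonneg (hm s) (hm s')) (tri_nonneg _ _)

lemma WS_le_sq {A : ℝ} (hA : 0 < A) (L : ℝ) (S : Finset ℂ) : WS m A L S ≤ (∑ s ∈ S, m s) ^ 2 := by
  unfold WS
  rw [sq, Finset.sum_mul_sum]
  refine Finset.sum_le_sum fun s _ => Finset.sum_le_sum fun s' _ => ?_
  exact mul_le_of_le_one_right (mul_nonneg (hm s) (hm s')) (tri_le_one hA _)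

lemma WS_anti {A : ℝ} (hA : 0 < A) {L L' : ℝ} (hL : 0 ≤ L) (h : L ≤ L') (S : Finset ℂ) :
    WS m A L' S ≤ WS m A L S := by
  refine Finset.sum_le_sum fun s _ => Finset.sum_le_sum fun s' _ => ?_
  apply mul_le_mul_of_nonneg_left _ (mul_nonneg (hm s) (hm s'))
  apply tri_mono_arg hA
  have hpi := Real.pi_pos
  simp only [abs_div, abs_mul, abs_of_nonneg hL, abs_of_nonneg (hL.trans h)]
  gcongr

lemma WS_scale {A : ℝ} (hA : 0 < A) {ρ : ℝ} (hρ : 1 ≤ ρ) (L : ℝ) (S : Finset ℂ) :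
    WS m A L S - 2 * (ρ - 1) * WS m (2 * A) L S ≤ WS m A (ρ * L) S := by
  unfold WS
  rw [Finset.mul_sum, ← Finset.sum_sub_distrib]
  refine Finset.sum_le_sum fun s _ => ?_
  rw [Finset.mul_sum, ← Finset.sum_sub_distrib]
  refine Finset.sum_le_sum fun s' _ => ?_
  have h1 := tri_scale hA hρ ((s.im - s'.im) * L / (2 * Real.pi))
  have e1 : (s.im - s'.im) * L / (2 * Real.pi) * ρ = (s.im - s'.im) * (ρ * L) / (2 * Real.pi) := by ring
  rw [e1] at h1
  have h2 := mul_le_mul_of_nonneg_left h1 (mul_nonneg (hm s) (hm s'))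
  calc m s * m s' * tri A ((s.im - s'.im) * L / (2 * Real.pi)) -
      2 * (ρ - 1) * (m s * m s' * tri (2 * A) ((s.im - s'.im) * L / (2 * Real.pi))) =
      m s * m s' * (tri A ((s.im - s'.im) * L / (2 * Real.pi)) -
        2 * (ρ - 1) * tri (2 * A) ((s.im - s'.im) * L / (2 * Real.pi))) := by ring
    _ ≤ _ := h2

omit hm in
lemma WS_union {A L : ℝ} {S S' : Finset ℂ} (hd : Disjoint S S') [DecidableEq ℂ] :
    WS m A L (S ∪ S') = WS m A L S + WS m A L S' +
      2 * ∑ s ∈ S, ∑ s' ∈ S', m s * m s' * tri A ((s.im - s'.im) * L / (2 * Real.pi)) := by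
  unfold WS
  rw [Finset.sum_union hd]
  have h1 : ∀ s, ∑ s' ∈ S ∪ S', m s * m s' * tri A ((s.im - s'.im) * L / (2 * Real.pi)) =
      ∑ s' ∈ S, m s * m s' * tri A ((s.im - s'.im) * L / (2 * Real.pi)) +
      ∑ s' ∈ S', m s * m s' * tri A ((s.im - s'.im) * L / (2 * Real.pi)) :=
    fun s => Finset.sum_union hd
  simp_rw [h1]
  rw [Finset.sum_add_distrib, Finset.sum_add_distrib]
  have h2 : ∑ s ∈ S', ∑ s' ∈ S, m s * m s' * tri A ((s.im - s'.im) * L / (2 * Real.pi)) =
      ∑ s ∈ S, ∑ s' ∈ S', m s * m s' * tri A ((s.im - s'.im) * L / (2 * Real.pi)) := by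
    rw [Finset.sum_comm]
    refine Finset.sum_congr rfl fun s _ => Finset.sum_congr rfl fun s' _ => ?_
    have : (s'.im - s.im) * L / (2 * Real.pi) = -((s.im - s'.im) * L / (2 * Real.pi)) := by ring
    rw [this, tri_even]
    ring
  rw [h2]
  ring

end basic

/-- a system of points: `F T` are the points of `Z` with ordinate in `(0, T]` -/
structure Sys (m : ℂ → ℝ) (Z : Set ℂ) (F : ℝ → Finset ℂ) (C : ℝ) : Prop where
  hm : ∀ s, 0 ≤ m s
  hF : ∀ s T, s ∈ F T ↔ s ∈ Z ∧ 0 < s.im ∧ s.im ≤ T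
  /-- short intervals -/
  hshort : ∃ T0 : ℝ, ∀ T : ℝ, T0 ≤ T → ∑ s ∈ (F (2 * T)).filter (fun s => |s.im - T| ≤ 1), m s ≤ C * Real.log T
  /-- counting function of the blocks -/
  hN : ∀ ε : ℝ, 0 < ε → ∃ T0 : ℝ, ∀ T : ℝ, T0 ≤ T →
    |∑ s ∈ F (2 * T) \ F T, m s - T * Real.log T / (2 * Real.pi)| ≤ ε * (T * Real.log T / (2 * Real.pi))
  /-- pair sums of the blocks -/
  hB : ∀ A : ℝ, 1 ≤ A → ∃ T0 : ℝ, ∀ T : ℝ, T0 ≤ T →
    |WS m A (Real.log T) (F (2 * T) \ F T) - EE A * ∑ s ∈ F (2 * T) \ F T, m s| ≤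
      C / A * ∑ s ∈ F (2 * T) \ F T, m s

section sys
variable {m : ℂ → ℝ} {Z : Set ℂ} {F : ℝ → Finset ℂ} {C : ℝ} (H : Sys m Z F C)
include H

lemma Sys.mono {a b : ℝ} (h : a ≤ b) : F a ⊆ F b := by
  intro s hs
  rw [H.hF] at hs ⊢
  exact ⟨hs.1, hs.2.1, hs.2.2.trans h⟩

lemma Sys.step_lower {A L T : ℝ} (hT : 0 ≤ T) : WS m A L (F T) + WS m A L (F (2 * T) \ F T) ≤
    WS m A L (F (2 * T)) := by
  classical
  have h1 : F (2 * T) = F T ∪ (F (2 * T) \ F T) :=
    (Finset.union_sdiff_of_subset (H.mono (by linarith))).symm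
  have h2 := WS_union (m := m) (A := A) (L := L) (S := F T) (S' := F (2 * T) \ F T) Finset.disjoint_sdiff
  rw [← h1] at h2
  rw [h2]
  have : 0 ≤ ∑ s ∈ F T, ∑ s' ∈ F (2 * T) \ F T, m s * m s' * tri A ((s.im - s'.im) * L / (2 * Real.pi)) :=
    Finset.sum_nonneg fun s _ => Finset.sum_nonneg fun s' _ =>
      mul_nonneg (mul_nonneg (H.hm s) (H.hm s')) (tri_nonneg _ _)
  linarith

lemma Sys.step_upper : ∃ T0 : ℝ, ∀ A : ℝ, 0 < A → ∀ T L : ℝ, T0 ≤ T → 0 ≤ T → 2 * Real.pi * A ≤ L →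
    WS m A L (F (2 * T)) ≤ WS m A L (F T) + WS m A L (F (2 * T) \ F T) + 2 * (C * Real.log T) ^ 2 := by
  classical
  obtain ⟨T0, h0⟩ := H.hshort
  refine ⟨T0, fun A hA T L hT hT0 hL => ?_⟩
  have hpi := Real.pi_pos
  have h1 : F (2 * T) = F T ∪ (F (2 * T) \ F T) :=
    (Finset.union_sdiff_of_subset (H.mono (by linarith))).symm
  have h2 := WS_union (m := m) (A := A) (L := L) (S := F T) (S' := F (2 * T) \ F T) Finset.disjoint_sdiff
  rw [← h1] at h2
  rw [h2]
  set G := (F (2 * T)).filter (fun s => |s.im - T| ≤ 1) with hG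
  have h3 := h0 T hT
  have hG0 : 0 ≤ ∑ s ∈ G, m s := Finset.sum_nonneg fun s _ => H.hm s
  have h4 : ∑ s ∈ F T, ∑ s' ∈ F (2 * T) \ F T, m s * m s' * tri A ((s.im - s'.im) * L / (2 * Real.pi)) ≤
      (∑ s ∈ G, m s) ^ 2 := by
    have e1 : ∀ s ∈ F T, ∀ s' ∈ F (2 * T) \ F T, m s * m s' * tri A ((s.im - s'.im) * L / (2 * Real.pi)) ≤
        (if s ∈ G then m s else 0) * (if s' ∈ G then m s' else 0) := by
      intro s hs s' hs'
      have g1 := (H.hF s T).1 hs
      rw [Finset.mem_sdiff] at hs'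
      have g2 := (H.hF s' (2 * T)).1 hs'.1
      have g3 : T < s'.im := by
        by_contra hcon
        push Not at hcon
        exact hs'.2 ((H.hF s' T).2 ⟨g2.1, g2.2.1, hcon⟩)
      by_cases hfar : A ≤ |(s.im - s'.im) * L / (2 * Real.pi)|
      · rw [tri_supp hA hfar, mul_zero]
        apply mul_nonneg <;> split_ifs <;> first | exact H.hm _ | exact le_rfl
      · push Not at hfar
        rw [abs_div, abs_mul, abs_of_pos (by positivity : 0 < 2 * Real.pi),
          abs_of_nonneg (by nlinarith : 0 ≤ L), div_lt_iff₀ (by positivity)] at hfar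
        have hLp : 0 < L := lt_of_lt_of_le (by positivity) hL
        have h5 : |s.im - s'.im| < 1 := by
          by_contra hcon
          push Not at hcon
          nlinarith
        rw [abs_lt] at h5
        have hs1 : s ∈ G := by
          rw [hG, Finset.mem_filter]
          refine ⟨H.mono (by linarith) hs, ?_⟩
          rw [abs_le]
          constructor <;> linarith [g1.2.2]
        have hs2 : s' ∈ G := by
          rw [hG, Finset.mem_filter]
          refine ⟨hs'.1, ?_⟩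
          rw [abs_le]
          constructor <;> linarith [g1.2.2]
        rw [if_pos hs1, if_pos hs2]
        exact mul_le_of_le_one_right (mul_nonneg (H.hm s) (H.hm s')) (tri_le_one hA _)
    have e0 : ∀ s, 0 ≤ (if s ∈ G then m s else 0) := by
      intro s; split_ifs
      · exact H.hm s
      · exact le_rfl
    have hGF : G ⊆ F (2 * T) := Finset.filter_subset _ _
    have e2 : ∑ s ∈ F (2 * T), (if s ∈ G then m s else 0) = ∑ s ∈ G, m s := by
      rw [Finset.sum_ite_mem, Finset.inter_eq_right.2 hGF]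
    calc ∑ s ∈ F T, ∑ s' ∈ F (2 * T) \ F T, m s * m s' * tri A ((s.im - s'.im) * L / (2 * Real.pi)) ≤
        ∑ s ∈ F T, ∑ s' ∈ F (2 * T) \ F T, (if s ∈ G then m s else 0) * (if s' ∈ G then m s' else 0) :=
          Finset.sum_le_sum fun s hs => Finset.sum_le_sum fun s' hs' => e1 s hs s' hs'
      _ = (∑ s ∈ F T, (if s ∈ G then m s else 0)) * ∑ s' ∈ F (2 * T) \ F T, (if s' ∈ G then m s' else 0) := by
          rw [Finset.sum_mul_sum]
      _ ≤ (∑ s ∈ F (2 * T), (if s ∈ G then m s else 0)) * ∑ s' ∈ F (2 * T), (if s' ∈ G then m s' else 0) := by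
          apply mul_le_mul
          · exact Finset.sum_le_sum_of_subset_of_nonneg (H.mono (by linarith)) fun s _ _ => e0 s
          · exact Finset.sum_le_sum_of_subset_of_nonneg Finset.sdiff_subset fun s _ _ => e0 s
          · exact Finset.sum_nonneg fun s _ => e0 s
          · exact Finset.sum_nonneg fun s _ => e0 s
      _ = _ := by rw [e2]; ring
  have h5 : (∑ s ∈ G, m s) ^ 2 ≤ (C * Real.log T) ^ 2 := pow_le_pow_left₀ hG0 h3 2
  linarith

lemma Sys.C_nonneg : 0 ≤ C := by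
  obtain ⟨T0, h0⟩ := H.hshort
  have h1 := h0 (max T0 3) (le_max_left _ _)
  have h2 : 0 ≤ ∑ s ∈ (F (2 * max T0 3)).filter (fun s => |s.im - max T0 3| ≤ 1), m s :=
    Finset.sum_nonneg fun s _ => H.hm s
  have h3 : 0 < Real.log (max T0 3) := Real.log_pos (by linarith [le_max_right T0 3])
  by_contra hcon
  push Not at hcon
  nlinarith

/-- the upper bound -/
lemma Sys.upper {A : ℝ} (hA : 1 ≤ A) {ε : ℝ} (hε : 0 < ε) : ∃ T0 : ℝ, ∀ T : ℝ, T0 ≤ T →
    WS m A (Real.log T) (F T) ≤ ((EE A + C / A) * (1 + ε) + ε) * (T * Real.log T / (2 * Real.pi)) := by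
  have hA0 : 0 < A := by linarith
  have hpi := Real.pi_pos
  have hC := H.C_nonneg
  obtain ⟨Ta, ha⟩ := H.hN ε hε
  obtain ⟨Tb, hb⟩ := H.hB A hA
  obtain ⟨Tc, hc⟩ := H.step_upper
  set T2 : ℝ := max (max Ta Tb) (max Tc 1) with hT2
  set T1 : ℝ := 2 * T2 with hT1
  have hT21 : 1 ≤ T2 := (le_max_right _ _).trans (le_max_right _ _)
  set D0 : ℝ := (∑ s ∈ F T1, m s) ^ 2 with hD0
  set c : ℝ := (EE A + C / A) * (1 + ε) with hcdef
  have hEE := EE_nonneg hA
  have hc0 : 0 ≤ c := by rw [hcdef]; positivity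
  -- blocks
  have hblk : ∀ T L : ℝ, T2 ≤ T → Real.log T ≤ L → WS m A L (F (2 * T) \ F T) ≤
      c * (T * L / (2 * Real.pi)) := by
    intro T L hT hL
    have hTa : Ta ≤ T := ((le_max_left _ _).trans (le_max_left _ _)).trans hT
    have hTb : Tb ≤ T := ((le_max_right _ _).trans (le_max_left _ _)).trans hT
    have hT1' : 1 ≤ T := hT21.trans hT
    have hlog : 0 ≤ Real.log T := Real.log_nonneg hT1'
    have h1 := WS_anti H.hm hA0 hlog hL (F (2 * T) \ F T)
    have h2 := (abs_le.1 (hb T hTb)).2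
    have h3 := (abs_le.1 (ha T hTa)).2
    have h4 : WS m A (Real.log T) (F (2 * T) \ F T) ≤ (EE A + C / A) * ∑ s ∈ F (2 * T) \ F T, m s := by
      linarith
    have h5 : ∑ s ∈ F (2 * T) \ F T, m s ≤ (1 + ε) * (T * L / (2 * Real.pi)) := by
      have h6 : T * Real.log T / (2 * Real.pi) ≤ T * L / (2 * Real.pi) := by gcongr
      nlinarith
    calc WS m A L (F (2 * T) \ F T) ≤ (EE A + C / A) * ∑ s ∈ F (2 * T) \ F T, m s := h1.trans h4
      _ ≤ (EE A + C / A) * ((1 + ε) * (T * L / (2 * Real.pi))) := by gcongr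
      _ = _ := by rw [hcdef]; ring
  have hind : ∀ n : ℕ, ∀ x : ℝ, 1 ≤ x → x ≤ 2 ^ n * T1 → ∀ L : ℝ, 2 * Real.pi * A ≤ L → Real.log x ≤ L →
      WS m A L (F x) ≤ c * (x * L / (2 * Real.pi)) + n * (2 * (C * L) ^ 2) + D0 := by
    intro n
    induction n with
    | zero =>
      intro x hx0 hx L hL _
      have hLp : 0 < L := lt_of_lt_of_le (by positivity) hL
      rw [pow_zero, one_mul] at hx
      have h1 := WS_le_sq H.hm hA0 L (F x)
      have h2 : ∑ s ∈ F x, m s ≤ ∑ s ∈ F T1, m s :=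
        Finset.sum_le_sum_of_subset_of_nonneg (H.mono hx) fun s _ _ => H.hm s
      have h3 : (∑ s ∈ F x, m s) ^ 2 ≤ D0 :=
        pow_le_pow_left₀ (Finset.sum_nonneg fun s _ => H.hm s) h2 2
      have h4 : 0 ≤ c * (x * L / (2 * Real.pi)) := by positivity
      push_cast
      linarith
    | succ n ih =>
      intro x hx0 hx L hL hlog
      have hLp : 0 < L := lt_of_lt_of_le (by positivity) hL
      by_cases hxn : x ≤ T1
      · have h1 := ih x hx0 (hxn.trans (by
          have : (1 : ℝ) ≤ 2 ^ n := one_le_pow₀ (by norm_num)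
          have : 0 < T1 := by rw [hT1]; linarith
          nlinarith)) L hL hlog
        push_cast
        have : 0 ≤ 2 * (C * L) ^ 2 := by positivity
        linarith
      · push Not at hxn
        have hy2 : T2 ≤ x / 2 := by rw [hT1] at hxn; linarith
        have hy1 : 1 ≤ x / 2 := hT21.trans hy2
        have hlx : Real.log (x / 2) ≤ L := (Real.log_le_log (by linarith) (by linarith)).trans hlog
        have hlx0 : 0 ≤ Real.log (x / 2) := Real.log_nonneg hy1
        have h1 := ih (x / 2) hy1 (by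
          rw [pow_succ] at hx; linarith) L hL hlx
        have h2 := hblk (x / 2) L hy2 hlx
        have h3 := hc A hA0 (x / 2) L (((le_max_left _ _).trans (le_max_right _ _)).trans hy2)
          (by linarith) hL
        have e : 2 * (x / 2) = x := by ring
        rw [e] at h2 h3
        have h4 : (C * Real.log (x / 2)) ^ 2 ≤ (C * L) ^ 2 := by
          apply pow_le_pow_left₀ (by positivity)
          gcongr
        have h5 : c * (x * L / (2 * Real.pi)) = c * (x / 2 * L / (2 * Real.pi)) + c * (x / 2 * L / (2 * Real.pi)) := by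
          ring
        push_cast
        rw [h5]
        linarith
  -- conclusion
  have ev : ∀ᶠ T : ℝ in atTop, 2 * Real.pi * A ≤ Real.log T ∧ 1 ≤ Real.log T ∧ 1 ≤ T ∧
      (2 * Real.log T + 1) * (2 * (C * Real.log T) ^ 2) + D0 ≤ ε * (T * Real.log T / (2 * Real.pi)) := by
    have hlog := Real.tendsto_log_atTop
    have h1 : Tendsto (fun T : ℝ => Real.log T ^ 2 / T) atTop (𝓝 0) := by
      have := (isLittleO_log_rpow_atTop (by norm_num : (0 : ℝ) < 1 / 2)).tendsto_div_nhds_zero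
      have h2 := this.mul this
      rw [mul_zero] at h2
      refine h2.congr' ?_
      filter_upwards [eventually_gt_atTop 0] with T hT
      have : T ^ (1 / 2 : ℝ) * T ^ (1 / 2 : ℝ) = T := by
        rw [← Real.rpow_add hT]; norm_num
      rw [div_mul_div_comm, this]; ring
    have h2 : ∀ᶠ T : ℝ in atTop, Real.log T ^ 2 / T ≤ ε / (2 * Real.pi) / (6 * C ^ 2 + D0 + 1) := by
      have hpos : 0 < ε / (2 * Real.pi) / (6 * C ^ 2 + D0 + 1) := by positivity
      exact (h1.eventually_lt_const hpos).mono fun T h => h.le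
    filter_upwards [hlog.eventually_ge_atTop (2 * Real.pi * A), hlog.eventually_ge_atTop 1,
      eventually_ge_atTop 1, h2] with T k1 k2 k3 k4
    refine ⟨k1, k2, k3, ?_⟩
    have hT0 : 0 < T := by linarith
    rw [div_le_div_iff₀ hT0 (by positivity)] at k4
    set l := Real.log T with hl
    have k5 : l ^ 2 * (6 * C ^ 2 + D0 + 1) * l ≤ ε / (2 * Real.pi) * T * l := by gcongr
    have k6 : (2 * l + 1) * (2 * (C * l) ^ 2) + D0 ≤ l ^ 2 * (6 * C ^ 2 + D0 + 1) * l := by
      have a1 : (2 * l + 1) ≤ 3 * l := by linarith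
      have a2 : (2 * l + 1) * (2 * (C * l) ^ 2) ≤ 3 * l * (2 * (C * l) ^ 2) := by gcongr
      have a3 : 1 ≤ l ^ 3 := one_le_pow₀ k2
      have a4 : 0 ≤ D0 := by rw [hD0]; positivity
      have a5 : D0 * 1 ≤ D0 * l ^ 3 := mul_le_mul_of_nonneg_left a3 a4
      have a6 : 0 ≤ l ^ 3 := by positivity
      calc (2 * l + 1) * (2 * (C * l) ^ 2) + D0 ≤ 3 * l * (2 * (C * l) ^ 2) + D0 * l ^ 3 := by linarith
        _ ≤ 3 * l * (2 * (C * l) ^ 2) + D0 * l ^ 3 + l ^ 3 := by linarith
        _ = _ := by ring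
    have k7 : ε / (2 * Real.pi) * T * l = ε * (T * l / (2 * Real.pi)) := by ring
    linarith
  obtain ⟨T3, hT3⟩ := eventually_atTop.1 ev
  refine ⟨T3, fun T hT => ?_⟩
  obtain ⟨k1, k2, k3, k4⟩ := hT3 T hT
  set n : ℕ := ⌈2 * Real.log T⌉₊ with hn
  have hn1 : (n : ℝ) ≤ 2 * Real.log T + 1 := (Nat.ceil_lt_add_one (by linarith)).le
  have hn2 : 2 * Real.log T ≤ n := Nat.le_ceil _
  have hT0 : 0 < T := by linarith
  have hTn : T ≤ 2 ^ n * T1 := by
    have h1 : T ≤ 2 ^ n := by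
      have h2 : Real.log T ≤ n * Real.log 2 := by
        have h3 : (1 : ℝ) / 2 ≤ Real.log 2 := by
          have := Real.log_two_gt_d9; linarith
        have h4 : (0 : ℝ) ≤ n := Nat.cast_nonneg _
        nlinarith
      rw [← Real.log_pow] at h2
      exact (Real.log_le_log_iff hT0 (by positivity)).1 h2
    have h2 : 1 ≤ T1 := by rw [hT1]; linarith
    have h3 : (0 : ℝ) < 2 ^ n := by positivity
    nlinarith
  have h := hind n T k3 hTn (Real.log T) k1 le_rfl
  have h5 : (n : ℝ) * (2 * (C * Real.log T) ^ 2) ≤ (2 * Real.log T + 1) * (2 * (C * Real.log T) ^ 2) := by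
    gcongr
  calc WS m A (Real.log T) (F T) ≤ c * (T * Real.log T / (2 * Real.pi)) +
      ε * (T * Real.log T / (2 * Real.pi)) := by linarith
    _ = _ := by rw [hcdef]; ring

/-- the lower bound -/
lemma Sys.lower {A : ℝ} (hA : 1 ≤ A) {ε : ℝ} (hε : 0 < ε) (hε1 : ε ≤ 1) : ∃ T0 : ℝ, ∀ T : ℝ, T0 ≤ T →
    (EE A - C / A - ε) * (1 - ε) ^ 3 * (T * Real.log T / (2 * Real.pi)) ≤ WS m A (Real.log T) (F T) := by
  have hA0 : 0 < A := by linarith
  have hpi := Real.pi_pos
  have hC := H.C_nonneg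
  rcases le_total (EE A - C / A - ε) 0 with hneg | hpos
  · refine ⟨1, fun T hT => ?_⟩
    have h1 := WS_nonneg H.hm A (Real.log T) (F T)
    have h2 : 0 ≤ Real.log T := Real.log_nonneg hT
    have h3 : 0 ≤ (1 - ε) ^ 3 * (T * Real.log T / (2 * Real.pi)) := by
      have : 0 ≤ 1 - ε := by linarith
      positivity
    rw [mul_assoc]
    nlinarith
  obtain ⟨K, hK⟩ := exists_pow_lt_of_lt_one hε (by norm_num : (1 / 2 : ℝ) < 1)
  obtain ⟨Ta, ha⟩ := H.hN ε hε
  obtain ⟨Tb, hb⟩ := H.hB A hA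
  obtain ⟨Tc, hc⟩ := H.hB (2 * A) (by linarith)
  set Q : ℝ := EE (2 * A) + C / (2 * A) with hQ
  have hQ0 : 0 ≤ Q := by
    have := EE_nonneg (A := 2 * A) (by linarith)
    rw [hQ]; positivity
  set T2 : ℝ := max (max Ta Tb) (max Tc 3) with hT2
  have hT23 : 3 ≤ T2 := (le_max_right _ _).trans (le_max_right _ _)
  -- one block
  have ev : ∀ᶠ T : ℝ in atTop, ∀ k ∈ Finset.range K, T2 ≤ T / 2 ^ (k + 1) ∧
      2 * (Real.log T / Real.log (T / 2 ^ (k + 1)) - 1) * Q ≤ ε ∧
      (1 - ε) * Real.log T ≤ Real.log (T / 2 ^ (k + 1)) := by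
    have h0 : ∀ k ∈ Finset.range K, ∀ᶠ T : ℝ in atTop, T2 ≤ T / 2 ^ (k + 1) ∧
      2 * (Real.log T / Real.log (T / 2 ^ (k + 1)) - 1) * Q ≤ ε ∧
      (1 - ε) * Real.log T ≤ Real.log (T / 2 ^ (k + 1)) := by
      intro k _
      set b : ℝ := (k + 1) * Real.log 2 with hb'
      have hb0 : 0 < b := by
        have := Real.log_pos (by norm_num : (1 : ℝ) < 2)
        positivity
      have hlog := Real.tendsto_log_atTop
      filter_upwards [eventually_ge_atTop (T2 * 2 ^ (k + 1)), hlog.eventually_ge_atTop (b / ε),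
        hlog.eventually_ge_atTop (b + 2 * b * Q / ε), eventually_ge_atTop 1,
        hlog.eventually_ge_atTop (b + 1)] with T k1 k2 k3 k4 k5
      have hT0 : 0 < T := by linarith
      have e1 : Real.log (T / 2 ^ (k + 1)) = Real.log T - b := by
        rw [Real.log_div hT0.ne' (by positivity), Real.log_pow, hb']
        push_cast; ring
      refine ⟨by rw [le_div_iff₀ (by positivity)]; exact k1, ?_, ?_⟩
      · rw [e1]
        have h1 : 0 < Real.log T - b := by linarith
        have e2 : 2 * (Real.log T / (Real.log T - b) - 1) * Q = 2 * b * Q / (Real.log T - b) := by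
          field_simp
          ring
        rw [e2, div_le_iff₀ h1]
        have h2 : 2 * b * Q / ε ≤ Real.log T - b := by linarith
        rw [div_le_iff₀ hε] at h2
        linarith
      · rw [e1]
        rw [div_le_iff₀ hε] at k2
        linarith
    have := (Finset.range K).eventually_all.2 h0
    exact this
  obtain ⟨T3, hT3⟩ := eventually_atTop.1 ev
  refine ⟨max T3 1, fun T hT => ?_⟩
  have hT1 : 1 ≤ T := (le_max_right _ _).trans hT
  have hk := hT3 T ((le_max_left _ _).trans hT)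
  have hT0 : 0 < T := by linarith
  have hl0 : 0 ≤ Real.log T := Real.log_nonneg hT1
  have hsum : ∀ n : ℕ, ∑ k ∈ Finset.range n, WS m A (Real.log T) (F (2 * (T / 2 ^ (k + 1))) \ F (T / 2 ^ (k + 1))) ≤
      WS m A (Real.log T) (F T) - WS m A (Real.log T) (F (T / 2 ^ n)) := by
    intro n
    induction n with
    | zero => simp
    | succ n ih =>
      rw [Finset.sum_range_succ]
      have h1 := H.step_lower (A := A) (L := Real.log T) (T := T / 2 ^ (n + 1)) (by positivity)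
      have e : 2 * (T / 2 ^ (n + 1)) = T / 2 ^ n := by
        rw [pow_succ]; field_simp
      rw [e] at h1
      rw [e]
      linarith
  have h1 := hsum K
  have h2 := WS_nonneg H.hm A (Real.log T) (F (T / 2 ^ K))
  have h3 : ∀ k ∈ Finset.range K, (EE A - C / A - ε) * (1 - ε) ^ 2 * (Real.log T / (2 * Real.pi)) * (T / 2 ^ (k + 1)) ≤
      WS m A (Real.log T) (F (2 * (T / 2 ^ (k + 1))) \ F (T / 2 ^ (k + 1))) := by
    intro k hkK
    obtain ⟨g1, g2, g3⟩ := hk k hkK
    set y : ℝ := T / 2 ^ (k + 1) with hy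
    have hy3 : 3 ≤ y := hT23.trans g1
    have hly : 0 < Real.log y := Real.log_pos (by linarith)
    have hyT : y ≤ T := by
      rw [hy]
      exact div_le_self hT0.le (one_le_pow₀ (by norm_num))
    set ρ : ℝ := Real.log T / Real.log y with hρ
    have hρ1 : 1 ≤ ρ := by
      rw [hρ, one_le_div hly]
      exact Real.log_le_log (by linarith) hyT
    have e : ρ * Real.log y = Real.log T := by rw [hρ]; field_simp
    have a1 := WS_scale H.hm hA0 hρ1 (Real.log y) (F (2 * y) \ F y)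
    rw [e] at a1
    set N := ∑ s ∈ F (2 * y) \ F y, m s with hN
    have hN0 : 0 ≤ N := Finset.sum_nonneg fun s _ => H.hm s
    have a2 := (abs_le.1 (hb y (((le_max_right _ _).trans (le_max_left _ _)).trans g1))).1
    have a3 := (abs_le.1 (hc y (((le_max_left _ _).trans (le_max_right _ _)).trans g1))).2
    have a4 := (abs_le.1 (ha y (((le_max_left _ _).trans (le_max_left _ _)).trans g1))).1
    have a5 : WS m (2 * A) (Real.log y) (F (2 * y) \ F y) ≤ Q * N := by
      rw [hQ]; linarith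
    have a6 : 2 * (ρ - 1) * WS m (2 * A) (Real.log y) (F (2 * y) \ F y) ≤ ε * N := by
      calc 2 * (ρ - 1) * WS m (2 * A) (Real.log y) (F (2 * y) \ F y) ≤ 2 * (ρ - 1) * (Q * N) := by
            apply mul_le_mul_of_nonneg_left a5; linarith
        _ = (2 * (ρ - 1) * Q) * N := by ring
        _ ≤ ε * N := mul_le_mul_of_nonneg_right g2 hN0
    have a7 : (EE A - C / A - ε) * N ≤ WS m A (Real.log T) (F (2 * y) \ F y) := by linarith
    have a8 : (1 - ε) ^ 2 * (Real.log T / (2 * Real.pi)) * y ≤ N := by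
      have b1 : (1 - ε) * (y * Real.log y / (2 * Real.pi)) ≤ N := by linarith
      have b2 : (1 - ε) * (y * ((1 - ε) * Real.log T) / (2 * Real.pi)) ≤
          (1 - ε) * (y * Real.log y / (2 * Real.pi)) := by
        have : 0 ≤ 1 - ε := by linarith
        gcongr
      calc (1 - ε) ^ 2 * (Real.log T / (2 * Real.pi)) * y =
          (1 - ε) * (y * ((1 - ε) * Real.log T) / (2 * Real.pi)) := by ring
        _ ≤ N := b2.trans b1
    calc (EE A - C / A - ε) * (1 - ε) ^ 2 * (Real.log T / (2 * Real.pi)) * y =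
        (EE A - C / A - ε) * ((1 - ε) ^ 2 * (Real.log T / (2 * Real.pi)) * y) := by ring
      _ ≤ (EE A - C / A - ε) * N := mul_le_mul_of_nonneg_left a8 hpos
      _ ≤ _ := a7
  have h4 := Finset.sum_le_sum h3
  rw [← Finset.mul_sum] at h4
  have e5 : ∑ k ∈ Finset.range K, T / 2 ^ (k + 1) = T * (1 - (1 / 2) ^ K) := by
    have h6 : ∀ n : ℕ, ∑ k ∈ Finset.range n, T / 2 ^ (k + 1) = T * (1 - (1 / 2) ^ n) := by
      intro n
      induction n with
      | zero => simp
      | succ n ih =>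
        rw [Finset.sum_range_succ, ih, pow_succ, pow_succ, div_pow, one_pow]
        field_simp
        ring
    exact h6 K
  rw [e5] at h4
  have h7 : (1 - ε) ≤ 1 - (1 / 2 : ℝ) ^ K := by linarith
  have h8 : 0 ≤ (EE A - C / A - ε) * (1 - ε) ^ 2 * (Real.log T / (2 * Real.pi)) := by
    have : 0 ≤ Real.log T / (2 * Real.pi) := by positivity
    have := sq_nonneg (1 - ε)
    positivity
  calc (EE A - C / A - ε) * (1 - ε) ^ 3 * (T * Real.log T / (2 * Real.pi)) =
      (EE A - C / A - ε) * (1 - ε) ^ 2 * (Real.log T / (2 * Real.pi)) * (T * (1 - ε)) := by ring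
    _ ≤ (EE A - C / A - ε) * (1 - ε) ^ 2 * (Real.log T / (2 * Real.pi)) * (T * (1 - (1 / 2) ^ K)) := by
        apply mul_le_mul_of_nonneg_left _ h8
        exact mul_le_mul_of_nonneg_left h7 hT0.le
    _ ≤ WS m A (Real.log T) (F T) := by linarith

/-- both bounds -/
lemma Sys.both {A : ℝ} (hA : 1 ≤ A) : ∃ T0 : ℝ, 3 ≤ T0 ∧ ∀ T : ℝ, T0 ≤ T →
    |WS m A (Real.log T) (F T) - EE A * (T * Real.log T / (2 * Real.pi))| ≤
      (C + 1) / A * (T * Real.log T / (2 * Real.pi)) := by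
  have hA0 : 0 < A := by linarith
  have hpi := Real.pi_pos
  have hC := H.C_nonneg
  have hEE := EE_nonneg hA
  have hq : 0 ≤ C / A := by positivity
  set ε : ℝ := 1 / (A * (4 * EE A + 3 * (C / A) + 4)) with hε
  have hε0 : 0 < ε := by rw [hε]; positivity
  have hε1 : ε ≤ 1 := by
    rw [hε, div_le_one (by positivity)]
    nlinarith
  have hkey : ε * (4 * EE A + 3 * (C / A) + 4) = 1 / A := by
    rw [hε]; field_simp
  obtain ⟨Ta, ha⟩ := H.upper hA hε0
  obtain ⟨Tb, hb⟩ := H.lower hA hε0 hε1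
  refine ⟨max (max Ta Tb) 3, le_max_right _ _, fun T hT => ?_⟩
  have h1 := ha T (((le_max_left _ _).trans (le_max_left _ _)).trans hT)
  have h2 := hb T (((le_max_right _ _).trans (le_max_left _ _)).trans hT)
  have hT3 : 3 ≤ T := (le_max_right _ _).trans hT
  have hX : 0 ≤ T * Real.log T / (2 * Real.pi) := by
    have := Real.log_nonneg (by linarith : 1 ≤ T)
    positivity
  set X := T * Real.log T / (2 * Real.pi) with hXdef
  have e1 : (C + 1) / A = C / A + 1 / A := by ring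
  have u1 : ((EE A + C / A) * (1 + ε) + ε) ≤ EE A + (C + 1) / A := by
    rw [e1, ← hkey]; nlinarith [mul_nonneg hε0.le hEE, mul_nonneg hε0.le hq]
  have l1 : EE A - (C + 1) / A ≤ (EE A - C / A - ε) * (1 - ε) ^ 3 := by
    have h3 : 1 - 3 * ε ≤ (1 - ε) ^ 3 := by nlinarith [sq_nonneg ε, mul_nonneg hε0.le (sq_nonneg ε)]
    have h4 : (1 - ε) ^ 3 ≤ 1 := pow_le_one₀ (by linarith) (by linarith)
    have h5 : 0 ≤ (1 - ε) ^ 3 := by
      have : 0 ≤ 1 - ε := by linarith
      positivity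
    have h6 : EE A * (1 - 3 * ε) ≤ EE A * (1 - ε) ^ 3 := mul_le_mul_of_nonneg_left h3 hEE
    have h7 : (C / A + ε) * (1 - ε) ^ 3 ≤ (C / A + ε) * 1 := mul_le_mul_of_nonneg_left h4 (by positivity)
    have e2 : (EE A - C / A - ε) * (1 - ε) ^ 3 = EE A * (1 - ε) ^ 3 - (C / A + ε) * (1 - ε) ^ 3 := by ring
    rw [e2, e1, ← hkey]
    nlinarith [mul_nonneg hε0.le hEE, mul_nonneg hε0.le hq]
  have u2 : ((EE A + C / A) * (1 + ε) + ε) * X ≤ (EE A + (C + 1) / A) * X :=
    mul_le_mul_of_nonneg_right u1 hX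
  have l2 : (EE A - (C + 1) / A) * X ≤ (EE A - C / A - ε) * (1 - ε) ^ 3 * X :=
    mul_le_mul_of_nonneg_right l1 hX
  rw [abs_le]
  constructor <;> nlinarith

end sys

end

end U398.NV
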