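import Mathlib

set_option autoImplicit false

/-! # A smooth kernel and the triangle: elementary part of the number variance -/

namespace U398.NV

open MeasureTheory Filter Topology Set
open scoped FourierTransform SchwartzMap

/-- the bandlimited function with transform `r` -/
noncomputable def bl (r : ℝ → ℝ) (u : ℝ) : ℝ := ∫ α : ℝ, r α * Real.cos (2 * Real.pi * α * u)

/-- the triangle -/
noncomputable def tri (κ : ℝ) (α : ℝ) : ℝ := max 0 (1 - |α| / κ)

/-- the cutoff -/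
noncomputable def kb : ContDiffBump (0 : ℝ) := ⟨1 / 4, 1 / 2, by norm_num, by norm_num⟩

/-- the cutoff as a function -/
noncomputable def kh (α : ℝ) : ℝ := kb α

lemma kh_nonneg (α : ℝ) : 0 ≤ kh α := kb.nonneg
lemma kh_le_one (α : ℝ) : kh α ≤ 1 := kb.le_one
lemma kh_even (α : ℝ) : kh (-α) = kh α := kb.neg α
lemma kh_cd : ContDiff ℝ (⊤ : ℕ∞) kh := kb.contDiff
lemma kh_cont : Continuous kh := kh_cd.continuous
lemma kh_zero {α : ℝ} (h : 1 / 2 ≤ |α|) : kh α = 0 := by
  apply kb.zero_of_le_dist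
  rw [Real.dist_eq, sub_zero]
  exact h
lemma kh_one {α : ℝ} (h : |α| ≤ 1 / 4) : kh α = 1 := by
  apply kb.one_of_mem_closedBall
  rw [Metric.mem_closedBall, Real.dist_eq, sub_zero]
  exact h

lemma kh_supp : HasCompactSupport kh := by
  apply HasCompactSupport.intro (isCompact_Icc (a := -(1 / 2 : ℝ)) (b := 1 / 2))
  intro x hx
  apply kh_zero
  by_contra h
  push Not at h
  obtain ⟨h3, h4⟩ := abs_lt.1 h
  exact hx ⟨h3.le, h4.le⟩

lemma kh_lip : ∃ K : ℝ, 0 ≤ K ∧ ∀ x y, |kh x - kh y| ≤ K * |x - y| := by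
  obtain ⟨C, hC⟩ := (kh_cd.of_le (by exact_mod_cast le_top) : ContDiff ℝ 1 kh).lipschitzWith_of_hasCompactSupport
    kh_supp (by norm_num)
  refine ⟨C, C.2, fun x y => ?_⟩
  have := hC.dist_le_mul x y
  rwa [Real.dist_eq, Real.dist_eq] at this

/-- the kernel -/
noncomputable def Kf (u : ℝ) : ℝ := bl kh u

/-- the cutoff as a Schwartz function -/
noncomputable def khS : 𝓢(ℝ, ℂ) :=
  (HasCompactSupport.comp_left (g := ((↑) : ℝ → ℂ)) kh_supp (by simp)).toSchwartzMap
    (Complex.ofRealCLM.contDiff.comp kh_cd)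

lemma khS_apply (x : ℝ) : khS x = (kh x : ℂ) := rfl

lemma Kf_eq (u : ℝ) : Kf u = (𝓕 khS u).re := by
  unfold Kf bl
  rw [SchwartzMap.fourier_coe, Real.fourier_real_eq_integral_exp_smul]
  have hint : Integrable fun v : ℝ => Complex.exp (↑(-2 * Real.pi * v * u) * Complex.I) • khS v := by
    have h1 : Integrable fun v : ℝ => khS v := khS.integrable
    refine h1.norm.mono' (by
      apply Continuous.aestronglyMeasurable
      have := khS.continuous
      fun_prop) (Filter.Eventually.of_forall fun v => ?_)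
    rw [norm_smul, Complex.norm_exp_ofReal_mul_I, one_mul]
  have h4 := (Complex.reCLM.integral_comp_comm hint).symm
  simp only [Complex.reCLM_apply] at h4
  rw [h4]
  refine integral_congr_ae (Filter.Eventually.of_forall fun v => ?_)
  show kh v * Real.cos (2 * Real.pi * v * u) =
    (Complex.exp (↑(-2 * Real.pi * v * u) * Complex.I) • khS v).re
  rw [khS_apply, smul_eq_mul, mul_comm (Complex.exp _), Complex.re_ofReal_mul,
    Complex.exp_ofReal_mul_I_re]
  have : -2 * Real.pi * v * u = -(2 * Real.pi * v * u) := by ring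
  rw [this, Real.cos_neg]

lemma Kf_cont : Continuous Kf := by
  have : Kf = fun u => (𝓕 khS u).re := funext Kf_eq
  rw [this]
  exact Complex.continuous_re.comp (𝓕 khS).continuous

lemma Kf_even (u : ℝ) : Kf (-u) = Kf u := by
  unfold Kf bl
  congr 1
  funext α
  rw [mul_neg, Real.cos_neg]

lemma Kf_decay : ∃ C : ℝ, 0 < C ∧ ∀ u, |Kf u| * (1 + u ^ 2) ^ 3 ≤ C := by
  have h := SchwartzMap.one_add_le_sup_seminorm_apply (𝕜 := ℝ) (m := (6, 0)) (k := 6) (n := 0) le_rfl le_rfl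
    (𝓕 khS)
  set S : ℝ := 2 ^ 6 * ((Finset.Iic (6, 0)).sup fun m => SchwartzMap.seminorm ℝ m.1 m.2) (𝓕 khS) with hS
  refine ⟨|S| + 1, by positivity, fun u => ?_⟩
  have h1 := h u
  rw [norm_iteratedFDeriv_zero] at h1
  have h2 : |Kf u| ≤ ‖𝓕 khS u‖ := by
    rw [Kf_eq]
    exact Complex.abs_re_le_norm _
  have h3 : (1 + u ^ 2) ^ 3 ≤ (1 + ‖u‖) ^ 6 := by
    have e : (1 + ‖u‖) ^ 6 = ((1 + |u|) ^ 2) ^ 3 := by rw [Real.norm_eq_abs]; ring
    rw [e]
    apply pow_le_pow_left₀ (by positivity)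
    nlinarith [abs_nonneg u, sq_abs u]
  calc |Kf u| * (1 + u ^ 2) ^ 3 ≤ ‖𝓕 khS u‖ * (1 + ‖u‖) ^ 6 := by gcongr
    _ = (1 + ‖u‖) ^ 6 * ‖𝓕 khS u‖ := by ring
    _ ≤ S := h1
    _ ≤ |S| + 1 := by linarith [le_abs_self S]

lemma Kf_integrable : Integrable Kf := by
  obtain ⟨C, hC, h⟩ := Kf_decay
  refine (integrable_inv_one_add_sq.const_mul C).mono' Kf_cont.aestronglyMeasurable
    (Filter.Eventually.of_forall fun x => ?_)
  have h1 := h x
  rw [Real.norm_eq_abs, ← div_eq_mul_inv, le_div_iff₀ (by positivity)]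
  refine le_trans ?_ h1
  have h2 : (1 + x ^ 2) ≤ (1 + x ^ 2) ^ 3 := by
    have : 1 ≤ 1 + x ^ 2 := by nlinarith
    calc (1 + x ^ 2) = (1 + x ^ 2) ^ 1 := by ring
      _ ≤ _ := pow_le_pow_right₀ this (by norm_num)
  gcongr

lemma Kf_int : ∫ u, Kf u = 1 := by
  have h1 : 𝓕⁻ (𝓕 khS) = khS := FourierTransform.fourierInv_fourier_eq khS
  have h2 : (𝓕⁻ (𝓕 khS)) 0 = 1 := by
    rw [h1, khS_apply, kh_one (by norm_num)]
    simp
  rw [SchwartzMap.fourierInv_coe, Real.fourierInv_eq'] at h2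
  simp only [inner_zero_right, mul_zero, Complex.ofReal_zero, zero_mul, Complex.exp_zero, one_smul] at h2
  have h3 := congrArg Complex.re h2
  have hint : Integrable fun v : ℝ => (𝓕 khS) v := (𝓕 khS).integrable
  have h4 := (Complex.reCLM.integral_comp_comm hint).symm
  simp only [Complex.reCLM_apply] at h4
  rw [h4] at h3
  have h5 : Kf = fun u => (𝓕 khS u).re := funext Kf_eq
  rw [h5, h3]
  simp

end U398.NV
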