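import Pool.Agent.U398.NV.Smo

set_option autoImplicit false

/-! # Majorant and minorant of the triangle: main term, bounds -/

namespace U398.NV

open MeasureTheory Filter Topology Set

/-- transform of a majorant (`c > 0`) or minorant (`c < 0`) -/
noncomputable def rp (A c α : ℝ) : ℝ := r1 A α + c * r3 A α

lemma r1_integrable {A : ℝ} (hA : 0 < A) : Integrable (r1 A) :=
  ((bl_tri_cont hA).mul kh_cont).integrable_of_hasCompactSupport (kh_supp.mul_left)

lemma r1_cont {A : ℝ} (hA : 0 < A) : Continuous (r1 A) := (bl_tri_cont hA).mul kh_cont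

lemma r3_cont (A : ℝ) : Continuous (r3 A) := by
  unfold r3
  exact r2_cont.mul (by fun_prop)

lemma r3_supp (A : ℝ) {α : ℝ} (h : 1 / 2 ≤ |α|) : r3 A α = 0 := by
  unfold r3 r2
  rw [tri_supp (by norm_num) h]; ring

lemma r3_compact (A : ℝ) : HasCompactSupport (r3 A) := by
  apply HasCompactSupport.intro (isCompact_Icc (a := -(1 / 2 : ℝ)) (b := 1 / 2))
  intro x hx
  apply r3_supp
  by_contra h
  push Not at h
  obtain ⟨h3, h4⟩ := abs_lt.1 h
  exact hx ⟨h3.le, h4.le⟩

lemma r3_integrable (A : ℝ) : Integrable (r3 A) :=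
  (r3_cont A).integrable_of_hasCompactSupport (r3_compact A)

lemma r3_nonneg (A α : ℝ) : 0 ≤ r3 A α := by
  unfold r3 r2
  have h1 := Real.neg_one_le_cos (2 * Real.pi * 1 * α)
  have h2 := Real.neg_one_le_cos (2 * Real.pi * A * α)
  have h3 := tri_nonneg (1 / 2) α
  have h4 : 0 ≤ 2 + 2 * Real.cos (2 * Real.pi * 1 * α) := by linarith
  have h5 : 0 ≤ 2 + 2 * Real.cos (2 * Real.pi * A * α) := by linarith
  positivity

lemma r3_le (A α : ℝ) : r3 A α ≤ 16 := by
  unfold r3 r2
  have h1 := Real.cos_le_one (2 * Real.pi * 1 * α)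
  have h2 := Real.cos_le_one (2 * Real.pi * A * α)
  have h1' := Real.neg_one_le_cos (2 * Real.pi * 1 * α)
  have h2' := Real.neg_one_le_cos (2 * Real.pi * A * α)
  have h3 := tri_nonneg (1 / 2) α
  have h3' := tri_le_one (κ := 1 / 2) (by norm_num) α
  have h4 : 0 ≤ 2 + 2 * Real.cos (2 * Real.pi * 1 * α) := by linarith
  have h5 : 0 ≤ 2 + 2 * Real.cos (2 * Real.pi * A * α) := by linarith
  calc tri (1 / 2) α * (2 + 2 * Real.cos (2 * Real.pi * 1 * α)) * (2 + 2 * Real.cos (2 * Real.pi * A * α))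
      ≤ 1 * 4 * 4 := by gcongr <;> linarith
    _ = 16 := by norm_num

lemma r3_zero (A : ℝ) : r3 A 0 = 16 := by
  unfold r3 r2
  rw [tri_zero]
  simp
  norm_num

lemma lip_mul {f g : ℝ → ℝ} {Kf Kg Bf Bg : ℝ} (hf : ∀ x y, |f x - f y| ≤ Kf * |x - y|)
    (hg : ∀ x y, |g x - g y| ≤ Kg * |x - y|) (bf : ∀ x, |f x| ≤ Bf) (bg : ∀ x, |g x| ≤ Bg) :
    ∀ x y, |f x * g x - f y * g y| ≤ (Kf * Bg + Bf * Kg) * |x - y| := by
  intro x y
  have e : f x * g x - f y * g y = (f x - f y) * g x + f y * (g x - g y) := by ring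
  rw [e]
  refine (abs_add_le _ _).trans ?_
  rw [abs_mul, abs_mul]
  have h0 : 0 ≤ Kf * |x - y| := le_trans (abs_nonneg _) (hf x y)
  have h1 : 0 ≤ Bf := le_trans (abs_nonneg _) (bf x)
  calc |f x - f y| * |g x| + |f y| * |g x - g y| ≤ (Kf * |x - y|) * Bg + Bf * (Kg * |x - y|) := by
        have a1 := hf x y
        have a2 := bg x
        have a3 := bf y
        have a4 := hg x y
        gcongr
    _ = _ := by ring

lemma cos_lip (c x y : ℝ) : |(2 + 2 * Real.cos (2 * Real.pi * c * x)) - (2 + 2 * Real.cos (2 * Real.pi * c * y))| ≤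
    4 * Real.pi * |c| * |x - y| := by
  have hpi := Real.pi_pos
  have e : (2 + 2 * Real.cos (2 * Real.pi * c * x)) - (2 + 2 * Real.cos (2 * Real.pi * c * y)) =
      2 * (Real.cos (2 * Real.pi * c * x) - Real.cos (2 * Real.pi * c * y)) := by ring
  rw [e, abs_mul, abs_of_pos (by norm_num : (0 : ℝ) < 2)]
  have h1 : |Real.cos (2 * Real.pi * c * x) - Real.cos (2 * Real.pi * c * y)| ≤
      |2 * Real.pi * c * x - 2 * Real.pi * c * y| := by
    have := Real.lipschitzWith_cos.dist_le_mul (2 * Real.pi * c * x) (2 * Real.pi * c * y)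
    simpa [Real.dist_eq] using this
  rw [← mul_sub, abs_mul, abs_mul, abs_of_pos (by positivity : 0 < 2 * Real.pi)] at h1
  nlinarith

lemma r3_lip (A : ℝ) : ∃ K : ℝ, ∀ x y, |r3 A x - r3 A y| ≤ K * |x - y| := by
  have b : ∀ c x : ℝ, |2 + 2 * Real.cos (2 * Real.pi * c * x)| ≤ 4 := by
    intro c x
    have h1 := Real.cos_le_one (2 * Real.pi * c * x)
    have h1' := Real.neg_one_le_cos (2 * Real.pi * c * x)
    rw [abs_le]
    constructor <;> linarith
  have l0 : ∀ x y, |tri (1 / 2) x - tri (1 / 2) y| ≤ 1 / (1 / 2) * |x - y| :=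
    fun x y => tri_lip (by norm_num) x y
  have b0 : ∀ x, |tri (1 / 2) x| ≤ 1 := fun x => by
    rw [abs_of_nonneg (tri_nonneg _ _)]; exact tri_le_one (by norm_num) x
  have l1 := lip_mul l0 (cos_lip 1) b0 (b 1)
  have b1 : ∀ x, |tri (1 / 2) x * (2 + 2 * Real.cos (2 * Real.pi * 1 * x))| ≤ 1 * 4 := by
    intro x
    rw [abs_mul]
    exact mul_le_mul (b0 x) (b 1 x) (abs_nonneg _) (by norm_num)
  exact ⟨_, lip_mul l1 (cos_lip A) b1 (b A)⟩

lemma rp_lip {A : ℝ} (hA : 0 < A) (c : ℝ) : ∃ K : ℝ, ∀ x y, |rp A c x - rp A c y| ≤ K * |x - y| := by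
  obtain ⟨K1, h1⟩ := r1_lip hA
  obtain ⟨K2, h2⟩ := r3_lip A
  refine ⟨K1 + |c| * K2, fun x y => ?_⟩
  unfold rp
  have e : r1 A x + c * r3 A x - (r1 A y + c * r3 A y) = (r1 A x - r1 A y) + c * (r3 A x - r3 A y) := by
    ring
  rw [e]
  refine (abs_add_le _ _).trans ?_
  rw [abs_mul, add_mul, mul_assoc]
  exact add_le_add (h1 x y) (mul_le_mul_of_nonneg_left (h2 x y) (abs_nonneg _))

lemma rp_supp (A c : ℝ) {α : ℝ} (h : 1 / 2 ≤ |α|) : rp A c α = 0 := by
  unfold rp
  rw [r1_supp A h, r3_supp A h]; ring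

lemma bl_rp {A : ℝ} (hA : 0 < A) (c u : ℝ) : bl (rp A c) u = bl (r1 A) u + c * bl (r3 A) u := by
  have i1 := bl_integrable (r1_integrable hA) u
  have i2 := bl_integrable (r3_integrable A) u
  unfold rp bl
  rw [← integral_const_mul, ← integral_add i1 (i2.const_mul c)]
  congr 1
  funext α
  ring

lemma bl_r2_nonneg (u : ℝ) : 0 ≤ bl r2 u := by
  rw [bl_r2]
  have n0 := bl_tri_nonneg (κ := 1 / 2) (by norm_num) u
  have n1 := bl_tri_nonneg (κ := 1 / 2) (by norm_num) (u + 1)
  have n2 := bl_tri_nonneg (κ := 1 / 2) (by norm_num) (u - 1)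
  linarith

/-- the triangle between two bandlimited functions -/
lemma sandwich : ∃ C : ℝ, 0 < C ∧ ∀ A : ℝ, 0 < A → ∀ u : ℝ,
    bl (rp A (-(C / A))) u ≤ tri A u ∧ tri A u ≤ bl (rp A (C / A)) u := by
  obtain ⟨C, hC, h⟩ := smooth_err
  have hpi := Real.pi_pos
  refine ⟨C * Real.pi ^ 2, by positivity, fun A hA u => ?_⟩
  have h1 := h A hA u
  have h2 : C / A * (1 / (1 + (u + A) ^ 2) + 1 / (1 + (u - A) ^ 2) + 2 * (1 / (1 + u ^ 2))) ≤
      C * Real.pi ^ 2 / A * bl (r3 A) u := by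
    have a1 := r2_lower (u + A)
    have a2 := r2_lower (u - A)
    have a3 := r2_lower u
    rw [bl_r3]
    calc C / A * (1 / (1 + (u + A) ^ 2) + 1 / (1 + (u - A) ^ 2) + 2 * (1 / (1 + u ^ 2))) ≤
        C / A * (Real.pi ^ 2 * bl r2 (u + A) + Real.pi ^ 2 * bl r2 (u - A) + 2 * (Real.pi ^ 2 * bl r2 u)) := by
          gcongr
      _ = _ := by ring
  obtain ⟨h3, h4⟩ := abs_le.1 (h1.trans h2)
  rw [bl_rp hA, bl_rp hA]
  constructor
  · have : -(C * Real.pi ^ 2 / A) * bl (r3 A) u = -(C * Real.pi ^ 2 / A * bl (r3 A) u) := by ring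
    rw [this]; linarith
  · linarith

/-! ### decay -/

lemma shift_decay {f : ℝ → ℝ} {B : ℝ} (hf : ∀ u, |f u| * (1 + u ^ 2) ≤ B) (c : ℝ) :
    ∀ u, |f (u + c)| * (1 + u ^ 2) ≤ 2 * (1 + c ^ 2) * B := by
  intro u
  have h1 := hf (u + c)
  have h2 : 1 + u ^ 2 ≤ 2 * (1 + c ^ 2) * (1 + (u + c) ^ 2) := by
    nlinarith [sq_nonneg (u + c + c), sq_nonneg (u + 2 * c), sq_nonneg (c * (u + c)), sq_nonneg c,
      sq_nonneg (u + c)]
  calc |f (u + c)| * (1 + u ^ 2) ≤ |f (u + c)| * (2 * (1 + c ^ 2) * (1 + (u + c) ^ 2)) := by gcongr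
    _ = 2 * (1 + c ^ 2) * (|f (u + c)| * (1 + (u + c) ^ 2)) := by ring
    _ ≤ _ := by gcongr

lemma s_decay (u : ℝ) : |bl (tri (1 / 2)) u| * (1 + u ^ 2) ≤ 5 / 2 := by
  have h1 := bl_tri_le (κ := 1 / 2) (by norm_num) u
  have h2 := bl_tri_decay (κ := 1 / 2) (by norm_num) u
  rw [abs_of_nonneg (bl_tri_nonneg (by norm_num) u)]
  norm_num at h2
  linarith

lemma r2_decay : ∃ B : ℝ, 0 ≤ B ∧ ∀ u, |bl r2 u| * (1 + u ^ 2) ≤ B := by
  refine ⟨2 * (5 / 2) + 2 * (1 + 1 ^ 2) * (5 / 2) + 2 * (1 + (-1) ^ 2) * (5 / 2), by norm_num,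
    fun u => ?_⟩
  have a0 := s_decay u
  have a1 := shift_decay s_decay 1 u
  have a2 := shift_decay s_decay (-1) u
  rw [← sub_eq_add_neg] at a2
  rw [abs_of_nonneg (bl_r2_nonneg u), bl_r2]
  rw [abs_of_nonneg (bl_tri_nonneg (by norm_num) _)] at a0 a1 a2
  linarith

lemma r3_decay (A : ℝ) : ∃ B : ℝ, 0 ≤ B ∧ ∀ u, |bl (r3 A) u| * (1 + u ^ 2) ≤ B := by
  obtain ⟨B, hB, h⟩ := r2_decay
  refine ⟨2 * B + 2 * (1 + A ^ 2) * B + 2 * (1 + (-A) ^ 2) * B, by positivity, fun u => ?_⟩
  have a0 := h u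
  have a1 := shift_decay h A u
  have a2 := shift_decay h (-A) u
  rw [← sub_eq_add_neg] at a2
  rw [abs_of_nonneg (bl_r2_nonneg _)] at a0 a1 a2
  have h0 : 0 ≤ bl (r3 A) u := by
    rw [bl_r3]
    have n0 := bl_r2_nonneg u
    have n1 := bl_r2_nonneg (u + A)
    have n2 := bl_r2_nonneg (u - A)
    linarith
  rw [abs_of_nonneg h0, bl_r3]
  linarith

lemma r1_decay {A : ℝ} (hA : 0 < A) : ∃ B : ℝ, ∀ u, |bl (r1 A) u| * (1 + u ^ 2) ≤ B := by
  obtain ⟨C, hC, h⟩ := sandwich
  obtain ⟨B, hB, hb⟩ := r3_decay A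
  refine ⟨(1 + A ^ 2) + C / A * B, fun u => ?_⟩
  obtain ⟨h1, h2⟩ := h A hA u
  rw [bl_rp hA] at h1 h2
  have h3 : |bl (r1 A) u| ≤ tri A u + C / A * |bl (r3 A) u| := by
    have h4 := tri_nonneg A u
    have h5 := le_abs_self (bl (r3 A) u)
    have h6 := neg_abs_le (bl (r3 A) u)
    have h7 : 0 ≤ C / A := by positivity
    rw [abs_le]
    constructor <;> nlinarith [mul_le_mul_of_nonneg_left h5 h7, mul_le_mul_of_nonneg_left h6 h7]
  have h4 : tri A u * (1 + u ^ 2) ≤ 1 + A ^ 2 := by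
    rcases le_total A |u| with hu | hu
    · rw [tri_supp hA hu, zero_mul]; positivity
    · have h5 : u ^ 2 ≤ A ^ 2 := by
        rw [← sq_abs u]
        exact pow_le_pow_left₀ (abs_nonneg _) hu 2
      calc tri A u * (1 + u ^ 2) ≤ 1 * (1 + A ^ 2) := by
            have := tri_le_one hA u
            have := tri_nonneg A u
            gcongr
        _ = _ := one_mul _
  have h5 := hb u
  calc |bl (r1 A) u| * (1 + u ^ 2) ≤ (tri A u + C / A * |bl (r3 A) u|) * (1 + u ^ 2) := by gcongr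
    _ = tri A u * (1 + u ^ 2) + C / A * (|bl (r3 A) u| * (1 + u ^ 2)) := by ring
    _ ≤ _ := by gcongr

lemma rp_decay {A : ℝ} (hA : 0 < A) (c : ℝ) : ∃ B : ℝ, ∀ u, |bl (rp A c) u| * (1 + u ^ 2) ≤ B := by
  obtain ⟨B1, h1⟩ := r1_decay hA
  obtain ⟨B3, -, h3⟩ := r3_decay A
  refine ⟨B1 + |c| * B3, fun u => ?_⟩
  rw [bl_rp hA]
  calc |bl (r1 A) u + c * bl (r3 A) u| * (1 + u ^ 2) ≤
      (|bl (r1 A) u| + |c| * |bl (r3 A) u|) * (1 + u ^ 2) := by
        have := abs_add_le (bl (r1 A) u) (c * bl (r3 A) u)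
        rw [abs_mul] at this
        gcongr
    _ = |bl (r1 A) u| * (1 + u ^ 2) + |c| * (|bl (r3 A) u| * (1 + u ^ 2)) := by ring
    _ ≤ _ := add_le_add (h1 u) (mul_le_mul_of_nonneg_left (h3 u) (abs_nonneg _))

/-! ### the main term -/

lemma r1_even (A α : ℝ) : r1 A (-α) = r1 A α := by
  unfold r1
  rw [bl_tri_even, kh_even]

lemma main_r1 {A : ℝ} (hA : 1 ≤ A) :
    |(∫ α : ℝ, |α| * r1 A α) - Real.log A / (Real.pi ^ 2 * A)| ≤ 6 / (Real.pi ^ 2 * A) := by
  have hA0 : 0 < A := by linarith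
  have hpi := Real.pi_pos
  have hpi3 := Real.pi_gt_three
  have hpi4 := Real.pi_lt_four
  -- the continuous function
  set G : ℝ → ℝ := fun α => 2 * Real.pi ^ 2 * A * (α * bl (tri A) α) with hG
  have hGc : Continuous G := by
    have := bl_tri_cont hA0
    simp only [hG]; fun_prop
  have hG1 : ∀ α, 0 < α → G α = (1 - Real.cos (2 * Real.pi * A * α)) / α := by
    intro α hα
    simp only [hG]
    rw [bl_tri hA0 hα.ne']
    field_simp
  have e0 : ∫ α : ℝ, |α| * r1 A α = 1 / (Real.pi ^ 2 * A) * ∫ α in (0 : ℝ)..(1 / 2), G α * kh α := by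
    rw [whole_int (δ := 1 / 2) (by norm_num) (fun α hα => by rw [r1_supp A hα, mul_zero]),
      int_even (g := fun α => |α| * r1 A α) (continuous_abs.mul (r1_cont hA0)) (fun x => by
        simp only [abs_neg, r1_even]), ← intervalIntegral.integral_const_mul,
      ← intervalIntegral.integral_const_mul]
    refine intervalIntegral.integral_congr fun α hα => ?_
    rw [Set.uIcc_of_le (by norm_num)] at hα
    simp only [hG, r1]
    rw [abs_of_nonneg hα.1]
    field_simp
  have hi : ∀ a b : ℝ, IntervalIntegrable (fun α => G α * kh α) volume a b := fun a b =>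
    (hGc.mul kh_cont).intervalIntegrable a b
  set a : ℝ := 1 / (4 * A) with ha
  have ha0 : 0 < a := by rw [ha]; positivity
  have ha1 : a ≤ 1 / 4 := by
    rw [ha]
    apply one_div_le_one_div_of_le (by norm_num)
    linarith
  have e1 : ∫ α in (0 : ℝ)..(1 / 2), G α * kh α = (∫ α in (0 : ℝ)..a, G α * kh α) +
      (∫ α in a..(1 / 4), G α * kh α) + ∫ α in (1 / 4 : ℝ)..(1 / 2), G α * kh α := by
    rw [intervalIntegral.integral_add_adjacent_intervals (hi _ _) (hi _ _),
      intervalIntegral.integral_add_adjacent_intervals (hi _ _) (hi _ _)]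
  -- first part
  have p1 : |∫ α in (0 : ℝ)..a, G α * kh α| ≤ 2 := by
    have h1 : ∀ α ∈ Set.uIoc (0 : ℝ) a, ‖G α * kh α‖ ≤ 2 * Real.pi ^ 2 * A * (a * A) := by
      intro α hα
      rw [Set.uIoc_of_le ha0.le] at hα
      have h2 := bl_tri_nonneg hA0 α
      have h3 := bl_tri_le hA0 α
      have h4 : 0 ≤ G α := by simp only [hG]; have := hα.1; positivity
      rw [Real.norm_eq_abs, abs_mul, abs_of_nonneg h4, abs_of_nonneg (kh_nonneg α)]
      calc G α * kh α ≤ G α * 1 := by
            have := kh_le_one α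
            gcongr
        _ = 2 * Real.pi ^ 2 * A * (α * bl (tri A) α) := by rw [mul_one]
        _ ≤ _ := by
            have := hα.1
            have := hα.2
            gcongr
    have h2 := intervalIntegral.norm_integral_le_of_norm_le_const h1
    rw [sub_zero, abs_of_pos ha0, Real.norm_eq_abs] at h2
    refine h2.trans ?_
    have e : 2 * Real.pi ^ 2 * A * (a * A) * a = Real.pi ^ 2 / 8 := by
      rw [ha]; field_simp; norm_num
    rw [e]
    nlinarith
  -- last part
  have p3 : |∫ α in (1 / 4 : ℝ)..(1 / 2), G α * kh α| ≤ 2 := by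
    have h1 : ∀ α ∈ Set.uIoc (1 / 4 : ℝ) (1 / 2), ‖G α * kh α‖ ≤ 8 := by
      intro α hα
      rw [Set.uIoc_of_le (by norm_num)] at hα
      have hα0 : 0 < α := by linarith [hα.1]
      rw [hG1 α hα0, Real.norm_eq_abs, abs_mul, abs_of_nonneg (kh_nonneg α)]
      have h3 := Real.cos_le_one (2 * Real.pi * A * α)
      have h4 := Real.neg_one_le_cos (2 * Real.pi * A * α)
      have h5 : 0 ≤ (1 - Real.cos (2 * Real.pi * A * α)) / α := div_nonneg (by linarith) hα0.le
      rw [abs_of_nonneg h5]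
      have h6 : (1 - Real.cos (2 * Real.pi * A * α)) / α ≤ 8 := by
        rw [div_le_iff₀ hα0]; linarith [hα.1]
      calc (1 - Real.cos (2 * Real.pi * A * α)) / α * kh α ≤ 8 * 1 := by
            have := kh_le_one α
            have := kh_nonneg α
            gcongr
        _ = 8 := by norm_num
    have h2 := intervalIntegral.norm_integral_le_of_norm_le_const h1
    rw [Real.norm_eq_abs] at h2
    refine h2.trans ?_
    rw [abs_of_pos (by norm_num : (0 : ℝ) < 1 / 2 - 1 / 4)]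
    norm_num
  -- middle part
  set c : ℝ := 2 * Real.pi * A with hc
  have hc0 : 0 < c := by rw [hc]; positivity
  have p2 : |(∫ α in a..(1 / 4), G α * kh α) - Real.log A| ≤ 2 := by
    have e2 : ∫ α in a..(1 / 4), G α * kh α = ∫ α in a..(1 / 4), (α⁻¹ - Real.cos (c * α) / α) := by
      refine intervalIntegral.integral_congr fun α hα => ?_
      rw [Set.uIcc_of_le ha1] at hα
      have hα0 : 0 < α := lt_of_lt_of_le ha0 hα.1
      rw [hG1 α hα0, kh_one (by rw [abs_of_pos hα0]; exact hα.2), mul_one]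
      field_simp
    have hco1 : ContinuousOn (fun α : ℝ => α⁻¹) (Set.uIcc a (1 / 4)) := by
      apply continuousOn_inv₀.mono
      intro x hx
      rw [Set.uIcc_of_le ha1] at hx
      exact (lt_of_lt_of_le ha0 hx.1).ne'
    have hco2 : ContinuousOn (fun α : ℝ => Real.cos (c * α) / α) (Set.uIcc a (1 / 4)) := by
      simp only [div_eq_mul_inv]
      exact (by fun_prop : Continuous fun α : ℝ => Real.cos (c * α)).continuousOn.mul hco1
    have hco3 : ContinuousOn (fun α : ℝ => Real.sin (c * α) / (c * α ^ 2)) (Set.uIcc a (1 / 4)) := by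
      apply ContinuousOn.div (by fun_prop) (by fun_prop)
      intro x hx
      rw [Set.uIcc_of_le ha1] at hx
      have : 0 < x := lt_of_lt_of_le ha0 hx.1
      positivity
    have e3 : ∫ α in a..(1 / 4), (α⁻¹ - Real.cos (c * α) / α) =
        (∫ α in a..(1 / 4), α⁻¹) - ∫ α in a..(1 / 4), Real.cos (c * α) / α :=
      intervalIntegral.integral_sub hco1.intervalIntegrable hco2.intervalIntegrable
    have e4 : ∫ α in a..(1 / 4), α⁻¹ = Real.log A := by
      rw [integral_inv_of_pos ha0 (by norm_num)]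
      congr 1
      rw [ha]; field_simp
    have e5 : ∫ α in a..(1 / 4), (Real.cos (c * α) / α - Real.sin (c * α) / (c * α ^ 2)) =
        Real.sin (c * (1 / 4)) / (c * (1 / 4)) - Real.sin (c * a) / (c * a) := by
      have hd : ∀ x ∈ Set.uIcc a (1 / 4), HasDerivAt (fun α : ℝ => Real.sin (c * α) / (c * α))
          (Real.cos (c * x) / x - Real.sin (c * x) / (c * x ^ 2)) x := by
        intro x hx
        rw [Set.uIcc_of_le ha1] at hx
        have hx0 : 0 < x := lt_of_lt_of_le ha0 hx.1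
        have h3 : HasDerivAt (fun β : ℝ => c * β) c x := by
          simpa using (hasDerivAt_id x).const_mul c
        have h4 := h3.sin.div h3 (by positivity)
        refine h4.congr_deriv ?_
        field_simp
      rw [intervalIntegral.integral_eq_sub_of_hasDerivAt hd
        (hco2.sub hco3).intervalIntegrable]
    rw [intervalIntegral.integral_sub hco2.intervalIntegrable hco3.intervalIntegrable] at e5
    have b1 : |Real.sin (c * (1 / 4)) / (c * (1 / 4))| ≤ 2 / Real.pi := by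
      rw [abs_div, abs_of_pos (by positivity : 0 < c * (1 / 4))]
      have : |Real.sin (c * (1 / 4))| ≤ 1 := Real.abs_sin_le_one _
      rw [div_le_div_iff₀ (by positivity) hpi]
      have h2 : 2 * (c * (1 / 4)) = Real.pi * A := by rw [hc]; ring
      rw [h2]
      nlinarith
    have b2 : |Real.sin (c * a) / (c * a)| ≤ 2 / Real.pi := by
      rw [abs_div, abs_of_pos (by positivity : 0 < c * a)]
      have h2 : c * a = Real.pi / 2 := by rw [hc, ha]; field_simp; norm_num
      rw [h2]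
      have : |Real.sin (Real.pi / 2)| ≤ 1 := Real.abs_sin_le_one _
      rw [div_le_div_iff₀ (by positivity) hpi]
      nlinarith
    have b3 : |∫ α in a..(1 / 4), Real.sin (c * α) / (c * α ^ 2)| ≤ 2 / Real.pi := by
      have h1 : |∫ α in a..(1 / 4), Real.sin (c * α) / (c * α ^ 2)| ≤ ∫ α in a..(1 / 4), 1 / (c * α ^ 2) := by
        refine (intervalIntegral.abs_integral_le_integral_abs ha1).trans ?_
        refine intervalIntegral.integral_mono_on ha1 ?_ ?_ fun α hα => ?_
        · exact hco3.abs.intervalIntegrable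
        · apply ContinuousOn.intervalIntegrable
          apply ContinuousOn.div (by fun_prop) (by fun_prop)
          intro x hx
          rw [Set.uIcc_of_le ha1] at hx
          have : 0 < x := lt_of_lt_of_le ha0 hx.1
          positivity
        · have hα0 : 0 < α := lt_of_lt_of_le ha0 hα.1
          rw [abs_div, abs_of_pos (by positivity : 0 < c * α ^ 2)]
          exact div_le_div_of_nonneg_right (Real.abs_sin_le_one _) (by positivity)
      refine h1.trans ?_
      have hd : ∀ x ∈ Set.uIcc a (1 / 4), HasDerivAt (fun α : ℝ => -(1 / (c * α)))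
          (1 / (c * x ^ 2)) x := by
        intro x hx
        rw [Set.uIcc_of_le ha1] at hx
        have hx0 : 0 < x := lt_of_lt_of_le ha0 hx.1
        have h3 : HasDerivAt (fun β : ℝ => c * β) c x := by
          simpa using (hasDerivAt_id x).const_mul c
        have h4 := (h3.inv (by positivity)).neg
        have h5 : (fun α : ℝ => -(1 / (c * α))) = -(fun β : ℝ => c * β)⁻¹ := by
          funext α; simp
        rw [h5]
        refine h4.congr_deriv ?_
        field_simp
      rw [intervalIntegral.integral_eq_sub_of_hasDerivAt hd (by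
        apply ContinuousOn.intervalIntegrable
        apply ContinuousOn.div (by fun_prop) (by fun_prop)
        intro x hx
        rw [Set.uIcc_of_le ha1] at hx
        have : 0 < x := lt_of_lt_of_le ha0 hx.1
        positivity)]
      have h2 : 1 / (c * a) = 2 / Real.pi := by
        have : c * a = Real.pi / 2 := by rw [hc, ha]; field_simp; norm_num
        rw [this]; field_simp
      have h3 : 0 ≤ 1 / (c * (1 / 4)) := by positivity
      rw [h2]; linarith
    have b4 : 6 / Real.pi ≤ 2 := by rw [div_le_iff₀ hpi]; linarith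
    rw [e2, e3, e4]
    have e6 : ∫ α in a..(1 / 4), Real.cos (c * α) / α = Real.sin (c * (1 / 4)) / (c * (1 / 4)) -
        Real.sin (c * a) / (c * a) + ∫ α in a..(1 / 4), Real.sin (c * α) / (c * α ^ 2) := by linarith
    rw [e6]
    have b5 : 6 / Real.pi = 2 / Real.pi + 2 / Real.pi + 2 / Real.pi := by ring
    rw [abs_le] at b1 b2 b3 ⊢
    constructor <;> linarith [b1.1, b1.2, b2.1, b2.2, b3.1, b3.2]
  have hfin : |(∫ α in (0 : ℝ)..(1 / 2), G α * kh α) - Real.log A| ≤ 6 := by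
    rw [e1]
    rw [abs_le] at p1 p2 p3 ⊢
    constructor <;> linarith [p1.1, p1.2, p2.1, p2.2, p3.1, p3.2]
  rw [e0]
  have e7 : 1 / (Real.pi ^ 2 * A) * (∫ α in (0 : ℝ)..(1 / 2), G α * kh α) -
      Real.log A / (Real.pi ^ 2 * A) =
      1 / (Real.pi ^ 2 * A) * ((∫ α in (0 : ℝ)..(1 / 2), G α * kh α) - Real.log A) := by ring
  rw [e7, abs_mul, abs_of_pos (by positivity : 0 < 1 / (Real.pi ^ 2 * A))]
  calc 1 / (Real.pi ^ 2 * A) * |(∫ α in (0 : ℝ)..(1 / 2), G α * kh α) - Real.log A| ≤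
      1 / (Real.pi ^ 2 * A) * 6 := by gcongr
    _ = _ := by ring

end U398.NV
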