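import Pool.Agent.Y750.OM.Main1

set_option autoImplicit false

/-! # Pair sums of the ordinates: error term for test functions with a step majorant

This is the proof of `Pool.Agent.Y750.OM.pair_ord` with the sup norm of the transform `r` replaced by a finite
majorant of steps. -/

namespace U398.NVP

open Complex Filter Topology Set MeasureTheory
open H370 (Zf mult mem_Zf good_zeta zset JJ JJ_cont NN NN_eq)
open H370.A2 (JN)
open Pool.Agent.Y750.OM

theorem pair_ord2 {κ0 : ℝ} (h0 : 0 < κ0) (h1 : κ0 < 2 / 3) : ∃ C θ : ℝ, 0 < C ∧ 0 < θ ∧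
    ∀ (r : ℝ → ℝ) (K : ℝ), (∀ x y, |r x - r y| ≤ K * |x - y|) →
    (∀ α, κ0 < |α| → r α = 0) → ∀ Cf0 : ℝ, (∀ x, |rh r x| * (1 + x ^ 2) ≤ Cf0) →
    ∀ (n : ℕ) (Rj dj : ℕ → ℝ), (∀ j, 0 ≤ Rj j) → (∀ j, 0 < dj j) → (∀ j, dj j ≤ κ0) →
    (∀ α, |r α| ≤ ∑ j ∈ Finset.range n, Rj j * (if |α| ≤ dj j then 1 else 0)) →
    ∀ ε : ℝ, 0 < ε → ∃ T0 : ℝ, 10 ≤ T0 ∧ ∀ T : ℝ, T0 ≤ T →
    |PO (rh r) T (2 * T) (Real.log T) - NN riemannZeta T (2 * T) * (r 0 + ∫ α : ℝ, |α| * r α)| ≤
      (C * (∑ j ∈ Finset.range n, Rj j * dj j ^ 3) * (NO T (2 * T) / NN riemannZeta T (2 * T)) ^ θ + ε) *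
        NN riemannZeta T (2 * T) := by

  classical
  obtain ⟨C1, θ, hC1, hθ, hdiff⟩ := diff_main h0 h1
  obtain ⟨Ce, hCe, hedge⟩ := edges
  obtain ⟨Cg, hCg, hgauss⟩ := degauss
  obtain ⟨Cn, hCn, hcnt⟩ := edge_count
  refine ⟨7 * C1, θ, by positivity, hθ, fun r K hlip hs Cf0 hf0 n Rj dj hRj hdj hdjκ hR ε hε => ?_⟩
  set δ : ℝ := κ0 with hδdef
  have hδ : 0 < δ := h0
  set R : ℝ := ∑ j ∈ Finset.range n, Rj j with hRdef
  have hR0 : 0 ≤ R := Finset.sum_nonneg fun j _ => hRj j
  have hK : 0 ≤ K := by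
    have h1 := hlip 1 0
    have h2 := abs_nonneg (r 1 - r 0)
    simp at h1
    linarith
  have hrc : Continuous r := by
    have : LipschitzWith K.toNNReal r := by
      refine LipschitzWith.of_dist_le_mul fun x y => ?_
      rw [Real.dist_eq, Real.dist_eq, Real.coe_toNNReal _ hK]
      exact hlip x y
    exact this.continuous
  set c : ℝ := r 0 + ∫ α : ℝ, |α| * r α with hc
  have hcI : ∫ α : ℝ, |α| * r α = ∫ α in (-δ)..δ, |α| * r α :=
    whole_int hδ fun α hα => by rw [hs α hα, mul_zero]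
  obtain ⟨Cf, hCf, hf⟩ : ∃ Cf : ℝ, 0 < Cf ∧ ∀ x, |rh r x| * (1 + x ^ 2) ≤ Cf :=
    ⟨|Cf0| + 1, by positivity, fun x => (hf0 x).trans (by linarith [le_abs_self Cf0])⟩
  have hz : ∀ x, δ ≤ |x| → r x = 0 := by
    intro α hα
    rcases hα.lt_or_eq with h | h
    · exact hs α h
    · have hcl : IsClosed {x : ℝ | r x = 0} := isClosed_eq hrc continuous_const
      rcases le_total 0 α with h0 | h0
      · rw [abs_of_nonneg h0] at h
        have h1 : Set.Ioi δ ⊆ {x : ℝ | r x = 0} := fun x hx => hs x (lt_of_lt_of_le hx (le_abs_self x))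
        have h2 := closure_minimal h1 hcl
        rw [closure_Ioi] at h2
        exact h2 (by rw [← h]; exact Set.self_mem_Ici)
      · rw [abs_of_nonpos h0] at h
        have h1 : Set.Iio (-δ) ⊆ {x : ℝ | r x = 0} := fun x hx => hs x (by
          have : x < -δ := hx
          have := neg_abs_le x
          linarith)
        have h2 := closure_minimal h1 hcl
        rw [closure_Iio] at h2
        exact h2 (by rw [h, neg_neg]; exact Set.self_mem_Iic)
  set ε1 : ℝ := min (1 / 100) (ε / (40 * (|c| + 1))) with hε1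
  have hε10 : 0 < ε1 := lt_min (by norm_num) (by positivity)
  have hε1a : ε1 ≤ 1 / 100 := min_le_left _ _
  have hε1b : ε1 * (|c| + 1) ≤ ε / 40 := by
    have : ε1 ≤ ε / (40 * (|c| + 1)) := min_le_right _ _
    rw [le_div_iff₀ (by positivity)] at this
    linarith
  have hε1c : ε1 ≤ ε / 40 := by
    have := abs_nonneg c
    nlinarith
  have hε1d : |c| * ε1 ≤ ε / 40 := by nlinarith
  set ε2 : ℝ := ε / (70 * (R + 1)) with hε2
  have hε20 : 0 < ε2 := by positivity
  have hε2a : 7 * R * ε2 ≤ ε / 10 := by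
    have e1 : 7 * R * ε2 = ε / 10 * (R / (R + 1)) := by
      rw [hε2]; field_simp; ring
    rw [e1]
    have : R / (R + 1) ≤ 1 := by rw [div_le_one (by linarith)]; linarith
    nlinarith
  obtain ⟨Ta, hTa, hpsi⟩ := psi_full δ ε1 hδ (by linarith) hε10 r K hlip hz
  have hTbj : ∀ j, ∃ T0 : ℝ, 10 ≤ T0 ∧ ∀ T : ℝ, T0 ≤ T →
    ∫ α in Set.Icc (-(dj j)) (dj j), |JJ riemannZeta (T + 1) (2 * T - 1) (α * Real.log T) -
      JB (Zf riemannZeta (T + 1) (2 * T - 1)) (fun s => (mult riemannZeta s : ℝ))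
        (α * Real.log T)| ≤
      (C1 * dj j ^ 3 * (NO T (2 * T) / (T * Real.log T)) ^ θ + ε2) * (T * Real.log T) :=
    fun j => hdiff (dj j) (hdj j) (hdjκ j) ε2 hε20
  choose Tbj hTbj1 hTbj2 using hTbj
  set Tb : ℝ := 10 + ∑ j ∈ Finset.range n, Tbj j with hTbdef
  have hTb : ∀ j ∈ Finset.range n, Tbj j ≤ Tb := by
    intro j hj
    have := Finset.single_le_sum (f := Tbj) (fun j _ => by linarith [hTbj1 j]) hj
    linarith
  have ev1 : ∀ᶠ T : ℝ in atTop, Real.log T ≤ min (ε / (56 * Ce * Cf)) (1 / 100) * T := by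
    have h := Real.isLittleO_log_id_atTop.bound
      (show 0 < min (ε / (56 * Ce * Cf)) (1 / 100) from lt_min (by positivity) (by norm_num))
    filter_upwards [h, eventually_ge_atTop 1] with T hT hT1
    rw [Real.norm_of_nonneg (Real.log_nonneg hT1), id, Real.norm_of_nonneg (by linarith)] at hT
    exact hT
  have ev2 : ∀ᶠ T : ℝ in atTop, 8 * Cg * Cf / ε + 1 ≤ Real.log T :=
    Real.tendsto_log_atTop.eventually_ge_atTop _
  obtain ⟨Tc, hTc⟩ := ((ev1.and ev2).and (eventually_ge_atTop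
    (max (56 * |c| * Cn / ε) (max (100 * Cn) 100)))).exists_forall_of_atTop
  refine ⟨max Ta (max Tb Tc), hTa.trans (le_max_left _ _), fun T hT => ?_⟩
  have hTTa : Ta ≤ T := (le_max_left _ _).trans hT
  have hTTb : Tb ≤ T := ((le_max_left _ _).trans (le_max_right _ _)).trans hT
  obtain ⟨⟨e1, e2⟩, e3⟩ := hTc T (((le_max_right _ _).trans (le_max_right _ _)).trans hT)
  have e3a : 56 * |c| * Cn / ε ≤ T := (le_max_left _ _).trans e3
  have e3b : 100 * Cn ≤ T := ((le_max_left _ _).trans (le_max_right _ _)).trans e3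
  have hT100 : 100 ≤ T := ((le_max_right _ _).trans (le_max_right _ _)).trans e3
  have e1a : Real.log T ≤ ε / (56 * Ce * Cf) * T :=
    e1.trans (mul_le_mul_of_nonneg_right (min_le_left _ _) (by linarith))
  obtain ⟨p1, p2⟩ := hpsi T hTTa
  have p3 : ∀ j ∈ Finset.range n, ∫ α in Set.Icc (-(dj j)) (dj j), |JJ riemannZeta (T + 1) (2 * T - 1) (α * Real.log T) -
      JB (Zf riemannZeta (T + 1) (2 * T - 1)) (fun s => (mult riemannZeta s : ℝ))
        (α * Real.log T)| ≤
      (C1 * dj j ^ 3 * (NO T (2 * T) / (T * Real.log T)) ^ θ + ε2) * (T * Real.log T) :=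
    fun j hj => hTbj2 j T ((hTb j hj).trans hTTb)
  have p4 := hedge T (by linarith) (rh r) Cf hCf.le hf
  have p5 := hgauss T (by linarith) (rh r) Cf hCf.le hf
  have p6 := hcnt T (by linarith)
  set L := Real.log T with hL
  have hL0 : 0 < L := Real.log_pos (by linarith)
  have hpi := Real.pi_pos
  have hpi3 := Real.pi_gt_three
  have hpi4 := Real.pi_lt_d4
  set N : ℝ := (NN riemannZeta T (2 * T) : ℝ) with hN
  set N1 : ℝ := (NN riemannZeta (T + 1) (2 * T - 1) : ℝ) with hN1
  set S := Zf riemannZeta (T + 1) (2 * T - 1) with hS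
  set Z := Zf riemannZeta T (2 * T) with hZ
  set m : ℂ → ℝ := fun s => (mult riemannZeta s : ℝ) with hm
  have hm0 : ∀ s, 0 ≤ m s := fun s => Nat.cast_nonneg _
  have hSZ : S ⊆ Z := by
    intro s hs
    rw [hS, mem_Zf good_zeta (by linarith)] at hs
    rw [hZ, mem_Zf good_zeta (by linarith)]
    obtain ⟨g1, g2, g3, g4, g5⟩ := hs
    exact ⟨g1, g2, by linarith, by linarith, g5⟩
  have hNe : N = ∑ s ∈ Z, m s := by
    rw [hN, NN_eq good_zeta (by linarith)]; push_cast; rfl
  have hN1e : N1 = ∑ s ∈ S, m s := by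
    rw [hN1, NN_eq good_zeta (by linarith)]; push_cast; rfl
  have hNN1 : N = ∑ s ∈ Z \ S, m s + N1 := by
    rw [hNe, hN1e, Finset.sum_sdiff hSZ]
  have hE0 : 0 ≤ ∑ s ∈ Z \ S, m s := Finset.sum_nonneg fun s _ => hm0 s
  set E : ℝ := ∑ s ∈ Z \ S, m s with hE
  have hEL : E ≤ Cn * L := p6
  set M : ℝ := (T - 2) * L / (2 * Real.pi) with hM
  have hM0 : 0 < M := by
    rw [hM]
    have : 0 < T - 2 := by linarith
    positivity
  set X : ℝ := T * L with hX
  have hX0 : 0 < X := by positivity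
  have hMX : 6 * M ≤ X := by
    have : M * (2 * Real.pi) = (T - 2) * L := by rw [hM]; field_simp
    nlinarith
  have hMX2 : (T - 2) * L ≤ 6.2832 * M := by
    have : M * (2 * Real.pi) = (T - 2) * L := by rw [hM]; field_simp
    nlinarith
  obtain ⟨p1a, p1b⟩ := abs_le.1 p1
  have hε1M : ε1 * M ≤ 1 / 100 * M := by gcongr
  have hXN1 : X ≤ 7 * N1 := by
    have h2 : 99 / 100 * M ≤ N1 := by linarith
    have h3 : T * L ≤ 1.03 * ((T - 2) * L) := by
      rw [← mul_assoc]
      apply mul_le_mul_of_nonneg_right _ hL0.le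
      linarith
    have h4 : X ≤ 1.03 * (6.2832 * M) := by
      rw [hX]; linarith
    linarith
  have hN1N : N1 ≤ N := by linarith
  have hXN : X ≤ 7 * N := by linarith
  have hN0 : 0 < N := by linarith
  have hN10 : 0 < N1 := by linarith
  have hEX : E ≤ 1 / 100 * X := by
    have : Cn * L ≤ 1 / 100 * (T * L) := by nlinarith
    linarith
  have hNX : N ≤ X := by
    have : N1 ≤ 101 / 100 * M := by linarith
    linarith
  have hMN : M ≤ 2 * N := by
    have : 99 / 100 * M ≤ N1 := by linarith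
    linarith
  -- the chain
  set P := PO (rh r) T (2 * T) L with hP
  set P1 := PO (rh r) (T + 1) (2 * T - 1) L with hP1
  set G := ∫ α in (-δ)..δ, r α * (JB S m (α * L) / Real.sqrt Real.pi) with hG
  set A := ∫ α in (-δ)..δ, r α * JN riemannZeta (T + 1) (2 * T - 1) (α * L) with hA
  have q1 : |P - P1| ≤ ε / 8 * N := by
    refine p4.trans ?_
    have h2 : Ce * Cf * L ^ 2 ≤ ε / 56 * X := by
      have h3 : L * (56 * Ce * Cf) ≤ ε * T := by
        rw [div_mul_eq_mul_div, le_div_iff₀ (by positivity)] at e1a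
        exact e1a
      have h4 : L * (56 * Ce * Cf) * L ≤ ε * T * L := by gcongr
      rw [hX]
      nlinarith only [h4]
    calc Ce * Cf * L ^ 2 ≤ ε / 56 * X := h2
      _ ≤ ε / 56 * (7 * N) := by gcongr
      _ = ε / 8 * N := by ring
  have q2 : |G - P1| ≤ ε / 8 * N := by
    rw [hG, JB_int hrc hδ.le hs]
    refine p5.trans ?_
    have h2 : Cg * Cf / L ≤ ε / 8 := by
      rw [div_le_iff₀ hL0]
      have h3 : 8 * Cg * Cf / ε ≤ L := by linarith
      rw [div_le_iff₀ hε] at h3
      linarith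
    exact mul_le_mul h2 hN1N hN10.le (by positivity)
  have q3 : |A - G| ≤ (7 * C1 * (∑ j ∈ Finset.range n, Rj j * dj j ^ 3) * (NO T (2 * T) / N) ^ θ + ε / 10) * N := by
    have hJc : Continuous fun α : ℝ => JJ riemannZeta (T + 1) (2 * T - 1) (α * L) :=
      (JJ_cont good_zeta (U2 := 2 * T - 1) (by linarith : (1 : ℝ) ≤ T + 1)).comp (by fun_prop)
    have hBc : Continuous fun α : ℝ => JB S m (α * L) := (JB_cont S m).comp (by fun_prop)
    have hspi : 1 ≤ Real.sqrt Real.pi := by rw [Real.one_le_sqrt]; linarith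
    have h2 : A - G = ∫ α in (-δ)..δ, r α * ((JJ riemannZeta (T + 1) (2 * T - 1) (α * L) -
        JB S m (α * L)) / Real.sqrt Real.pi) := by
      rw [hA, hG, ← intervalIntegral.integral_sub]
      · refine intervalIntegral.integral_congr fun α _ => ?_
        simp only [JN]
        ring
      · unfold JN
        exact (hrc.mul (hJc.div_const _)).intervalIntegrable _ _
      · exact (hrc.mul (hBc.div_const _)).intervalIntegrable _ _
    set Q : ℝ → ℝ := fun α => |JJ riemannZeta (T + 1) (2 * T - 1) (α * L) - JB S m (α * L)| with hQ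
    have hQc : Continuous Q := (hJc.sub hBc).abs
    have hQ0 : ∀ α, 0 ≤ Q α := fun α => abs_nonneg _
    have hind : ∀ j, IntegrableOn (fun α => Rj j * (Set.Icc (-(dj j)) (dj j)).indicator Q α) (Set.Icc (-δ) δ) := by
      intro j
      apply Integrable.const_mul
      rw [← IntegrableOn]
      exact (hQc.integrableOn_Icc.indicator measurableSet_Icc)
    have h3 : |A - G| ≤ ∑ j ∈ Finset.range n, Rj j * ∫ α in Set.Icc (-(dj j)) (dj j), Q α := by
      rw [h2]
      refine (intervalIntegral.abs_integral_le_integral_abs (by linarith)).trans ?_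
      rw [intervalIntegral.integral_of_le (by linarith), ← integral_Icc_eq_integral_Ioc]
      have h4 : ∫ α in Set.Icc (-δ) δ, |r α * ((JJ riemannZeta (T + 1) (2 * T - 1) (α * L) -
        JB S m (α * L)) / Real.sqrt Real.pi)| ≤ ∫ α in Set.Icc (-δ) δ,
          ∑ j ∈ Finset.range n, Rj j * (Set.Icc (-(dj j)) (dj j)).indicator Q α := by
        apply integral_mono
        · exact ((hrc.mul ((hJc.sub hBc).div_const _)).abs).integrableOn_Icc
        · exact integrable_finsetSum _ fun j _ => hind j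
        intro α
        simp only
        rw [abs_mul, abs_div, abs_of_pos (by linarith : 0 < Real.sqrt Real.pi)]
        have e1 : |JJ riemannZeta (T + 1) (2 * T - 1) (α * L) - JB S m (α * L)| / Real.sqrt Real.pi ≤ Q α :=
          div_le_self (abs_nonneg _) hspi
        have e2 : ∀ j, Rj j * (Set.Icc (-(dj j)) (dj j)).indicator Q α =
            Rj j * (if |α| ≤ dj j then 1 else 0) * Q α := by
          intro j
          by_cases hj : |α| ≤ dj j
          · have hmem : α ∈ Set.Icc (-(dj j)) (dj j) := abs_le.1 hj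
            rw [Set.indicator_of_mem hmem, if_pos hj, mul_one]
          · have hmem : α ∉ Set.Icc (-(dj j)) (dj j) := fun hh => hj (abs_le.2 hh)
            rw [Set.indicator_of_notMem hmem, if_neg hj]; ring
        simp_rw [e2]
        rw [← Finset.sum_mul]
        exact mul_le_mul (hR α) e1 (by positivity) ((abs_nonneg _).trans (hR α))
      refine h4.trans (le_of_eq ?_)
      rw [integral_finsetSum _ fun j _ => hind j]
      refine Finset.sum_congr rfl fun j _ => ?_
      rw [integral_const_mul, setIntegral_indicator measurableSet_Icc,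
        Set.inter_eq_self_of_subset_right]
      exact Set.Icc_subset_Icc (by linarith [hdjκ j]) (hdjκ j)
    have h4 : (NO T (2 * T) / X) ^ θ ≤ (NO T (2 * T) / N) ^ θ := by
      apply Real.rpow_le_rpow (div_nonneg (NO_nonneg _ _) hX0.le) _ hθ.le
      exact div_le_div_of_nonneg_left (NO_nonneg _ _) hN0 hNX
    have h5 : 0 ≤ (NO T (2 * T) / X) ^ θ :=
      Real.rpow_nonneg (div_nonneg (NO_nonneg _ _) hX0.le) _
    have h6 : ∀ j ∈ Finset.range n, Rj j * ∫ α in Set.Icc (-(dj j)) (dj j), Q α ≤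
        7 * C1 * (Rj j * dj j ^ 3) * (NO T (2 * T) / N) ^ θ * N + Rj j * (7 * ε2 * N) := by
      intro j hj
      have h7 := p3 j hj
      calc Rj j * ∫ α in Set.Icc (-(dj j)) (dj j), Q α ≤
          Rj j * ((C1 * dj j ^ 3 * (NO T (2 * T) / X) ^ θ + ε2) * X) :=
            mul_le_mul_of_nonneg_left h7 (hRj j)
        _ ≤ Rj j * ((C1 * dj j ^ 3 * (NO T (2 * T) / N) ^ θ + ε2) * (7 * N)) := by
            have h8 : 0 ≤ C1 * dj j ^ 3 * (NO T (2 * T) / N) ^ θ := by
              have := h5.trans h4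
              have := hdj j
              positivity
            have h9 : C1 * dj j ^ 3 * (NO T (2 * T) / X) ^ θ ≤ C1 * dj j ^ 3 * (NO T (2 * T) / N) ^ θ := by
              apply mul_le_mul_of_nonneg_left h4
              have := hdj j
              positivity
            apply mul_le_mul_of_nonneg_left _ (hRj j)
            apply mul_le_mul (by linarith) hXN hX0.le (by linarith)
        _ = _ := by ring
    refine h3.trans ((Finset.sum_le_sum h6).trans ?_)
    rw [Finset.sum_add_distrib, ← Finset.sum_mul, ← Finset.sum_mul, ← Finset.sum_mul, ← Finset.mul_sum,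
      ← hRdef, add_mul]
    have h10 : R * (7 * ε2 * N) = 7 * R * ε2 * N := by ring
    rw [h10]
    gcongr
  have q4 : |A - M * c| ≤ ε / 20 * N := by
    have h2 : c = r 0 + ∫ α in (-δ)..δ, |α| * r α := by rw [hc, hcI]
    rw [h2]
    refine p2.trans ?_
    calc ε1 * M ≤ ε / 40 * (2 * N) := by gcongr
      _ = ε / 20 * N := by ring
  have q5 : |M * c - N * c| ≤ (ε / 8 + ε / 20) * N := by
    rw [← sub_mul, abs_mul]
    have h2 : |M - N| ≤ ε1 * M + Cn * L := by
      rw [abs_le]
      constructor <;> linarith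
    have h3 : |c| * (Cn * L) ≤ ε / 8 * N := by
      rw [div_le_iff₀ hε] at e3a
      have h4 : 56 * |c| * Cn * L ≤ T * ε * L := by gcongr
      have h5 : |c| * (Cn * L) ≤ ε / 56 * X := by
        rw [hX]
        nlinarith only [h4]
      calc |c| * (Cn * L) ≤ ε / 56 * X := h5
        _ ≤ ε / 56 * (7 * N) := by gcongr
        _ = ε / 8 * N := by ring
    have h4 : |c| * (ε1 * M) ≤ ε / 20 * N := by
      calc |c| * (ε1 * M) = (|c| * ε1) * M := by ring
        _ ≤ ε / 40 * (2 * N) := by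
            have : 0 ≤ |c| * ε1 := by positivity
            gcongr
        _ = _ := by ring
    calc |M - N| * |c| ≤ (ε1 * M + Cn * L) * |c| := by gcongr
      _ = |c| * (Cn * L) + |c| * (ε1 * M) := by ring
      _ ≤ _ := by linarith
  have hfin := chain5 P P1 G A (M * c) (N * c)
  refine hfin.trans ?_
  have hεN : 0 ≤ ε * N := by positivity
  have e9 : (7 * C1 * (∑ j ∈ Finset.range n, Rj j * dj j ^ 3) * (NO T (2 * T) / N) ^ θ + ε) * N =
      (7 * C1 * (∑ j ∈ Finset.range n, Rj j * dj j ^ 3) * (NO T (2 * T) / N) ^ θ + ε / 10) * N +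
        9 / 10 * (ε * N) := by ring
  rw [e9]
  linarith

end U398.NVP
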