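import Pool.Agent.U398.NV.Ker

set_option autoImplicit false

/-! # The triangle, its transform, and the smoothed triangle -/

namespace U398.NV

open MeasureTheory Filter Topology Set

lemma tri_nonneg (κ α : ℝ) : 0 ≤ tri κ α := le_max_left _ _

lemma tri_zero (κ : ℝ) : tri κ 0 = 1 := by
  unfold tri
  simp

lemma tri_le_one {κ : ℝ} (hκ : 0 < κ) (α : ℝ) : tri κ α ≤ 1 := by
  unfold tri
  apply max_le zero_le_one
  have : 0 ≤ |α| / κ := by positivity
  linarith

lemma tri_even (κ α : ℝ) : tri κ (-α) = tri κ α := by unfold tri; rw [abs_neg]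

lemma tri_cont (κ : ℝ) : Continuous (tri κ) := by unfold tri; fun_prop

lemma tri_supp {κ : ℝ} (hκ : 0 < κ) {α : ℝ} (h : κ ≤ |α|) : tri κ α = 0 := by
  unfold tri
  apply max_eq_left
  have : 1 ≤ |α| / κ := by rw [le_div_iff₀ hκ]; linarith
  linarith

lemma tri_lip {κ : ℝ} (hκ : 0 < κ) (x y : ℝ) : |tri κ x - tri κ y| ≤ 1 / κ * |x - y| := by
  unfold tri
  refine (abs_max_sub_max_le_max _ _ _ _).trans ?_
  rw [sub_self, abs_zero]
  apply max_le (by positivity)
  have e : 1 - |x| / κ - (1 - |y| / κ) = (1 / κ) * (|y| - |x|) := by ring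
  rw [e, abs_mul, abs_of_pos (by positivity : 0 < 1 / κ)]
  apply mul_le_mul_of_nonneg_left _ (by positivity)
  rw [abs_sub_comm x y]
  exact abs_abs_sub_abs_le_abs_sub y x

lemma tri_compact {κ : ℝ} (hκ : 0 < κ) : HasCompactSupport (tri κ) := by
  apply HasCompactSupport.intro (isCompact_Icc (a := -κ) (b := κ))
  intro x hx
  apply tri_supp hκ
  by_contra h
  push Not at h
  obtain ⟨h3, h4⟩ := abs_lt.1 h
  exact hx ⟨h3.le, h4.le⟩

lemma tri_integrable {κ : ℝ} (hκ : 0 < κ) : Integrable (tri κ) :=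
  (tri_cont κ).integrable_of_hasCompactSupport (tri_compact hκ)

lemma abs_sd (v y : ℝ) : |v + y| + |v - y| = 2 * |v| + 2 * max 0 (|y| - |v|) := by
  rcases le_total |y| |v| with h | h
  · rw [max_eq_left (by linarith)]
    rcases le_total 0 v with hv | hv <;> rcases le_total 0 y with hy | hy <;>
      simp only [abs_of_nonneg, abs_of_nonpos, hv, hy] at h ⊢
    · rw [abs_of_nonneg (by linarith : 0 ≤ v + y), abs_of_nonneg (by linarith : 0 ≤ v - y)]; ring
    · rw [abs_of_nonneg (by linarith : 0 ≤ v + y), abs_of_nonneg (by linarith : 0 ≤ v - y)]; ring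
    · rw [abs_of_nonpos (by linarith : v + y ≤ 0), abs_of_nonpos (by linarith : v - y ≤ 0)]; ring
    · rw [abs_of_nonpos (by linarith : v + y ≤ 0), abs_of_nonpos (by linarith : v - y ≤ 0)]; ring
  · rw [max_eq_right (by linarith)]
    rcases le_total 0 v with hv | hv <;> rcases le_total 0 y with hy | hy <;>
      simp only [abs_of_nonneg, abs_of_nonpos, hv, hy] at h ⊢
    · rw [abs_of_nonneg (by linarith : 0 ≤ v + y), abs_of_nonpos (by linarith : v - y ≤ 0)]; ring
    · rw [abs_of_nonpos (by linarith : v + y ≤ 0), abs_of_nonneg (by linarith : 0 ≤ v - y)]; ring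
    · rw [abs_of_nonneg (by linarith : 0 ≤ v + y), abs_of_nonpos (by linarith : v - y ≤ 0)]; ring
    · rw [abs_of_nonpos (by linarith : v + y ≤ 0), abs_of_nonneg (by linarith : 0 ≤ v - y)]; ring

lemma tri_abs {A : ℝ} (hA : 0 < A) (u : ℝ) : tri A u = (|u + A| + |u - A| - 2 * |u|) / (2 * A) := by
  rw [abs_sd, abs_of_pos hA]
  unfold tri
  rw [eq_div_iff (by positivity)]
  rw [max_mul_of_nonneg _ _ (by positivity : 0 ≤ 2 * A)]
  have e1 : (1 - |u| / A) * (2 * A) = 2 * (A - |u|) := by field_simp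
  rw [e1, zero_mul]
  have e2 : max 0 (2 * (A - |u|)) = 2 * max 0 (A - |u|) := by
    rw [mul_max_of_nonneg _ _ (by norm_num : (0 : ℝ) ≤ 2), mul_zero]
  rw [e2]
  ring

/-- the positive part -/
noncomputable def PP (v y : ℝ) : ℝ := max 0 (|y| - |v|)

lemma PP_nonneg (v y : ℝ) : 0 ≤ PP v y := le_max_left _ _

lemma PP_cont (v : ℝ) : Continuous (PP v) := by unfold PP; fun_prop

lemma tri_sd {A : ℝ} (hA : 0 < A) (u y : ℝ) : (tri A (u + y) + tri A (u - y)) / 2 =
    tri A u + (PP (u + A) y + PP (u - A) y - 2 * PP u y) / (2 * A) := by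
  rw [tri_abs hA, tri_abs hA, tri_abs hA]
  have h1 := abs_sd (u + A) y
  have h2 := abs_sd (u - A) y
  have h3 := abs_sd u y
  unfold PP
  have e1 : u + A + y = u + y + A := by ring
  have e2 : u + A - y = u - y + A := by ring
  have e3 : u - A + y = u + y - A := by ring
  have e4 : u - A - y = u - y - A := by ring
  rw [e1, e2] at h1
  rw [e3, e4] at h2
  field_simp
  linarith

lemma PP_le {C : ℝ} {f : ℝ} (v y : ℝ) (hf : |f| * (1 + y ^ 2) ^ 3 ≤ C) :
    |f| * PP v y ≤ C / (1 + v ^ 2) * (1 + y ^ 2)⁻¹ := by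
  have hC : 0 ≤ C := le_trans (by positivity) hf
  have h1 : 0 < 1 + y ^ 2 := by positivity
  have h2 : 0 < 1 + v ^ 2 := by positivity
  have h3 : PP v y * (1 + v ^ 2) ≤ (1 + y ^ 2) ^ 2 := by
    unfold PP
    rcases le_total |y| |v| with h | h
    · rw [max_eq_left (by linarith), zero_mul]; positivity
    · rw [max_eq_right (by linarith)]
      have h4 : v ^ 2 ≤ y ^ 2 := sq_le_sq.2 h
      have h5 : |y| - |v| ≤ 1 + y ^ 2 := by
        nlinarith [abs_nonneg y, abs_nonneg v, sq_abs y, sq_nonneg (|y| - 1)]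
      calc (|y| - |v|) * (1 + v ^ 2) ≤ (1 + y ^ 2) * (1 + y ^ 2) := by
            apply mul_le_mul h5 (by linarith) h2.le h1.le
        _ = _ := by ring
  rw [div_mul_eq_mul_div, ← div_eq_mul_inv, div_div, le_div_iff₀ (by positivity)]
  calc |f| * PP v y * ((1 + y ^ 2) * (1 + v ^ 2)) = |f| * (1 + y ^ 2) * (PP v y * (1 + v ^ 2)) := by ring
    _ ≤ |f| * (1 + y ^ 2) * (1 + y ^ 2) ^ 2 := by gcongr
    _ = |f| * (1 + y ^ 2) ^ 3 := by ring
    _ ≤ C := hf

/-! ### the transform of the triangle -/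

lemma int_even {g : ℝ → ℝ} (hg : Continuous g) (he : ∀ x, g (-x) = g x) (κ : ℝ) :
    ∫ x in (-κ)..κ, g x = 2 * ∫ x in (0 : ℝ)..κ, g x := by
  have h1 : ∫ x in (-κ)..κ, g x = (∫ x in (-κ)..0, g x) + ∫ x in (0 : ℝ)..κ, g x :=
    (intervalIntegral.integral_add_adjacent_intervals (hg.intervalIntegrable _ _)
      (hg.intervalIntegrable _ _)).symm
  have h2 : ∫ x in (-κ)..0, g x = ∫ x in (0 : ℝ)..κ, g x := by
    have h3 := intervalIntegral.integral_comp_neg (a := (0 : ℝ)) (b := κ) g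
    rw [neg_zero] at h3
    rw [← h3]
    exact intervalIntegral.integral_congr fun x _ => he x
  rw [h1, h2]; ring

lemma whole_int {δ : ℝ} (hδ : 0 ≤ δ) {h : ℝ → ℝ} (hs : ∀ α, δ ≤ |α| → h α = 0) :
    ∫ α : ℝ, h α = ∫ α in (-δ)..δ, h α := by
  have e1 : ∫ α in Set.Icc (-δ) δ, h α = ∫ α : ℝ, h α := by
    rw [setIntegral_eq_integral_of_forall_compl_eq_zero]
    intro x hx
    apply hs
    by_contra hcon
    push Not at hcon
    obtain ⟨h1, h2⟩ := abs_lt.1 hcon
    exact hx ⟨h1.le, h2.le⟩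
  rw [← e1, integral_Icc_eq_integral_Ioc, ← intervalIntegral.integral_of_le (by linarith)]

/-- integrals of the triangle against even functions -/
lemma tri_int {κ : ℝ} (hκ : 0 < κ) {c : ℝ → ℝ} (hc : Continuous c) (hce : ∀ x, c (-x) = c x) :
    ∫ α : ℝ, tri κ α * c α = 2 * ∫ α in (0 : ℝ)..κ, (1 - α / κ) * c α := by
  rw [whole_int hκ.le (fun α hα => by rw [tri_supp hκ hα, zero_mul]),
    int_even (g := fun α => tri κ α * c α) ((tri_cont κ).mul hc) (fun x => by
      simp only [tri_even, hce])]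
  congr 1
  refine intervalIntegral.integral_congr fun α hα => ?_
  rw [Set.uIcc_of_le hκ.le] at hα
  have e2 : tri κ α = 1 - α / κ := by
    unfold tri
    rw [abs_of_nonneg hα.1]
    apply max_eq_right
    have : α / κ ≤ 1 := by rw [div_le_one hκ]; exact hα.2
    linarith
  simp only [e2]

lemma tri_mass {κ : ℝ} (hκ : 0 < κ) : ∫ α : ℝ, tri κ α = κ := by
  have h := tri_int hκ (c := fun _ => (1 : ℝ)) continuous_const (fun x => rfl)
  simp only [mul_one] at h
  rw [h]
  have h1 : ∀ x ∈ Set.uIcc (0 : ℝ) κ, HasDerivAt (fun α : ℝ => α - α ^ 2 / (2 * κ))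
      (1 - x / κ) x := by
    intro x hx
    have h2 := (hasDerivAt_id x).sub ((hasDerivAt_pow 2 x).div_const (2 * κ))
    refine h2.congr_deriv ?_
    field_simp
    push_cast
    ring
  rw [intervalIntegral.integral_eq_sub_of_hasDerivAt h1
    (Continuous.intervalIntegrable (by fun_prop) _ _)]
  field_simp
  ring

/-- the transform of the triangle -/
lemma bl_tri {κ : ℝ} (hκ : 0 < κ) {u : ℝ} (hu : u ≠ 0) :
    bl (tri κ) u = (1 - Real.cos (2 * Real.pi * κ * u)) / (2 * Real.pi ^ 2 * κ * u ^ 2) := by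
  have hpi := Real.pi_pos
  unfold bl
  rw [tri_int hκ (c := fun α => Real.cos (2 * Real.pi * α * u)) (by fun_prop) (fun y => by
    rw [show 2 * Real.pi * -y * u = -(2 * Real.pi * y * u) by ring, Real.cos_neg])]
  set x : ℝ := 2 * Real.pi * u with hx
  have hx0 : x ≠ 0 := by rw [hx]; positivity
  have e0 : ∀ β : ℝ, 2 * Real.pi * β * u = β * x := fun β => by rw [hx]; ring
  simp_rw [e0]
  have h2 : ∀ β ∈ Set.uIcc (0 : ℝ) κ, HasDerivAt (fun β : ℝ => (1 - β / κ) * Real.sin (β * x) / x -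
      Real.cos (β * x) / (κ * x ^ 2)) ((1 - β / κ) * Real.cos (β * x)) β := by
    intro β _
    have h3 : HasDerivAt (fun β : ℝ => β * x) x β := by
      simpa using (hasDerivAt_id β).mul_const x
    have h4 := h3.sin
    have h5 := h3.cos
    have h6 : HasDerivAt (fun β : ℝ => 1 - β / κ) (-(1 / κ)) β := by
      simpa using ((hasDerivAt_id β).div_const κ).const_sub 1
    have h7 := ((h6.mul h4).div_const x).sub (h5.div_const (κ * x ^ 2))
    refine h7.congr_deriv ?_
    field_simp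
    ring
  rw [intervalIntegral.integral_eq_sub_of_hasDerivAt h2
    (Continuous.intervalIntegrable (by fun_prop) _ _)]
  have e1 : 1 - κ / κ = 0 := by rw [div_self hκ.ne']; ring
  rw [e1]
  simp only [zero_mul, Real.sin_zero, Real.cos_zero, mul_zero, zero_div, zero_sub]
  rw [hx]
  field_simp
  ring

lemma bl_tri_zero {κ : ℝ} (hκ : 0 < κ) : bl (tri κ) 0 = κ := by
  unfold bl
  simp only [mul_zero, Real.cos_zero, mul_one]
  exact tri_mass hκ

lemma bl_tri_nonneg {κ : ℝ} (hκ : 0 < κ) (u : ℝ) : 0 ≤ bl (tri κ) u := by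
  rcases eq_or_ne u 0 with h | h
  · rw [h, bl_tri_zero hκ]; exact hκ.le
  · rw [bl_tri hκ h]
    have := Real.cos_le_one (2 * Real.pi * κ * u)
    have h2 : 0 ≤ 1 - Real.cos (2 * Real.pi * κ * u) := by linarith
    positivity

lemma bl_integrable {r : ℝ → ℝ} (hr : Integrable r) (u : ℝ) :
    Integrable fun α : ℝ => r α * Real.cos (2 * Real.pi * α * u) := by
  refine hr.norm.mono' (hr.aestronglyMeasurable.mul
    (by fun_prop : Continuous fun α : ℝ => Real.cos (2 * Real.pi * α * u)).aestronglyMeasurable)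
    (Eventually.of_forall fun α => ?_)
  rw [norm_mul, Real.norm_eq_abs (Real.cos _)]
  exact mul_le_of_le_one_right (norm_nonneg _) (Real.abs_cos_le_one _)

lemma bl_abs_le {r : ℝ → ℝ} (hr : Integrable r) (u : ℝ) : |bl r u| ≤ ∫ α, |r α| := by
  unfold bl
  refine (abs_integral_le_integral_abs).trans ?_
  refine integral_mono (bl_integrable hr u).abs hr.abs fun α => ?_
  simp only
  rw [abs_mul]
  exact mul_le_of_le_one_right (abs_nonneg _) (Real.abs_cos_le_one _)

lemma bl_tri_le {κ : ℝ} (hκ : 0 < κ) (u : ℝ) : bl (tri κ) u ≤ κ := by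
  refine (le_abs_self _).trans ((bl_abs_le (tri_integrable hκ) u).trans (le_of_eq ?_))
  have e : ∫ α, |tri κ α| = ∫ α, tri κ α :=
    integral_congr_ae (Eventually.of_forall fun α => abs_of_nonneg (tri_nonneg _ _))
  rw [e, tri_mass hκ]

lemma bl_tri_decay {κ : ℝ} (hκ : 0 < κ) (u : ℝ) : bl (tri κ) u * u ^ 2 ≤ 1 / κ := by
  rcases eq_or_ne u 0 with h | h
  · rw [h]; simp; positivity
  · rw [bl_tri hκ h]
    have hpi := Real.pi_gt_three
    have h1 := Real.neg_one_le_cos (2 * Real.pi * κ * u)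
    have e : (1 - Real.cos (2 * Real.pi * κ * u)) / (2 * Real.pi ^ 2 * κ * u ^ 2) * u ^ 2 =
        (1 - Real.cos (2 * Real.pi * κ * u)) / (2 * Real.pi ^ 2 * κ) := by field_simp
    rw [e, div_le_div_iff₀ (by positivity) hκ]
    have h2 : 1 - Real.cos (2 * Real.pi * κ * u) ≤ 2 := by linarith
    have h3 : (2 : ℝ) ≤ 2 * Real.pi ^ 2 := by nlinarith
    calc (1 - Real.cos (2 * Real.pi * κ * u)) * κ ≤ (2 * Real.pi ^ 2) * κ := by gcongr; linarith
      _ = _ := by ring

lemma bl_tri_even {κ : ℝ} (u : ℝ) : bl (tri κ) (-u) = bl (tri κ) u := by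
  unfold bl
  congr 1
  funext α
  rw [mul_neg, Real.cos_neg]

/-- translation -/
lemma bl_shift {r : ℝ → ℝ} (hr : Integrable r) (c u : ℝ) :
    bl (fun α => r α * (2 + 2 * Real.cos (2 * Real.pi * c * α))) u =
      2 * bl r u + bl r (u + c) + bl r (u - c) := by
  have i1 : Integrable fun α : ℝ => 2 * (r α * Real.cos (2 * Real.pi * α * u)) :=
    (bl_integrable hr u).const_mul 2
  have i2 := bl_integrable hr (u + c)
  have i3 := bl_integrable hr (u - c)
  have i12 : Integrable fun α : ℝ => 2 * (r α * Real.cos (2 * Real.pi * α * u)) +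
      r α * Real.cos (2 * Real.pi * α * (u + c)) := i1.add i2
  unfold bl
  rw [← integral_const_mul, ← integral_add i1 i2, ← integral_add i12 i3]
  congr 1
  funext α
  have e1 : 2 * Real.pi * α * (u + c) = 2 * Real.pi * α * u + 2 * Real.pi * c * α := by ring
  have e2 : 2 * Real.pi * α * (u - c) = 2 * Real.pi * α * u - 2 * Real.pi * c * α := by ring
  rw [e1, e2, Real.cos_add, Real.cos_sub]
  ring

end U398.NV
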